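import Mathlib

/-!
# Covering lemmas (maximal inequalities)
-/

open MeasureTheory Filter
open scoped Topology

namespace Pool.Agent.H55.FPP

open scoped Classical in
/-- One-sided covering lemma. -/
lemma cover1_aux {X : ℕ → ℝ} (hX : ∀ i, 0 ≤ X i) {c : ℝ} {J N : ℕ} {G : Set ℕ}
    (hG : ∀ k ∈ G, k < J → ∃ n, 1 ≤ n ∧ n ≤ N ∧ c * n ≤ ∑ j ∈ Finset.range n, X (k + j)) :
    ∀ m a : ℕ, J ≤ a + m → a ≤ J →
      c * ((Finset.Ico a J).filter (· ∈ G)).card ≤ ∑ i ∈ Finset.Ico a (J + N), X i ∨ c < 0 := by
  by_cases hc : c < 0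
  · intro m a _ _; exact Or.inr hc
  push Not at hc
  intro m
  induction m using Nat.strong_induction_on with
  | _ m ih =>
    intro a hJ ha
    left
    rcases Nat.eq_or_lt_of_le ha with rfl | hlt
    · simp only [Finset.Ico_self, Finset.filter_empty, Finset.card_empty, Nat.cast_zero, mul_zero]
      exact Finset.sum_nonneg fun i _ => hX i
    by_cases haG : a ∈ G
    · obtain ⟨n, hn1, hnN, hn⟩ := hG a haG hlt
      by_cases hcase : a + n ≤ J
      · have h1 := (ih (m - n) (by omega) (a + n) (by omega) hcase).resolve_right (not_lt.mpr hc)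
        have h2 : (((Finset.Ico a J).filter (· ∈ G)).card : ℝ) ≤
            n + ((Finset.Ico (a + n) J).filter (· ∈ G)).card := by
          have : (Finset.Ico a J).filter (· ∈ G) ⊆
              Finset.Ico a (a + n) ∪ (Finset.Ico (a + n) J).filter (· ∈ G) := by
            intro i hi
            simp only [Finset.mem_filter, Finset.mem_Ico, Finset.mem_union] at hi ⊢
            by_cases h : i < a + n
            · left; omega
            · right; exact ⟨by omega, hi.2⟩
          have h3 := (Finset.card_le_card this).trans (Finset.card_union_le _ _)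
          rw [Nat.card_Ico, Nat.add_sub_cancel_left] at h3
          exact_mod_cast h3
        have h4 : ∑ j ∈ Finset.range n, X (a + j) = ∑ i ∈ Finset.Ico a (a + n), X i := by
          rw [Finset.sum_Ico_eq_sum_range]; congr 2; omega
        have h5 : ∑ i ∈ Finset.Ico a (a + n), X i + ∑ i ∈ Finset.Ico (a + n) (J + N), X i =
            ∑ i ∈ Finset.Ico a (J + N), X i :=
          Finset.sum_Ico_consecutive X (by omega) (by omega)
        nlinarith
      · push Not at hcase
        have h2 : (((Finset.Ico a J).filter (· ∈ G)).card : ℝ) ≤ n := by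
          have h3 : ((Finset.Ico a J).filter (· ∈ G)).card ≤ J - a := by
            refine (Finset.card_filter_le _ _).trans ?_
            rw [Nat.card_Ico]
          exact_mod_cast h3.trans (by omega)
        have h4 : ∑ j ∈ Finset.range n, X (a + j) = ∑ i ∈ Finset.Ico a (a + n), X i := by
          rw [Finset.sum_Ico_eq_sum_range]; congr 2; omega
        have h5 : ∑ i ∈ Finset.Ico a (a + n), X i ≤ ∑ i ∈ Finset.Ico a (J + N), X i := by
          refine Finset.sum_le_sum_of_subset_of_nonneg ?_ fun i _ _ => hX i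
          exact Finset.Ico_subset_Ico le_rfl (by omega)
        nlinarith
    · have h1 := (ih (m - 1) (by omega) (a + 1) (by omega) hlt).resolve_right (not_lt.mpr hc)
      have h2 : (Finset.Ico a J).filter (· ∈ G) = (Finset.Ico (a + 1) J).filter (· ∈ G) := by
        ext i
        simp only [Finset.mem_filter, Finset.mem_Ico]
        constructor
        · rintro ⟨h, hG'⟩
          refine ⟨⟨?_, h.2⟩, hG'⟩
          rcases Nat.eq_or_lt_of_le h.1 with rfl | h3
          · exact absurd hG' haG
          · exact h3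
        · rintro ⟨h, hG'⟩
          exact ⟨⟨by omega, h.2⟩, hG'⟩
      rw [h2]
      refine h1.trans ?_
      refine Finset.sum_le_sum_of_subset_of_nonneg ?_ fun i _ _ => hX i
      exact Finset.Ico_subset_Ico (by omega) le_rfl

open scoped Classical in
lemma cover1 {X : ℕ → ℝ} (hX : ∀ i, 0 ≤ X i) {c : ℝ} (hc : 0 ≤ c) {J N : ℕ} {G : Set ℕ}
    (hG : ∀ k ∈ G, k < J → ∃ n, 1 ≤ n ∧ n ≤ N ∧ c * n ≤ ∑ j ∈ Finset.range n, X (k + j)) :
    c * ∑ k ∈ Finset.range J, G.indicator (fun _ => (1 : ℝ)) k ≤
      ∑ i ∈ Finset.range (J + N), X i := by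
  have h := (cover1_aux hX hG J 0 (by omega) (by omega)).resolve_right (not_lt.mpr hc)
  rw [← Finset.range_eq_Ico, ← Finset.range_eq_Ico] at h
  refine le_trans (le_of_eq ?_) h
  congr 1
  rw [Finset.card_filter]
  push_cast
  refine Finset.sum_congr rfl fun k _ => ?_
  by_cases hk : k ∈ G <;> simp [hk]

lemma sum_range_mul {f : ℕ → ℝ} (J L : ℕ) :
    ∑ i ∈ Finset.range (J * L), f i =
      ∑ r ∈ Finset.range L, ∑ j ∈ Finset.range J, f (r + j * L) := by
  induction J with
  | zero => simp
  | succ J ih =>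
    rw [Nat.succ_mul, Finset.sum_range_add, ih]
    rw [← Finset.sum_add_distrib]
    refine Finset.sum_congr rfl fun r _ => ?_
    rw [Finset.sum_range_succ, add_comm r]

/-- Covering lemma with steps of length `L`. -/
lemma coverL {X : ℕ → ℝ} (hX : ∀ i, 0 ≤ X i) {c : ℝ} (hc : 0 ≤ c) {J N L : ℕ} {G : Set ℕ}
    (hG : ∀ k ∈ G, k < J * L →
      ∃ n, 1 ≤ n ∧ n ≤ N ∧ c * n ≤ ∑ j ∈ Finset.range n, X (k + j * L)) :
    c * ∑ k ∈ Finset.range (J * L), G.indicator (fun _ => (1 : ℝ)) k ≤
      ∑ i ∈ Finset.range ((J + N) * L), X i := by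
  rw [sum_range_mul, sum_range_mul, Finset.mul_sum]
  refine Finset.sum_le_sum fun r hr => ?_
  rw [Finset.mem_range] at hr
  refine (le_of_eq ?_).trans (cover1 (X := fun j => X (r + j * L)) (fun j => hX _) hc
    (J := J) (N := N) (G := {j | r + j * L ∈ G}) ?_)
  · congr 1
  · intro k hk hkJ
    have hlt : r + k * L < J * L := by
      calc r + k * L < L + k * L := by omega
        _ = (k + 1) * L := by ring
        _ ≤ J * L := Nat.mul_le_mul_right _ hkJ
    obtain ⟨n, h1, h2, h3⟩ := hG _ hk hlt
    refine ⟨n, h1, h2, h3.trans (le_of_eq ?_)⟩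
    refine Finset.sum_congr rfl fun j _ => ?_
    congr 1; ring

open scoped Classical in
/-- Covering lemma for subadditive functions. -/
lemma cover2 {τ : ℕ → ℕ → ℝ} (h0 : ∀ a b, 0 ≤ τ a b) (hself : ∀ a, τ a a = 0)
    (htri : ∀ a b c, τ a c ≤ τ a b + τ b c) {c : ℝ}
    (hc : 0 ≤ c) {N J : ℕ} {B : Set ℕ}
    (hB : ∀ k, k ∉ B → ∃ n, 1 ≤ n ∧ n ≤ N ∧ τ k (k + n) ≤ c * n) :
    ∀ m a : ℕ, J = a + m →
      τ a J ≤ c * m + ∑ k ∈ Finset.Ico a J, B.indicator (fun k => τ k (k + 1)) k +
        ∑ k ∈ Finset.Ico (max a (J - N)) J, τ k (k + 1) := by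
  intro m
  have hind : ∀ k, 0 ≤ B.indicator (fun k => τ k (k + 1)) k := fun k =>
    Set.indicator_nonneg (fun _ _ => h0 _ _) _
  induction m using Nat.strong_induction_on with
  | _ m ih =>
    intro a hJ
    have hS1 : 0 ≤ ∑ k ∈ Finset.Ico a J, B.indicator (fun k => τ k (k + 1)) k :=
      Finset.sum_nonneg fun k _ => hind k
    by_cases hmN : m ≤ N
    · have hmax : max a (J - N) = a := by omega
      rw [hmax]
      have : ∀ b, a ≤ b → τ a b ≤ ∑ k ∈ Finset.Ico a b, τ k (k + 1) := by
        intro b hb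
        induction b, hb using Nat.le_induction with
        | base => simp [hself]
        | succ b hb ihb =>
          rw [Finset.sum_Ico_succ_top hb]
          exact (htri a b (b + 1)).trans (by gcongr)
      have h1 := this J (by omega)
      have : 0 ≤ c * m := by positivity
      linarith
    · push Not at hmN
      by_cases ha : a ∈ B
      · obtain ⟨m', rfl⟩ : ∃ m', m = m' + 1 := ⟨m - 1, by omega⟩
        have h1 := ih m' (by omega) (a + 1) (by omega)
        have h2 : ∑ k ∈ Finset.Ico a J, B.indicator (fun k => τ k (k + 1)) k =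
            τ a (a + 1) + ∑ k ∈ Finset.Ico (a + 1) J, B.indicator (fun k => τ k (k + 1)) k := by
          rw [Finset.sum_eq_sum_Ico_succ_bot (by omega), Set.indicator_of_mem ha]
        have h3 : ∑ k ∈ Finset.Ico (max (a + 1) (J - N)) J, τ k (k + 1) ≤
            ∑ k ∈ Finset.Ico (max a (J - N)) J, τ k (k + 1) := by
          refine Finset.sum_le_sum_of_subset_of_nonneg ?_ fun i _ _ => h0 _ _
          exact Finset.Ico_subset_Ico (by omega) le_rfl
        have h4 := htri a (a + 1) J
        push_cast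
        rw [h2]
        nlinarith
      · obtain ⟨n, hn1, hnN, hn⟩ := hB a ha
        obtain ⟨m', rfl⟩ : ∃ m', m = m' + n := ⟨m - n, by omega⟩
        have h1 := ih m' (by omega) (a + n) (by omega)
        have h2 : ∑ k ∈ Finset.Ico (a + n) J, B.indicator (fun k => τ k (k + 1)) k ≤
            ∑ k ∈ Finset.Ico a J, B.indicator (fun k => τ k (k + 1)) k := by
          refine Finset.sum_le_sum_of_subset_of_nonneg ?_ fun i _ _ => hind _
          exact Finset.Ico_subset_Ico (by omega) le_rfl
        have h3 : ∑ k ∈ Finset.Ico (max (a + n) (J - N)) J, τ k (k + 1) ≤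
            ∑ k ∈ Finset.Ico (max a (J - N)) J, τ k (k + 1) := by
          refine Finset.sum_le_sum_of_subset_of_nonneg ?_ fun i _ _ => h0 _ _
          exact Finset.Ico_subset_Ico (by omega) le_rfl
        have h4 := htri a (a + n) J
        push_cast
        nlinarith

end Pool.Agent.H55.FPP
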