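import Mathlib

/-!
# First-passage percolation on the integer lattice: definitions
-/

open MeasureTheory Filter
open scoped NNReal Topology

namespace Pool.Agent.H55.FPP

/-- The nearest neighbour graph on `ℤ^d`: `x` and `y` are adjacent if their `ℓ¹` distance is `1`. -/
def lattice (d : ℕ) : SimpleGraph (Fin d → ℤ) where
  Adj x y := ∑ i, |x i - y i| = 1
  symm := ⟨fun x y h => by simpa [abs_sub_comm] using h⟩
  loopless := ⟨fun x h => by simp at h⟩

/-- An environment: a non-negative weight on every unordered pair of sites. Only the weights of the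
edges of the lattice are used. -/
abbrev Env (d : ℕ) : Type := Sym2 (Fin d → ℤ) → ℝ≥0

/-- The law of the environment: independent weights with the common distribution `F`. -/
noncomputable def law (d : ℕ) (F : Measure ℝ≥0) : Measure (Env d) :=
  Measure.infinitePi fun _ => F

/-- The sum of the weights of the edges of a walk. -/
noncomputable def weight {d : ℕ} (ω : Env d) {u v : Fin d → ℤ} (p : (lattice d).Walk u v) : ℝ :=
  (p.edges.map fun e => (ω e : ℝ)).sum

/-- The passage time `T(u,v)`: the infimum of the weights of the self-avoiding lattice paths from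
`u` to `v`. -/
noncomputable def passageTime {d : ℕ} (ω : Env d) (u v : Fin d → ℤ) : ℝ :=
  ⨅ p : (lattice d).Path u v, weight ω (p : (lattice d).Walk u v)

/-- `γ 0, γ 1, γ 2, …` is an infinite geodesic from `u`: an infinite self-avoiding path each of
whose finite sub-paths has the least possible weight. -/
def IsInfiniteGeodesic {d : ℕ} (ω : Env d) (u : Fin d → ℤ) (γ : ℕ → Fin d → ℤ) : Prop :=
  γ 0 = u ∧ Function.Injective γ ∧ (∀ n, (lattice d).Adj (γ n) (γ (n + 1))) ∧
    ∀ m n, m ≤ n →
      ∑ i ∈ Finset.Ico m n, (ω s(γ i, γ (i + 1)) : ℝ) = passageTime ω (γ m) (γ n)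

/-- A site as a vector of `ℝ^d`. -/
def toReal {d : ℕ} (x : Fin d → ℤ) : Fin d → ℝ := fun i => (x i : ℝ)

/-- `v` is (a positive multiple of) a limit direction of the sequence of sites `γ`. -/
def IsLimitDirection {d : ℕ} (γ : ℕ → Fin d → ℤ) (v : Fin d → ℝ) : Prop :=
  v ≠ 0 ∧ ∃ (φ : ℕ → ℕ) (t : ℕ → ℝ), StrictMono φ ∧ (∀ k, 0 < t k) ∧
    Tendsto (fun k => t k • toReal (γ (φ k))) atTop (𝓝 v)

/-- The sequence of sites `γ` has the asymptotic direction `θ`: with `|·|` the Euclidean norm,
`γ n / |γ n|` tends to `θ / |θ|`. -/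
def HasDirection {d : ℕ} (γ : ℕ → Fin d → ℤ) (θ : Fin d → ℝ) : Prop :=
  Tendsto (fun n => (Real.sqrt (∑ i, (γ n i : ℝ) ^ 2))⁻¹ • toReal (γ n)) atTop
    (𝓝 ((Real.sqrt (∑ i, θ i ^ 2))⁻¹ • θ))

end Pool.Agent.H55.FPP
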