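import Pool.Agent.H55.FPP.Mean
import Pool.Agent.H55.FPP.Cover

/-!
# First-passage percolation: passage times along a fixed lattice direction
-/

open MeasureTheory Filter ProbabilityTheory
open scoped NNReal Topology

namespace Pool.Agent.H55.FPP

variable {d : ℕ} {F : Measure ℝ≥0} [IsProbabilityMeasure F]

/-! ### Dependence on finitely many weights -/

lemma weight_zeroOn_le (S : Set (Sym2 (Fin d → ℤ))) (ω : Env d) {u v : Fin d → ℤ}
    (p : (lattice d).Walk u v) : weight (zeroOn S ω) p ≤ weight ω p := by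
  unfold weight
  apply List.sum_le_sum
  intro e _
  unfold zeroOn
  split_ifs
  · simp
  · exact le_rfl

lemma T_zeroOn_le (S : Set (Sym2 (Fin d → ℤ))) (ω : Env d) (u v : Fin d → ℤ) :
    passageTime (zeroOn S ω) u v ≤ passageTime ω u v := by
  refine le_of_forall_pos_lt_add fun ε hε => ?_
  obtain ⟨p, -, hp⟩ := exists_walk_lt ω u v hε
  exact ((T_le_weight _ p).trans (weight_zeroOn_le S ω p)).trans_lt hp

lemma T_le_zeroOn {S : Set (Sym2 (Fin d → ℤ))} (hS : S.Finite) (ω : Env d) (u v : Fin d → ℤ) :
    passageTime ω u v ≤ passageTime (zeroOn S ω) u v + ∑ e ∈ hS.toFinset, (ω e : ℝ) := by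
  classical
  refine le_of_forall_pos_lt_add fun ε hε => ?_
  obtain ⟨p, hp, hw⟩ := exists_walk_lt (zeroOn S ω) u v hε
  have hnd : p.edges.Nodup := hp.isTrail.edges_nodup
  have h1 := T_le_weight ω p
  have h2 : weight ω p ≤ weight (zeroOn S ω) p + ∑ e ∈ hS.toFinset, (ω e : ℝ) := by
    rw [weight_eq_sum ω p hnd, weight_eq_sum (zeroOn S ω) p hnd]
    have h3 : ∀ e ∈ p.edges.toFinset, (ω e : ℝ) ≤
        (zeroOn S ω e : ℝ) + (if e ∈ hS.toFinset then (ω e : ℝ) else 0) := by
      intro e _
      unfold zeroOn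
      by_cases h : e ∈ S
      · simp [h]
      · simp [h]
    refine (Finset.sum_le_sum h3).trans ?_
    rw [Finset.sum_add_distrib]
    gcongr
    rw [← Finset.sum_filter]
    refine Finset.sum_le_sum_of_subset_of_nonneg ?_ fun i _ _ => NNReal.coe_nonneg _
    intro e he
    exact (Finset.mem_filter.mp he).2
  linarith

/-! ### Upper bound -/

/-- The event `∃ q > c, ∃ᶠ k, k q ≤ T(0, k y)`. -/
def upEv (y : Fin d → ℤ) (c : ℝ) : Set (Env d) :=
  ⋃ q ∈ {q : ℚ | c < q}, ⋂ N : ℕ, ⋃ k ∈ {k : ℕ | N ≤ k}, {ω | (k : ℝ) * q ≤ passageTime ω 0 (k • y)}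

lemma mem_upEv {y : Fin d → ℤ} {c : ℝ} {ω : Env d} :
    ω ∈ upEv y c ↔ ∃ q : ℚ, c < q ∧ ∃ᶠ k : ℕ in atTop, (k : ℝ) * q ≤ passageTime ω 0 (k • y) := by
  unfold upEv
  simp only [Set.mem_iUnion, Set.mem_iInter, Set.mem_ofPred_eq, exists_prop, frequently_atTop]

lemma measurableSet_upEv (y : Fin d → ℤ) (c : ℝ) : MeasurableSet (upEv y c) := by
  unfold upEv
  refine MeasurableSet.biUnion (Set.to_countable _) fun q _ => ?_
  refine MeasurableSet.iInter fun N => ?_
  refine MeasurableSet.biUnion (Set.to_countable _) fun k _ => ?_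
  exact measurableSet_le measurable_const (measurable_T _ _)

lemma upEv_zero_one (y : Fin d → ℤ) (c : ℝ) :
    law d F (upEv y c) = 0 ∨ law d F (upEv y c) = 1 := by
  refine zero_one (measurableSet_upEv y c) fun S hS ω => ?_
  rw [mem_upEv, mem_upEv]
  constructor
  · rintro ⟨q, hq, hf⟩
    obtain ⟨q', hq1, hq2⟩ := exists_rat_btwn hq
    refine ⟨q', hq1, ?_⟩
    set K := ∑ e ∈ hS.toFinset, (ω e : ℝ) with hK
    have hev : ∀ᶠ k : ℕ in atTop, K ≤ (k : ℝ) * (q - q') := by
      have : Tendsto (fun k : ℕ => (k : ℝ) * (q - q')) atTop atTop :=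
        tendsto_natCast_atTop_atTop.atTop_mul_const (sub_pos.mpr hq2)
      exact this.eventually_ge_atTop K
    refine (hf.and_eventually hev).mono fun k hk => ?_
    have h1 := T_le_zeroOn hS ω 0 (k • y)
    have h2 := hk.2
    have h3 := hk.1
    rw [mul_sub] at h2
    linarith
  · rintro ⟨q, hq, hf⟩
    exact ⟨q, hq, hf.mono fun k hk => hk.trans (T_zeroOn_le S ω 0 (k • y))⟩

lemma upEv_null (h1 : Integrable (fun x : ℝ≥0 => (x : ℝ)) F) (y : Fin d → ℤ) {c : ℝ}
    (hc : mean F y < c) : law d F (upEv y c) = 0 := by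
  rcases upEv_zero_one (F := F) y c with h | h
  · exact h
  exfalso
  have hc0 : 0 < c := (mean_nonneg y).trans_lt hc
  -- the events
  set E : ℕ → Set (Env d) := fun N => ⋃ n ∈ {n : ℕ | 1 ≤ n ∧ n ≤ N},
    {ω | c * n ≤ ∑ j ∈ Finset.range n, passageTime ω (j • y) ((j + 1) • y)} with hE
  have hEmeas : ∀ N, MeasurableSet (E N) := by
    intro N
    refine MeasurableSet.biUnion (Set.to_countable _) fun n _ => ?_
    exact measurableSet_le measurable_const
      (Finset.measurable_sum _ fun j _ => measurable_T _ _)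
  have hEmono : Monotone E := by
    intro N M hNM
    simp only [hE]
    refine Set.biUnion_subset_biUnion_left fun n hn => ?_
    exact ⟨hn.1, hn.2.trans hNM⟩
  have hsub : upEv y c ⊆ ⋃ N, E N := by
    intro ω hω
    rw [mem_upEv] at hω
    obtain ⟨q, hq, hf⟩ := hω
    obtain ⟨k, hk, hk1⟩ := (hf.and_eventually (eventually_ge_atTop 1)).exists
    simp only [Set.mem_iUnion, hE]
    refine ⟨k, k, ⟨hk1, le_rfl⟩, ?_⟩
    have hk0 : (0 : ℝ) < k := by exact_mod_cast hk1
    have h2 : passageTime ω 0 (k • y) ≤
        ∑ j ∈ Finset.range k, passageTime ω (j • y) ((j + 1) • y) := by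
      clear hk hk1 hk0
      induction k with
      | zero => simp [T_self]
      | succ k ih =>
        rw [Finset.sum_range_succ]
        exact (T_triangle ω 0 (k • y) _).trans (by gcongr)
    change c * k ≤ _
    have h3 : c * k ≤ k * q := by rw [mul_comm]; gcongr
    linarith
  have hone : law d F (⋃ N, E N) = 1 :=
    le_antisymm prob_le_one (h ▸ measure_mono hsub)
  have htend : Tendsto (fun N => (law d F).real (E N)) atTop (𝓝 1) := by
    have := tendsto_measure_iUnion_atTop (μ := law d F) hEmono
    rw [hone] at this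
    have h2 := (ENNReal.tendsto_toReal ENNReal.one_ne_top).comp this
    simpa [Measure.real, Function.comp_def] using h2
  -- the key inequality
  have key : ∀ N, c * (law d F).real (E N) ≤ mean F y := by
    intro N
    have hJ : ∀ J : ℕ, c * (J * (law d F).real (E N)) ≤ (J + N) * mean F y := by
      intro J
      set G : Env d → Set ℕ := fun ω => {k | shift (k • y) ω ∈ E N} with hG
      have hpt : ∀ ω : Env d, c * ∑ k ∈ Finset.range J,
          (G ω).indicator (fun _ => (1 : ℝ)) k ≤
            ∑ i ∈ Finset.range (J + N), passageTime ω (i • y) ((i + 1) • y) := by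
        intro ω
        refine cover1 (X := fun i => passageTime ω (i • y) ((i + 1) • y))
          (fun i => T_nonneg _ _ _) hc0.le ?_
        intro k hk _
        simp only [hG, hE, Set.mem_ofPred_eq, Set.mem_iUnion] at hk
        obtain ⟨n, ⟨hn1, hn2⟩, hn3⟩ := hk
        refine ⟨n, hn1, hn2, ?_⟩
        change c * n ≤ ∑ j ∈ Finset.range n, passageTime (shift (k • y) ω) (j • y) ((j + 1) • y)
          at hn3
        refine hn3.trans (le_of_eq ?_)
        refine Finset.sum_congr rfl fun j _ => ?_
        rw [T_shift]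
        congr 1
        · rw [add_smul, add_comm]
        · rw [← add_smul]; congr 1; omega
      have hind : ∀ k, (fun ω : Env d => (G ω).indicator (fun _ => (1 : ℝ)) k) =
          (shift (k • y) ⁻¹' (E N)).indicator (fun _ => (1 : ℝ)) := by
        intro k
        funext ω
        simp only [hG, Set.indicator, Set.mem_ofPred_eq, Set.mem_preimage]
        rfl
      have hmeask : ∀ k : ℕ, MeasurableSet (shift (k • y) ⁻¹' (E N)) := fun k =>
        (measurable_shift _) (hEmeas N)
      have hintk : ∀ k, Integrable (fun ω : Env d => (G ω).indicator (fun _ => (1 : ℝ)) k)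
          (law d F) := by
        intro k
        rw [hind k]
        exact (integrable_const (1 : ℝ)).indicator (hmeask k)
      have hik : ∀ k, ∫ ω : Env d, (G ω).indicator (fun _ => (1 : ℝ)) k ∂(law d F) =
          (law d F).real (E N) := by
        intro k
        rw [hind k, integral_indicator_const _ (hmeask k)]
        simp only [smul_eq_mul, mul_one]
        unfold Measure.real
        rw [(measurePreserving_shift (F := F) (k • y)).measure_preimage
          (hEmeas N).nullMeasurableSet]
      have hintegral := integral_mono (μ := law d F)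
        (((integrable_finsetSum _ fun k _ => hintk k).const_mul c))
        (integrable_finsetSum (Finset.range (J + N)) fun i _ =>
          integrable_T h1 (i • y) ((i + 1) • y)) hpt
      rw [integral_const_mul, integral_finsetSum _ fun k _ => hintk k,
        integral_finsetSum _ fun i _ => integrable_T h1 (i • y) ((i + 1) • y)] at hintegral
      rw [Finset.sum_congr rfl fun k _ => hik k, Finset.sum_const, Finset.card_range,
        nsmul_eq_mul] at hintegral
      refine hintegral.trans (le_of_eq ?_)
      rw [Finset.sum_congr rfl fun i _ => integral_T (F := F) (i • y) ((i + 1) • y)]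
      rw [Finset.sum_congr rfl (g := fun _ => mean F y), Finset.sum_const, Finset.card_range,
        nsmul_eq_mul]
      · push_cast; ring
      · intro i _
        congr 1
        rw [add_smul, one_smul, add_sub_cancel_left]
    have hlim1 : Tendsto (fun J : ℕ => ((J : ℝ) + N) / J * mean F y) atTop
        (𝓝 (1 * mean F y)) := by
      refine Tendsto.mul_const _ ?_
      have : Tendsto (fun J : ℕ => 1 + (N : ℝ) / J) atTop (𝓝 (1 + 0)) :=
        tendsto_const_nhds.add (tendsto_const_div_atTop_nhds_zero_nat _)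
      rw [add_zero] at this
      refine this.congr' ?_
      filter_upwards [eventually_gt_atTop 0] with J hJ0
      have : (J : ℝ) ≠ 0 := by positivity
      field_simp
    rw [one_mul] at hlim1
    refine ge_of_tendsto hlim1 ?_
    filter_upwards [eventually_gt_atTop 0] with J hJ0
    have hJ' : (0 : ℝ) < J := by positivity
    have := hJ J
    rw [div_mul_eq_mul_div, le_div_iff₀ hJ']
    linarith
  have hlim := (htend.const_mul c)
  have := le_of_tendsto' hlim key
  linarith

/-- `limsup T(0,ky)/k ≤ E T(0,y)` a.s. -/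
lemma ae_upper (h1 : Integrable (fun x : ℝ≥0 => (x : ℝ)) F) (y : Fin d → ℤ) {c : ℝ}
    (hc : mean F y < c) :
    ∀ᵐ ω ∂(law d F), ∀ᶠ k : ℕ in atTop, passageTime ω 0 (k • y) ≤ k * c := by
  obtain ⟨c', hc1, hc2⟩ := exists_between hc
  obtain ⟨q, hq1, hq2⟩ := exists_rat_btwn hc2
  have h := upEv_null h1 y hc1
  have h' : ∀ᵐ ω ∂(law d F), ω ∉ upEv y c' := by
    rw [ae_iff]; simpa using h
  filter_upwards [h'] with ω hω
  rw [mem_upEv] at hω
  push Not at hω
  filter_upwards [hω q hq1] with k hk
  have hk' : (k : ℝ) * q ≤ k * c := by gcongr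
  have hk2 := not_le.mp (not_le.mpr hk)
  linarith

/-! ### Lower bound -/

/-- The event `∃ q < c, ∃ᶠ n, T(0, n x) ≤ n q`. -/
def loEv (x : Fin d → ℤ) (c : ℝ) : Set (Env d) :=
  ⋃ q ∈ {q : ℚ | (q : ℝ) < c}, ⋂ N : ℕ, ⋃ k ∈ {k : ℕ | N ≤ k},
    {ω | passageTime ω 0 (k • x) ≤ (k : ℝ) * q}

lemma mem_loEv {x : Fin d → ℤ} {c : ℝ} {ω : Env d} :
    ω ∈ loEv x c ↔ ∃ q : ℚ, (q : ℝ) < c ∧
      ∃ᶠ k : ℕ in atTop, passageTime ω 0 (k • x) ≤ (k : ℝ) * q := by
  unfold loEv
  simp only [Set.mem_iUnion, Set.mem_iInter, Set.mem_ofPred_eq, exists_prop, frequently_atTop]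

lemma measurableSet_loEv (x : Fin d → ℤ) (c : ℝ) : MeasurableSet (loEv x c) := by
  unfold loEv
  refine MeasurableSet.biUnion (Set.to_countable _) fun q _ => ?_
  refine MeasurableSet.iInter fun N => ?_
  refine MeasurableSet.biUnion (Set.to_countable _) fun k _ => ?_
  exact measurableSet_le (measurable_T _ _) measurable_const

lemma loEv_zero_one (x : Fin d → ℤ) (c : ℝ) :
    law d F (loEv x c) = 0 ∨ law d F (loEv x c) = 1 := by
  refine zero_one (measurableSet_loEv x c) fun S hS ω => ?_
  rw [mem_loEv, mem_loEv]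
  constructor
  · rintro ⟨q, hq, hf⟩
    exact ⟨q, hq, hf.mono fun k hk => (T_zeroOn_le S ω 0 (k • x)).trans hk⟩
  · rintro ⟨q, hq, hf⟩
    obtain ⟨q', hq1, hq2⟩ := exists_rat_btwn hq
    refine ⟨q', hq2, ?_⟩
    set K := ∑ e ∈ hS.toFinset, (ω e : ℝ) with hK
    have hev : ∀ᶠ k : ℕ in atTop, K ≤ (k : ℝ) * (q' - q) := by
      have : Tendsto (fun k : ℕ => (k : ℝ) * ((q' : ℝ) - q)) atTop atTop :=
        tendsto_natCast_atTop_atTop.atTop_mul_const (sub_pos.mpr hq1)
      exact this.eventually_ge_atTop K
    refine (hf.and_eventually hev).mono fun k hk => ?_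
    have h1 := T_le_zeroOn hS ω 0 (k • x)
    have h2 := hk.2
    have h3 := hk.1
    rw [mul_sub] at h2
    linarith

lemma loEv_null (h1 : Integrable (fun x : ℝ≥0 => (x : ℝ)) F) (x : Fin d → ℤ) {c : ℝ}
    (hc : c < gz F x) : law d F (loEv x c) = 0 := by
  rcases loEv_zero_one (F := F) x c with h | h
  · exact h
  exfalso
  -- the events
  set D : ℕ → Set (Env d) := fun N => ⋃ n ∈ {n : ℕ | 1 ≤ n ∧ n ≤ N},
    {ω | passageTime ω 0 (n • x) ≤ c * n} with hD
  have hDmeas : ∀ N, MeasurableSet (D N) := by
    intro N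
    refine MeasurableSet.biUnion (Set.to_countable _) fun n _ => ?_
    exact measurableSet_le (measurable_T _ _) measurable_const
  have hDmono : Monotone D := by
    intro N M hNM
    simp only [hD]
    refine Set.biUnion_subset_biUnion_left fun n hn => ?_
    exact ⟨hn.1, hn.2.trans hNM⟩
  have hsub : loEv x c ⊆ ⋃ N, D N := by
    intro ω hω
    rw [mem_loEv] at hω
    obtain ⟨q, hq, hf⟩ := hω
    obtain ⟨k, hk, hk1⟩ := (hf.and_eventually (eventually_ge_atTop 1)).exists
    simp only [Set.mem_iUnion, hD]
    refine ⟨k, k, ⟨hk1, le_rfl⟩, ?_⟩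
    have hk0 : (0 : ℝ) < k := by exact_mod_cast hk1
    change passageTime ω 0 (k • x) ≤ c * k
    have h3 : (k : ℝ) * q ≤ c * k := by rw [mul_comm]; gcongr
    linarith
  have hone : law d F (⋃ N, D N) = 1 :=
    le_antisymm prob_le_one (h ▸ measure_mono hsub)
  have hc0 : 0 ≤ c := by
    have : (loEv x c).Nonempty := by
      by_contra hcon
      rw [Set.not_nonempty_iff_eq_empty] at hcon
      rw [hcon] at h
      simp at h
    obtain ⟨ω, hω⟩ := this
    rw [mem_loEv] at hω
    obtain ⟨q, hq, hf⟩ := hω
    obtain ⟨k, hk, hk1⟩ := (hf.and_eventually (eventually_ge_atTop 1)).exists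
    have hk0 : (0 : ℝ) < k := by exact_mod_cast hk1
    have h2 := T_nonneg ω 0 (k • x)
    have h3 : 0 ≤ (k : ℝ) * q := h2.trans hk
    have h4 : (0 : ℝ) ≤ q := nonneg_of_mul_nonneg_right h3 hk0
    linarith
  -- the remainder tends to 0
  have hrem : Tendsto (fun N => ∫ ω in (D N)ᶜ, passageTime ω 0 x ∂(law d F)) atTop (𝓝 0) := by
    have h2 := tendsto_setIntegral_of_antitone (μ := law d F) (s := fun N => (D N)ᶜ)
      (f := fun ω : Env d => passageTime ω 0 x) (fun N => (hDmeas N).compl)
      (fun N M hNM => Set.compl_subset_compl.mpr (hDmono hNM))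
      ⟨0, (integrable_T h1 0 x).integrableOn⟩
    have h3 : law d F (⋂ N, (D N)ᶜ) = 0 := by
      rw [← Set.compl_iUnion, prob_compl_eq_zero_iff (MeasurableSet.iUnion hDmeas)]
      exact hone
    rw [setIntegral_measure_zero _ h3] at h2
    exact h2
  -- the key inequality
  have key : ∀ N, gz F x ≤ c + ∫ ω in (D N)ᶜ, passageTime ω 0 x ∂(law d F) := by
    intro N
    set R := ∫ ω in (D N)ᶜ, passageTime ω 0 x ∂(law d F) with hR
    have hJ : ∀ J : ℕ, N ≤ J → mean F (J • x) ≤ c * J + J * R + N * mean F x := by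
      intro J hNJ
      set B : Env d → Set ℕ := fun ω => {k | shift (k • x) ω ∉ D N} with hB
      have hpt : ∀ ω : Env d, passageTime ω 0 (J • x) ≤ c * J +
          ∑ k ∈ Finset.Ico 0 J,
            (B ω).indicator (fun k => passageTime ω (k • x) ((k + 1) • x)) k +
          ∑ k ∈ Finset.Ico (J - N) J, passageTime ω (k • x) ((k + 1) • x) := by
        intro ω
        have := cover2 (τ := fun a b => passageTime ω (a • x) (b • x))
          (fun a b => T_nonneg _ _ _) (fun a => T_self _ _) (fun a b c => T_triangle _ _ _ _) hc0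
          (N := N) (J := J) (B := B ω) (by
            intro k hk
            simp only [hB, Set.mem_ofPred_eq, not_not, hD, Set.mem_iUnion] at hk
            obtain ⟨n, ⟨hn1, hn2⟩, hn3⟩ := hk
            refine ⟨n, hn1, hn2, ?_⟩
            change passageTime (shift (k • x) ω) 0 (n • x) ≤ c * n at hn3
            refine (le_of_eq ?_).trans hn3
            rw [T_shift, zero_add, ← add_smul, add_comm]) J 0 (by omega)
        simpa using this
      have hind : ∀ k, (fun ω : Env d =>
          (B ω).indicator (fun k => passageTime ω (k • x) ((k + 1) • x)) k) =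
          fun ω => ((D N)ᶜ.indicator (fun ω : Env d => passageTime ω 0 x)) (shift (k • x) ω) := by
        intro k
        funext ω
        simp only [hB, Set.indicator, Set.mem_ofPred_eq, Set.mem_compl_iff]
        split_ifs with h1 h2 h2
        · rw [T_shift, zero_add, add_smul, one_smul, add_comm x]
        · exact absurd h1 h2
        · exact absurd h2 h1
        · rfl
      have hmeas : Measurable ((D N)ᶜ.indicator (fun ω : Env d => passageTime ω 0 x)) :=
        (measurable_T _ _).indicator (hDmeas N).compl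
      have hintk : ∀ k, Integrable (fun ω : Env d =>
          (B ω).indicator (fun k => passageTime ω (k • x) ((k + 1) • x)) k) (law d F) := by
        intro k
        rw [hind k]
        exact (measurePreserving_shift (F := F) (k • x)).integrable_comp_of_integrable
          ((integrable_T h1 0 x).indicator (hDmeas N).compl)
      have hik : ∀ k, ∫ ω : Env d, (B ω).indicator
          (fun k => passageTime ω (k • x) ((k + 1) • x)) k ∂(law d F) = R := by
        intro k
        rw [hind k, integral_shift (k • x) hmeas, hR, integral_indicator (hDmeas N).compl]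
      have hTk : ∀ k : ℕ, ∫ ω : Env d, passageTime ω (k • x) ((k + 1) • x) ∂(law d F) =
          mean F x := by
        intro k
        rw [integral_T]; congr 1; rw [add_smul, one_smul, add_sub_cancel_left]
      have hI1 : Integrable (fun ω : Env d => ∑ k ∈ Finset.Ico 0 J,
            (B ω).indicator (fun k => passageTime ω (k • x) ((k + 1) • x)) k) (law d F) :=
        integrable_finsetSum _ fun k _ => hintk k
      have hI2 : Integrable (fun ω : Env d => ∑ k ∈ Finset.Ico (J - N) J,
            passageTime ω (k • x) ((k + 1) • x)) (law d F) :=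
        integrable_finsetSum _ fun k _ => integrable_T h1 _ _
      have hintegral := integral_mono (μ := law d F) (integrable_T h1 0 (J • x))
        (((integrable_const (c * J)).add hI1).add hI2) hpt
      change mean F (J • x) ≤ _ at hintegral
      refine hintegral.trans (le_of_eq ?_)
      rw [integral_add' ((integrable_const (c * J)).add hI1) hI2,
        integral_add' (integrable_const (c * J)) hI1,
        integral_finsetSum _ fun k _ => hintk k,
        integral_finsetSum _ fun k _ => integrable_T h1 _ _,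
        Finset.sum_congr rfl fun k _ => hik k, Finset.sum_congr rfl fun k _ => hTk k]
      simp only [integral_const, probReal_univ, one_smul, Finset.sum_const, Nat.card_Ico,
        nsmul_eq_mul, Nat.sub_zero]
      have : ((J - (J - N) : ℕ) : ℝ) = N := by
        congr 1; omega
      rw [this]
    have hlim1 : Tendsto (fun J : ℕ => c + R + N * mean F x / J) atTop (𝓝 (c + R + 0)) :=
      tendsto_const_nhds.add (tendsto_const_div_atTop_nhds_zero_nat _)
    rw [add_zero] at hlim1
    refine ge_of_tendsto hlim1 ?_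
    filter_upwards [eventually_gt_atTop 0, eventually_ge_atTop N] with J hJ0 hJN
    have hJ' : (0 : ℝ) < J := by positivity
    refine (gz_le_div h1 x hJ0.ne').trans ?_
    rw [div_le_iff₀ hJ']
    refine (hJ J hJN).trans (le_of_eq ?_)
    field_simp
  have hlim := tendsto_const_nhds (x := c) |>.add hrem
  rw [add_zero] at hlim
  have := ge_of_tendsto' hlim key
  linarith

/-- `liminf T(0,kx)/k ≥ g(x)` a.s. -/
lemma ae_lower (h1 : Integrable (fun x : ℝ≥0 => (x : ℝ)) F) (x : Fin d → ℤ) {c : ℝ}
    (hc : c < gz F x) :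
    ∀ᵐ ω ∂(law d F), ∀ᶠ k : ℕ in atTop, k * c ≤ passageTime ω 0 (k • x) := by
  obtain ⟨c', hc1, hc2⟩ := exists_between hc
  obtain ⟨q, hq1, hq2⟩ := exists_rat_btwn hc1
  have h := loEv_null h1 x hc2
  have h' : ∀ᵐ ω ∂(law d F), ω ∉ loEv x c' := by
    rw [ae_iff]; simpa using h
  filter_upwards [h'] with ω hω
  rw [mem_loEv] at hω
  push Not at hω
  filter_upwards [hω q hq2] with k hk
  have hk' : (k : ℝ) * c ≤ k * q := by gcongr
  linarith

end Pool.Agent.H55.FPP
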