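import Pool.Agent.H55.FPP.Walks

/-!
# First-passage percolation: the law of the environment
-/

open MeasureTheory Filter ProbabilityTheory
open scoped NNReal Topology

namespace Pool.Agent.H55.FPP

variable {d : ℕ} {F : Measure ℝ≥0} [IsProbabilityMeasure F]

instance : IsProbabilityMeasure (law d F) := by
  unfold law; infer_instance

lemma measurePreserving_shift (z : Fin d → ℤ) :
    MeasurePreserving (shift z) (law d F) (law d F) where
  measurable := measurable_shift z
  map_eq := by
    unfold law shift
    exact Measure.map_infinitePi_infinitePi_of_inj (P := fun _ => F) (trE_injective z)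

lemma measurePreserving_eval (e : Sym2 (Fin d → ℤ)) :
    MeasurePreserving (fun ω : Env d => ω e) (law d F) F :=
  measurePreserving_eval_infinitePi (fun _ => F) e

lemma iIndepFun_weights :
    iIndepFun (fun (e : Sym2 (Fin d → ℤ)) (ω : Env d) => (ω e : ℝ)) (law d F) := by
  unfold law
  exact iIndepFun_infinitePi (P := fun _ : Sym2 (Fin d → ℤ) => F)
    (X := fun _ (x : ℝ≥0) => (x : ℝ)) (fun _ => measurable_coe_nnreal_real)

lemma iIndepFun_eval :
    iIndepFun (fun (e : Sym2 (Fin d → ℤ)) (ω : Env d) => ω e) (law d F) := by
  unfold law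
  exact iIndepFun_infinitePi (P := fun _ : Sym2 (Fin d → ℤ) => F)
    (X := fun _ (x : ℝ≥0) => x) (fun _ => measurable_id)

open scoped Classical in
/-- Set the weights of the edges of `S` to `0`. -/
noncomputable def zeroOn (S : Set (Sym2 (Fin d → ℤ))) (ω : Env d) : Env d :=
  fun e => if e ∈ S then 0 else ω e

/-- Zero-one law: an event that does not depend on any finite set of weights is trivial. -/
lemma zero_one {A : Set (Env d)} (hA : MeasurableSet A)
    (hinv : ∀ S : Set (Sym2 (Fin d → ℤ)), S.Finite → ∀ ω, ω ∈ A ↔ zeroOn S ω ∈ A) :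
    law d F A = 0 ∨ law d F A = 1 := by
  have hind : iIndep (fun e : Sym2 (Fin d → ℤ) =>
      MeasurableSpace.comap (fun ω : Env d => ω e) inferInstance) (law d F) := iIndepFun_eval
  refine measure_zero_or_one_of_measurableSet_limsup (s := fun e : Sym2 (Fin d → ℤ) =>
      MeasurableSpace.comap (fun ω : Env d => ω e) inferInstance) (f := cofinite)
      (p := Set.Finite) (ns := fun S : Finset (Sym2 (Fin d → ℤ)) => (S : Set _)) ?_ hind ?_ ?_ ?_ ?_ ?_
  · intro e
    rw [← measurable_iff_comap_le]
    exact measurable_pi_apply e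
  · intro t ht
    exact ht.compl_mem_cofinite
  · intro S S'
    exact ⟨S ∪ S', by simp, by simp⟩
  · intro S; exact S.finite_toSet
  · intro e; exact ⟨{e}, by simp⟩
  · rw [limsup_eq_iInf_iSup, MeasurableSpace.measurableSet_iInf]
    intro s
    rw [MeasurableSpace.measurableSet_iInf]
    intro hs
    have hfin : (sᶜ).Finite := hs
    have hAeq : A = zeroOn sᶜ ⁻¹' A := by
      ext ω
      exact hinv sᶜ hfin ω
    rw [hAeq]
    have hmeas : Measurable[⨆ a ∈ s, MeasurableSpace.comap (fun ω : Env d => ω a) inferInstance]
        (zeroOn sᶜ : Env d → Env d) := by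
      refine @measurable_pi_lambda _ _ _ (_) _ _ fun e => ?_
      unfold zeroOn
      by_cases he : e ∈ sᶜ
      · simp only [if_pos he]
        exact @measurable_const _ _ _ (_) _
      · simp only [if_neg he]
        have he' : e ∈ s := by simpa using he
        rw [measurable_iff_comap_le]
        exact le_iSup₂_of_le e he' le_rfl
    exact hmeas hA

end Pool.Agent.H55.FPP
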