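import Pool.Agent.H55.FPP.Shape

/-!
# First-passage percolation: one level of the multiscale argument
-/

open MeasureTheory Filter ProbabilityTheory
open scoped NNReal Topology

namespace Pool.Agent.H55.FPP

variable {d : ℕ} {F : Measure ℝ≥0} [IsProbabilityMeasure F]

lemma gz_pos {β : ℝ} (hβ : 0 < β)
    (hint : Integrable (fun x : ℝ≥0 => Real.exp (β * x)) F) [NullSingletonClass F] :
    ∃ c : ℝ, 0 < c ∧ ∀ x : Fin d → ℤ, c * n1 x ≤ gz F x := by
  have h1 := integrable_coe hβ hint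
  obtain ⟨c, hc, hslow⟩ := ae_slowFrom (d := d) (F := F)
  refine ⟨c, hc, fun x => ?_⟩
  rcases Nat.eq_zero_or_pos (n1 x) with h0 | hpos
  · rw [h0]; simpa using gz_nonneg h1 x
  refine le_of_forall_pos_le_add fun ε hε => ?_
  have hpos' : (0 : ℝ) < n1 x := by exact_mod_cast hpos
  obtain ⟨ω, hω1, hω2⟩ := ((shape_upper hβ hint (ε := ε / n1 x) (div_pos hε hpos')).and
    (hslow.mono fun ω h => h 0)).exists
  obtain ⟨K, hK⟩ := hω1
  obtain ⟨n₀, hn₀⟩ := T_ge_of_slow hω2 hc.le
  set k := K + n₀ + 1 with hk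
  have hk0 : (0 : ℝ) < k := by positivity
  have hn : n1 (k • x) = k * n1 x := by
    have := n1_smul k x
    rwa [natCast_zsmul] at this
  have hkn : k ≤ k * n1 x := Nat.le_mul_of_pos_right _ hpos
  have h2 := hK (k • x) (by rw [hn]; omega)
  have h3 := hn₀ (k • x) (by rw [zero_sub, n1_neg, hn]; omega)
  rw [zero_sub, n1_neg, hn] at h3
  rw [hn, gz_nsmul h1] at h2
  push_cast at h2 h3
  have h4 : ε / n1 x * (k * n1 x) = k * ε := by field_simp
  rw [h4] at h2
  have h5 : (k : ℝ) * (c * n1 x) ≤ k * (gz F x + ε) := by nlinarith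
  exact le_of_mul_le_mul_left h5 hk0

/-- upper-good environments -/
def UG (F : Measure ℝ≥0) (d : ℕ) (ε : ℝ) (K : ℕ) : Set (Env d) :=
  {ω | ∀ y, passageTime ω 0 y ≤ gz F y + ε * n1 y + K}

/-- lower-good environments -/
def LG (F : Measure ℝ≥0) (d : ℕ) (ε : ℝ) (K : ℕ) : Set (Env d) :=
  {ω | ∀ y, gz F y - ε * n1 y - K ≤ passageTime ω 0 y}

omit [IsProbabilityMeasure F] in
lemma measurableSet_UG (ε : ℝ) (K : ℕ) : MeasurableSet (UG F d ε K) := by
  have : UG F d ε K = ⋂ y, {ω | passageTime ω 0 y ≤ gz F y + ε * n1 y + K} := by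
    ext ω; simp [UG]
  rw [this]
  exact MeasurableSet.iInter fun y => measurableSet_le (measurable_T _ _) measurable_const

omit [IsProbabilityMeasure F] in
lemma measurableSet_LG (ε : ℝ) (K : ℕ) : MeasurableSet (LG F d ε K) := by
  have : LG F d ε K = ⋂ y, {ω | gz F y - ε * n1 y - K ≤ passageTime ω 0 y} := by
    ext ω; simp [LG]
  rw [this]
  exact MeasurableSet.iInter fun y => measurableSet_le measurable_const (measurable_T _ _)

lemma finite_n1_lt (K : ℕ) : {v : Fin d → ℤ | n1 v < K}.Finite :=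
  (box d K).finite_toSet.subset fun _ hv => mem_box (le_of_lt hv)

lemma exists_UG {β : ℝ} (hβ : 0 < β)
    (hint : Integrable (fun x : ℝ≥0 => Real.exp (β * x)) F) {ε : ℝ} (hε : 0 < ε) {δ : ℝ}
    (hδ : 0 < δ) : ∃ K : ℕ, (law d F).real (UG F d ε K)ᶜ ≤ δ := by
  have h1 := integrable_coe hβ hint
  have hmono : Antitone fun K : ℕ => (UG F d ε K)ᶜ := by
    intro K K' hK
    apply Set.compl_subset_compl.mpr
    intro ω hω y
    have : (K : ℝ) ≤ K' := by exact_mod_cast hK
    exact (hω y).trans (by gcongr)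
  have hnull : law d F (⋂ K, (UG F d ε K)ᶜ) = 0 := by
    have h := shape_upper (d := d) hβ hint hε
    rw [ae_iff] at h
    refine measure_mono_null ?_ h
    intro ω hω
    rw [Set.mem_iInter] at hω
    change ¬ _
    rintro ⟨K, hK⟩
    obtain ⟨C, hC⟩ := ((finite_n1_lt (d := d) K).image fun v => passageTime ω 0 v).bddAbove
    obtain ⟨N, hN⟩ := exists_nat_ge C
    apply hω N
    intro y
    have hg := gz_nonneg h1 y
    have hn : 0 ≤ ε * n1 y := by positivity
    by_cases hy : K ≤ n1 y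
    · have := hK y hy
      have hN0 : (0 : ℝ) ≤ N := Nat.cast_nonneg _
      linarith
    · push Not at hy
      have := hC ⟨y, hy, rfl⟩
      simp only at this
      linarith
  have ht := tendsto_measure_iInter_atTop (μ := law d F) (s := fun K : ℕ => (UG F d ε K)ᶜ)
    (fun K => (measurableSet_UG ε K).compl.nullMeasurableSet) hmono ⟨0, measure_ne_top _ _⟩
  rw [hnull] at ht
  have ht2 : Tendsto (fun K : ℕ => (law d F).real (UG F d ε K)ᶜ) atTop (𝓝 0) := by
    have := (ENNReal.tendsto_toReal ENNReal.zero_ne_top).comp ht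
    simpa [Measure.real, Function.comp_def] using this
  obtain ⟨K, hK⟩ := (ht2.eventually_le_const hδ).exists
  exact ⟨K, hK⟩

lemma exists_LG {β : ℝ} (hβ : 0 < β)
    (hint : Integrable (fun x : ℝ≥0 => Real.exp (β * x)) F) {ε : ℝ} (hε : 0 < ε) {δ : ℝ}
    (hδ : 0 < δ) : ∃ K : ℕ, (law d F).real (LG F d ε K)ᶜ ≤ δ := by
  have h1 := integrable_coe hβ hint
  have hmu := mu1_nonneg (F := F)
  have hmono : Antitone fun K : ℕ => (LG F d ε K)ᶜ := by
    intro K K' hK
    apply Set.compl_subset_compl.mpr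
    intro ω hω y
    have : (K : ℝ) ≤ K' := by exact_mod_cast hK
    have := hω y
    linarith
  have hnull : law d F (⋂ K, (LG F d ε K)ᶜ) = 0 := by
    have h := shape_lower (d := d) hβ hint hε
    rw [ae_iff] at h
    refine measure_mono_null ?_ h
    intro ω hω
    rw [Set.mem_iInter] at hω
    change ¬ _
    rintro ⟨K, hK⟩
    obtain ⟨N, hN⟩ := exists_nat_ge (mu1 F * K)
    apply hω N
    intro y
    have hn : 0 ≤ ε * n1 y := by positivity
    by_cases hy : K ≤ n1 y
    · have := hK y hy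
      have hN0 : (0 : ℝ) ≤ N := Nat.cast_nonneg _
      linarith
    · push Not at hy
      have h2 := gz_le h1 y
      have h3 : mu1 F * n1 y ≤ mu1 F * K := by
        have : (n1 y : ℝ) ≤ K := by exact_mod_cast hy.le
        gcongr
      have := T_nonneg ω 0 y
      linarith
  have ht := tendsto_measure_iInter_atTop (μ := law d F) (s := fun K : ℕ => (LG F d ε K)ᶜ)
    (fun K => (measurableSet_LG ε K).compl.nullMeasurableSet) hmono ⟨0, measure_ne_top _ _⟩
  rw [hnull] at ht
  have ht2 : Tendsto (fun K : ℕ => (law d F).real (LG F d ε K)ᶜ) atTop (𝓝 0) := by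
    have := (ENNReal.tendsto_toReal ENNReal.zero_ne_top).comp ht
    simpa [Measure.real, Function.comp_def] using this
  obtain ⟨K, hK⟩ := (ht2.eventually_le_const hδ).exists
  exact ⟨K, hK⟩

/-- mean passage times in the direction `θ` -/
lemma exists_L (h1 : Integrable (fun x : ℝ≥0 => (x : ℝ)) F) (θ : Fin d → ℝ) {ε : ℝ}
    (hε : 0 < ε) (L₀ : ℕ) : ∃ L : ℕ, L₀ ≤ L ∧ 0 < L ∧ mean F (fl L θ) ≤ L * (G F θ + ε) := by
  have hmu := mu1_nonneg (F := F)
  obtain ⟨M, hM⟩ := exists_nat_gt ((3 * (mu1 F * d) + 1) / ε)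
  rw [div_lt_iff₀ hε] at hM
  have hM0 : 0 < M := by
    have h2 : (0 : ℝ) < M * ε := lt_trans (by positivity) hM
    have h3 : (0 : ℝ) < M := pos_of_mul_pos_left h2 hε.le
    exact_mod_cast h3
  have h2 := (tendsto_gz h1 (fl M θ)).eventually_lt_const (lt_add_one (gz F (fl M θ)))
  obtain ⟨k, hk, hk1⟩ := (h2.and (eventually_ge_atTop (L₀ + 1))).exists
  refine ⟨k * M, ?_, Nat.mul_pos (by omega) hM0, ?_⟩
  · calc L₀ ≤ k := by omega
      _ ≤ k * M := Nat.le_mul_of_pos_right _ hM0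
  have hk0 : (0 : ℝ) < k := by
    have : 0 < k := by omega
    exact_mod_cast this
  rw [div_lt_iff₀ hk0] at hk
  -- compare `fl (kM) θ` and `k • fl M θ`
  have h3 : mean F (fl (k * M) θ) ≤ mean F (k • fl M θ) + mean F (fl (k * M) θ - k • fl M θ) := by
    have := mean_add_le h1 (k • fl M θ) (fl (k * M) θ - k • fl M θ)
    rwa [add_sub_cancel] at this
  have h4 := mean_le h1 (fl (k * M) θ - k • fl M θ)
  have h5 : (n1 (fl (k * M) θ - k • fl M θ) : ℝ) ≤ d * (k + 1) := by
    rw [← nr_toReal, toReal_sub, toReal_nsmul]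
    have e : toReal (fl (k * M) θ) - (k : ℝ) • toReal (fl M θ) =
        (toReal (fl (k * M) θ) - ((k * M : ℕ) : ℝ) • θ) +
          -((k : ℝ) • (toReal (fl M θ) - (M : ℝ) • θ)) := by
      funext i
      simp only [Pi.sub_apply, Pi.smul_apply, Pi.add_apply, Pi.neg_apply, smul_eq_mul]
      push_cast
      ring
    rw [e]
    refine (nr_add_le _ _).trans ?_
    rw [nr_neg, nr_smul, Nat.abs_cast]
    have a := nr_fl_sub (k * M) θ
    have b := nr_fl_sub M θ
    have b' : (k : ℝ) * nr (toReal (fl M θ) - (M : ℝ) • θ) ≤ k * d := by gcongr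
    linarith
  have h6 := (abs_le.mp (G_approx h1 θ M)).2
  have h7 : (n1 (fl (k * M) θ - k • fl M θ) : ℝ) * mu1 F ≤ d * (k + 1) * mu1 F := by gcongr
  have h8 : (k : ℝ) * (gz F (fl M θ)) ≤ k * (M * G F θ + mu1 F * d) := by
    gcongr; linarith
  have hk1' : (1 : ℝ) ≤ k := by
    have : 1 ≤ k := by omega
    exact_mod_cast this
  have h9 : (k : ℝ) * (3 * (mu1 F * d) + 1) ≤ k * (M * ε) := by gcongr
  have hmd : 0 ≤ mu1 F * d := by positivity
  push_cast
  nlinarith

end Pool.Agent.H55.FPP
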