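import Pool.Agent.H55.FPP.Level

/-!
# First-passage percolation: the level lemma
-/

open MeasureTheory Filter ProbabilityTheory
open scoped NNReal Topology

namespace Pool.Agent.H55.FPP

variable {d : ℕ} {F : Measure ℝ≥0} [IsProbabilityMeasure F]

/-- the base points -/
noncomputable def pt (θ : Fin d → ℝ) (i : ℕ) : Fin d → ℤ := fl i (-θ)

/-- the defect of the step from `pt (i+L)` to `pt i` with respect to the target `0` -/
noncomputable def Xd (θ : Fin d → ℝ) (L i : ℕ) (ω : Env d) : ℝ :=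
  passageTime ω (pt θ (i + L)) (pt θ i) + passageTime ω (pt θ i) 0 -
    passageTime ω (pt θ (i + L)) 0

lemma Xd_nonneg (θ : Fin d → ℝ) (L i : ℕ) (ω : Env d) : 0 ≤ Xd θ L i ω := by
  unfold Xd
  have := T_triangle ω (pt θ (i + L)) (pt θ i) 0
  linarith

lemma sum_Xd (θ : Fin d → ℝ) (L i : ℕ) (ω : Env d) (n : ℕ) :
    passageTime ω (pt θ (i + n * L)) (pt θ i) + passageTime ω (pt θ i) 0 -
      passageTime ω (pt θ (i + n * L)) 0 ≤ ∑ j ∈ Finset.range n, Xd θ L (i + j * L) ω := by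
  induction n with
  | zero => simp [T_self]
  | succ n ih =>
    rw [Finset.sum_range_succ]
    have e : i + (n + 1) * L = i + n * L + L := by ring
    rw [e]
    have h1 : Xd θ L (i + n * L) ω = passageTime ω (pt θ (i + n * L + L)) (pt θ (i + n * L)) +
        passageTime ω (pt θ (i + n * L)) 0 - passageTime ω (pt θ (i + n * L + L)) 0 := rfl
    rw [h1]
    have h2 := T_triangle ω (pt θ (i + n * L + L)) (pt θ (i + n * L)) (pt θ i)
    linarith

lemma measurable_Xd (θ : Fin d → ℝ) (L i : ℕ) : Measurable (Xd θ L i) := by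
  unfold Xd
  exact ((measurable_T _ _).add (measurable_T _ _)).sub (measurable_T _ _)

lemma integrable_Xd (h1 : Integrable (fun x : ℝ≥0 => (x : ℝ)) F) (θ : Fin d → ℝ) (L i : ℕ) :
    Integrable (Xd θ L i) (law d F) := by
  unfold Xd
  exact ((integrable_T h1 _ _).add (integrable_T h1 _ _)).sub (integrable_T h1 _ _)

lemma integral_Xd (h1 : Integrable (fun x : ℝ≥0 => (x : ℝ)) F) (θ : Fin d → ℝ) (L i : ℕ) :
    ∫ ω, Xd θ L i ω ∂(law d F) = mean F (pt θ i - pt θ (i + L)) + mean F (-pt θ i) -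
      mean F (-pt θ (i + L)) := by
  unfold Xd
  have hI : Integrable (fun ω : Env d => passageTime ω (pt θ (i + L)) (pt θ i) +
      passageTime ω (pt θ i) 0) (law d F) := (integrable_T h1 _ _).add (integrable_T h1 _ _)
  rw [integral_sub hI (integrable_T h1 _ _),
    integral_add (integrable_T h1 _ _) (integrable_T h1 _ _), integral_T, integral_T, integral_T,
    zero_sub, zero_sub]

lemma nr_pt (θ : Fin d → ℝ) (i : ℕ) : nr (toReal (pt θ i) + (i : ℝ) • θ) ≤ d := by
  have := nr_fl_sub i (-θ)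
  rw [smul_neg, sub_neg_eq_add] at this
  exact this

lemma mean_step_le (h1 : Integrable (fun x : ℝ≥0 => (x : ℝ)) F) (θ : Fin d → ℝ) (L i : ℕ) :
    mean F (pt θ i - pt θ (i + L)) ≤ mean F (fl L θ) + 3 * (mu1 F * d) := by
  have hmu := mu1_nonneg (F := F)
  have h2 := mean_add_le h1 (fl L θ) (pt θ i - pt θ (i + L) - fl L θ)
  rw [add_sub_cancel] at h2
  have h3 := mean_le h1 (pt θ i - pt θ (i + L) - fl L θ)
  have h4 : (n1 (pt θ i - pt θ (i + L) - fl L θ) : ℝ) ≤ 3 * d := by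
    rw [← nr_toReal, toReal_sub, toReal_sub]
    have e : toReal (pt θ i) - toReal (pt θ (i + L)) - toReal (fl L θ) =
        (toReal (pt θ i) + (i : ℝ) • θ) + -(toReal (pt θ (i + L)) + ((i + L : ℕ) : ℝ) • θ) +
          -(toReal (fl L θ) - (L : ℝ) • θ) := by
      funext j
      simp only [Pi.sub_apply, Pi.smul_apply, Pi.add_apply, Pi.neg_apply, smul_eq_mul]
      push_cast
      ring
    rw [e]
    refine (nr_add_le _ _).trans ?_
    have h6 := nr_add_le (toReal (pt θ i) + (i : ℝ) • θ)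
      (-(toReal (pt θ (i + L)) + ((i + L : ℕ) : ℝ) • θ))
    rw [nr_neg] at h6 ⊢
    have := nr_pt θ i
    have := nr_pt θ (i + L)
    have := nr_fl_sub L θ
    linarith
  have h7 : (n1 (pt θ i - pt θ (i + L) - fl L θ) : ℝ) * mu1 F ≤ 3 * d * mu1 F := by gcongr
  linarith

lemma mean_pt_ge (h1 : Integrable (fun x : ℝ≥0 => (x : ℝ)) F) (θ : Fin d → ℝ) (i : ℕ) :
    i * G F θ - mu1 F * d ≤ mean F (-pt θ i) := by
  have h2 := gz_le_mean h1 (-pt θ i)
  rw [gz_neg] at h2
  have h3 := (abs_le.mp (G_approx h1 (-θ) i)).1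
  rw [G_neg h1] at h3
  change -(mu1 F * d) ≤ gz F (pt θ i) - _ at h3
  linarith

lemma n1_pt_le (θ : Fin d → ℝ) (i : ℕ) : (n1 (pt θ i) : ℝ) ≤ i * nr θ + d := by
  rw [← nr_toReal]
  have h := nr_add_le (toReal (pt θ i) + (i : ℝ) • θ) (-((i : ℝ) • θ))
  rw [nr_neg, nr_smul, Nat.abs_cast, add_neg_cancel_right] at h
  have := nr_pt θ i
  linarith

lemma mean_pt_le (h1 : Integrable (fun x : ℝ≥0 => (x : ℝ)) F) (θ : Fin d → ℝ) {i L : ℕ}
    (hi : i ≤ L) : mean F (-pt θ i) ≤ (L * nr θ + d) * mu1 F := by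
  have hmu := mu1_nonneg (F := F)
  have h2 := mean_le h1 (-pt θ i)
  rw [n1_neg] at h2
  have h3 := n1_pt_le θ i
  have h4 : (i : ℝ) * nr θ ≤ L * nr θ := by
    have := nr_nonneg θ
    gcongr
  have h5 : (n1 (pt θ i) : ℝ) * mu1 F ≤ (L * nr θ + d) * mu1 F := by
    gcongr; linarith
  linarith

lemma integral_sum_Xd_le (h1 : Integrable (fun x : ℝ≥0 => (x : ℝ)) F) (θ : Fin d → ℝ) {L : ℕ}
    {ε : ℝ} (hL : mean F (fl L θ) ≤ L * (G F θ + ε)) (hL2 : 3 * (mu1 F * d) ≤ ε * L) (W : ℕ) :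
    ∑ i ∈ Finset.range W, ∫ ω, Xd θ L i ω ∂(law d F) ≤
      2 * (W * (ε * L)) + L * ((L * nr θ + d) * mu1 F + mu1 F * d) := by
  rw [Finset.sum_congr rfl fun i _ => integral_Xd h1 θ L i, Finset.sum_sub_distrib,
    Finset.sum_add_distrib]
  have h2 : ∑ i ∈ Finset.range W, mean F (pt θ i - pt θ (i + L)) ≤
      W * (L * (G F θ + ε) + ε * L) := by
    calc _ ≤ ∑ _i ∈ Finset.range W, (L * (G F θ + ε) + ε * L) :=
          Finset.sum_le_sum fun i _ => (mean_step_le h1 θ L i).trans (by linarith)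
      _ = _ := by rw [Finset.sum_const, Finset.card_range, nsmul_eq_mul]
  have h3 : ∑ i ∈ Finset.range W, mean F (-pt θ i) -
      ∑ i ∈ Finset.range W, mean F (-pt θ (i + L)) =
      ∑ i ∈ Finset.range L, mean F (-pt θ i) - ∑ i ∈ Finset.range L, mean F (-pt θ (W + i)) := by
    have a := Finset.sum_range_add (fun i => mean F (-pt θ i)) L W
    have b := Finset.sum_range_add (fun i => mean F (-pt θ i)) W L
    rw [add_comm L W, b] at a
    have c : ∑ i ∈ Finset.range W, mean F (-pt θ (i + L)) =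
        ∑ i ∈ Finset.range W, mean F (-pt θ (L + i)) :=
      Finset.sum_congr rfl fun i _ => by rw [add_comm]
    rw [c]
    linarith
  have h4 : ∑ i ∈ Finset.range L, mean F (-pt θ i) ≤ L * ((L * nr θ + d) * mu1 F) := by
    calc _ ≤ ∑ _i ∈ Finset.range L, ((L * nr θ + d) * mu1 F) :=
          Finset.sum_le_sum fun i hi => mean_pt_le h1 θ (Finset.mem_range.mp hi).le
      _ = _ := by rw [Finset.sum_const, Finset.card_range, nsmul_eq_mul]
  have h5 : L * (W * G F θ - mu1 F * d) ≤ ∑ i ∈ Finset.range L, mean F (-pt θ (W + i)) := by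
    calc L * (W * G F θ - mu1 F * d) = ∑ _i ∈ Finset.range L, (W * G F θ - mu1 F * d) := by
          rw [Finset.sum_const, Finset.card_range, nsmul_eq_mul]
      _ ≤ _ := Finset.sum_le_sum fun i _ => by
          refine le_trans ?_ (mean_pt_ge h1 θ (W + i))
          push_cast
          have h6 : 0 ≤ (i : ℝ) * G F θ := mul_nonneg (Nat.cast_nonneg _) (G_nonneg h1 θ)
          linarith
  have h6 : ∑ i ∈ Finset.range W, mean F (pt θ i - pt θ (i + L)) +
      ∑ i ∈ Finset.range W, mean F (-pt θ i) - ∑ i ∈ Finset.range W, mean F (-pt θ (i + L)) =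
      ∑ i ∈ Finset.range W, mean F (pt θ i - pt θ (i + L)) +
      (∑ i ∈ Finset.range W, mean F (-pt θ i) -
        ∑ i ∈ Finset.range W, mean F (-pt θ (i + L))) := by ring
  rw [h6, h3]
  nlinarith

/-- the weighted defect -/
noncomputable def Yd (F : Measure ℝ≥0) (θ : Fin d → ℝ) (L : ℕ) (ε : ℝ) (K i : ℕ)
    (ω : Env d) : ℝ :=
  Xd θ L i ω / (ε * L) + 2 * (shift (pt θ (i + L)) ⁻¹' (UG F d ε K)ᶜ).indicator (fun _ => (1 : ℝ)) ω

/-- the bad event at the base point `pt i` -/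
def Bad (F : Measure ℝ≥0) (θ : Fin d → ℝ) (L : ℕ) (ε : ℝ) (K N i : ℕ) : Set (Env d) :=
  (⋃ n ∈ {n : ℕ | 1 ≤ n ∧ n ≤ N}, {ω | (n : ℝ) ≤ ∑ j ∈ Finset.range n, Yd F θ L ε K (i + j * L) ω})
    ∪ shift (pt θ i) ⁻¹' (LG F d ε K)ᶜ

omit [IsProbabilityMeasure F] in
lemma measurable_Yd (θ : Fin d → ℝ) (L : ℕ) (ε : ℝ) (K i : ℕ) :
    Measurable (Yd F θ L ε K i) := by
  unfold Yd
  refine ((measurable_Xd θ L i).div_const _).add (Measurable.const_mul ?_ _)
  exact measurable_const.indicator ((measurable_shift _) (measurableSet_UG ε K).compl)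

omit [IsProbabilityMeasure F] in
lemma Yd_nonneg (θ : Fin d → ℝ) (L : ℕ) {ε : ℝ} (hε : 0 ≤ ε) (K i : ℕ) (ω : Env d) :
    0 ≤ Yd F θ L ε K i ω := by
  unfold Yd
  have h1 := Xd_nonneg θ L i ω
  have h2 : 0 ≤ (shift (pt θ (i + L)) ⁻¹' (UG F d ε K)ᶜ).indicator (fun _ => (1 : ℝ)) ω :=
    Set.indicator_nonneg (fun _ _ => zero_le_one) _
  positivity

lemma integrable_Yd (h1 : Integrable (fun x : ℝ≥0 => (x : ℝ)) F) (θ : Fin d → ℝ) (L : ℕ) (ε : ℝ)
    (K i : ℕ) : Integrable (Yd F θ L ε K i) (law d F) := by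
  unfold Yd
  refine ((integrable_Xd h1 θ L i).div_const _).add (Integrable.const_mul ?_ _)
  exact (integrable_const _).indicator ((measurable_shift _) (measurableSet_UG ε K).compl)

lemma integral_Yd (h1 : Integrable (fun x : ℝ≥0 => (x : ℝ)) F) (θ : Fin d → ℝ) (L : ℕ) (ε : ℝ)
    (K i : ℕ) : ∫ ω, Yd F θ L ε K i ω ∂(law d F) =
      (∫ ω, Xd θ L i ω ∂(law d F)) / (ε * L) + 2 * (law d F).real (UG F d ε K)ᶜ := by
  unfold Yd
  have hm := (measurable_shift (pt θ (i + L))) (measurableSet_UG (F := F) (d := d) ε K).compl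
  rw [integral_add ((integrable_Xd h1 θ L i).div_const _)
    (((integrable_const _).indicator hm).const_mul _), integral_div, integral_const_mul,
    integral_indicator_const _ hm]
  simp only [smul_eq_mul, mul_one]
  congr 2
  unfold Measure.real
  rw [(measurePreserving_shift (F := F) _).measure_preimage
    (measurableSet_UG ε K).compl.nullMeasurableSet]

omit [IsProbabilityMeasure F] in
lemma measurableSet_Bad (θ : Fin d → ℝ) (L : ℕ) (ε : ℝ) (K N i : ℕ) :
    MeasurableSet (Bad F θ L ε K N i) := by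
  unfold Bad
  refine MeasurableSet.union ?_ ((measurable_shift _) (measurableSet_LG ε K).compl)
  refine MeasurableSet.biUnion (Set.to_countable _) fun n _ => ?_
  exact measurableSet_le measurable_const (Finset.measurable_sum _ fun j _ => measurable_Yd _ _ _ _ _)

/-- the average of the probabilities of the bad events is small -/
lemma sum_Bad_le (h1 : Integrable (fun x : ℝ≥0 => (x : ℝ)) F) (θ : Fin d → ℝ) {L : ℕ} (hL0 : 0 < L)
    {ε δ : ℝ} (hε : 0 < ε) (hδ : 0 < δ)
    (hL : mean F (fl L θ) ≤ L * (G F θ + ε * δ / 8))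
    (hL2 : 3 * (mu1 F * d) ≤ ε * δ / 8 * L) {K : ℕ}
    (hU : (law d F).real (UG F d ε K)ᶜ ≤ δ / 8) (hLo : (law d F).real (LG F d ε K)ᶜ ≤ δ / 2)
    (N J : ℕ) :
    ∑ i ∈ Finset.range (J * L), (law d F).real (Bad F θ L ε K N i) ≤
      δ * ((J + N) * L) + ((L * nr θ + d) * mu1 F + mu1 F * d) / ε := by
  set E : ℕ → Set (Env d) := fun i => ⋃ n ∈ {n : ℕ | 1 ≤ n ∧ n ≤ N},
    {ω | (n : ℝ) ≤ ∑ j ∈ Finset.range n, Yd F θ L ε K (i + j * L) ω} with hE
  have hEm : ∀ i, MeasurableSet (E i) := by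
    intro i
    refine MeasurableSet.biUnion (Set.to_countable _) fun n _ => ?_
    exact measurableSet_le measurable_const
      (Finset.measurable_sum _ fun j _ => measurable_Yd _ _ _ _ _)
  have hpt : ∀ ω : Env d, 1 * ∑ k ∈ Finset.range (J * L),
      ({i | ω ∈ E i} : Set ℕ).indicator (fun _ => (1 : ℝ)) k ≤
        ∑ i ∈ Finset.range ((J + N) * L), Yd F θ L ε K i ω := by
    intro ω
    refine coverL (fun i => Yd_nonneg θ L hε.le K i ω) zero_le_one ?_
    intro k hk _
    simp only [hE, Set.mem_ofPred_eq, Set.mem_iUnion] at hk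
    obtain ⟨n, ⟨hn1, hn2⟩, hn3⟩ := hk
    refine ⟨n, hn1, hn2, ?_⟩
    rw [one_mul]
    exact hn3
  have hind : ∀ k, (fun ω : Env d => ({i | ω ∈ E i} : Set ℕ).indicator (fun _ => (1 : ℝ)) k) =
      (E k).indicator (fun _ => (1 : ℝ)) := by
    intro k
    funext ω
    simp only [Set.indicator, Set.mem_ofPred_eq]
  have hintk : ∀ k, Integrable (fun ω : Env d =>
      ({i | ω ∈ E i} : Set ℕ).indicator (fun _ => (1 : ℝ)) k) (law d F) := by
    intro k
    rw [hind k]
    exact (integrable_const (1 : ℝ)).indicator (hEm k)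
  have hik : ∀ k, ∫ ω : Env d, ({i | ω ∈ E i} : Set ℕ).indicator (fun _ => (1 : ℝ)) k ∂(law d F) =
      (law d F).real (E k) := by
    intro k
    rw [hind k, integral_indicator_const _ (hEm k)]
    simp
  have hint := integral_mono (μ := law d F)
    ((integrable_finsetSum (Finset.range (J * L)) fun k _ => hintk k).const_mul 1)
    (integrable_finsetSum (Finset.range ((J + N) * L)) fun i _ => integrable_Yd h1 θ L ε K i) hpt
  rw [integral_const_mul, one_mul, integral_finsetSum _ fun k _ => hintk k,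
    integral_finsetSum _ fun i _ => integrable_Yd h1 θ L ε K i,
    Finset.sum_congr rfl fun k _ => hik k,
    Finset.sum_congr rfl fun i _ => integral_Yd h1 θ L ε K i, Finset.sum_add_distrib,
    ← Finset.sum_div, Finset.sum_const, Finset.card_range, nsmul_eq_mul] at hint
  have hX := integral_sum_Xd_le h1 θ hL hL2 ((J + N) * L)
  have hLpos : (0 : ℝ) < L := by exact_mod_cast hL0
  have hεL : 0 < ε * L := by positivity
  have hX2 : (∑ i ∈ Finset.range ((J + N) * L), ∫ ω, Xd θ L i ω ∂(law d F)) / (ε * L) ≤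
      ((J + N : ℝ) * L) * (δ / 4) + ((L * nr θ + d) * mu1 F + mu1 F * d) / ε := by
    rw [div_le_iff₀ hεL]
    refine hX.trans (le_of_eq ?_)
    push_cast
    field_simp
    ring
  have hU2 : (((J + N) * L : ℕ) : ℝ) * (2 * (law d F).real (UG F d ε K)ᶜ) ≤
      ((J + N : ℝ) * L) * (δ / 4) := by
    push_cast
    have : (0 : ℝ) ≤ (J + N : ℝ) * L := by positivity
    nlinarith
  -- the lower-good events
  have hLo2 : ∀ i, (law d F).real (shift (pt θ i) ⁻¹' (LG F d ε K)ᶜ) ≤ δ / 2 := by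
    intro i
    refine le_trans (le_of_eq ?_) hLo
    unfold Measure.real
    rw [(measurePreserving_shift (F := F) _).measure_preimage
      (measurableSet_LG ε K).compl.nullMeasurableSet]
  have hB : ∀ i, (law d F).real (Bad F θ L ε K N i) ≤ (law d F).real (E i) + δ / 2 := by
    intro i
    unfold Bad
    exact (measureReal_union_le _ _).trans (by gcongr; exact hLo2 i)
  have hsum : ∑ i ∈ Finset.range (J * L), (law d F).real (Bad F θ L ε K N i) ≤
      ∑ i ∈ Finset.range (J * L), (law d F).real (E i) + (J * L) * (δ / 2) := by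
    refine (Finset.sum_le_sum fun i _ => hB i).trans (le_of_eq ?_)
    rw [Finset.sum_add_distrib, Finset.sum_const, Finset.card_range, nsmul_eq_mul]
    push_cast
    ring
  have hNN : (0 : ℝ) ≤ N * L * δ := by positivity
  have hfin : (J * L : ℝ) * (δ / 2) + 2 * (((J + N : ℝ) * L) * (δ / 4)) ≤ δ * ((J + N) * L) := by
    nlinarith
  linarith

end Pool.Agent.H55.FPP
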