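import Pool.Agent.H55.FPP.Select

/-!
# First-passage percolation: existence of infinite geodesics in the star of every direction
-/

open MeasureTheory Filter ProbabilityTheory
open scoped NNReal Topology

namespace Pool.Agent.H55.FPP

variable {d : ℕ} {F : Measure ℝ≥0} [IsProbabilityMeasure F]

lemma ae_pos [NullSingletonClass F] : ∀ᵐ ω ∂(law d F), ∀ e, 0 < ω e := by
  rw [ae_all_iff]
  intro e
  have h : ∀ᵐ x ∂F, x ≠ (0 : ℝ≥0) := by
    rw [ae_iff]; simp
  have h2 := (measurePreserving_eval (F := F) e).quasiMeasurePreserving.ae h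
  filter_upwards [h2] with ω hω
  exact pos_iff_ne_zero.mpr hω

/-- the star condition along a sequence, asymptotically -/
def StarSeq (F : Measure ℝ≥0) (θ : Fin d → ℝ) (γ : ℕ → Fin d → ℤ) : Prop :=
  ∃ Ks : ℕ → ℕ, ∀ l t, Ks l ≤ n1 (γ t) → Star F θ (1 / ((l : ℝ) + 1)) (γ t)

lemma ae_exists_zero {β : ℝ} (hβ : 0 < β)
    (hint : Integrable (fun x : ℝ≥0 => Real.exp (β * x)) F) [NullSingletonClass F]
    {θ : Fin d → ℝ} (hθ : θ ≠ 0) :
    ∀ᵐ ω ∂(law d F), ∃ γ, IsInfiniteGeodesic ω 0 γ ∧ StarSeq F θ γ := by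
  have hA : (law d F) {ω | ¬ ∃ γ, (γ 0 = 0 ∧ (∀ n, (lattice d).Adj (γ n) (γ (n + 1))) ∧
    ∀ m n, m ≤ n → ∑ i ∈ Finset.Ico m n, (ω s(γ i, γ (i + 1)) : ℝ) =
      passageTime ω (γ m) (γ n)) ∧ StarSeq F θ γ} = 0 := by
    rw [← measureReal_eq_zero_iff]
    refine le_antisymm (le_of_forall_pos_le_add fun δ hδ => ?_) measureReal_nonneg
    rw [zero_add]
    obtain ⟨Ks, hKs⟩ := exists_Ks hβ hint hθ hδ
    have hmono : Monotone fun M => (GoodEv F θ Ks M)ᶜ := by
      intro M M' hM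
      apply Set.compl_subset_compl.mpr
      rintro ω ⟨γ, hγ⟩
      exact ⟨γ, hγ.mono hM⟩
    have hlim := tendsto_measure_iUnion_atTop (μ := law d F) hmono
    have hlim2 : Tendsto (fun M => (law d F).real (GoodEv F θ Ks M)ᶜ) atTop
        (𝓝 ((law d F).real (⋃ M, (GoodEv F θ Ks M)ᶜ))) := by
      have := (ENNReal.tendsto_toReal (measure_ne_top (law d F) _)).comp hlim
      simpa [Measure.real, Function.comp_def] using this
    refine le_trans (measureReal_mono ?_) (le_of_tendsto' hlim2 hKs)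
    intro ω hω
    by_contra hcon
    rw [Set.mem_iUnion] at hcon
    push Not at hcon
    apply hω
    obtain ⟨γ, hγ⟩ := exists_infinite fun M => by simpa using hcon M
    refine ⟨γ, ⟨(hγ 0).1, fun n => (hγ (n + 1)).2.1 n (Nat.lt_succ_self n), ?_⟩, Ks, ?_⟩
    · intro m n hmn
      have h := hγ n
      exact seq_T_eq ω h.2.1 (by rw [h.2.2.1, h.1]) hmn le_rfl
    · intro l t hK
      exact (hγ (max t (l + 1))).2.2.2 t (le_max_left _ _) l
        (lt_of_lt_of_le (Nat.lt_succ_self l) (le_max_right _ _)) hK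
  have hA' : ∀ᵐ ω ∂(law d F), ∃ γ, (γ 0 = 0 ∧ (∀ n, (lattice d).Adj (γ n) (γ (n + 1))) ∧
    ∀ m n, m ≤ n → ∑ i ∈ Finset.Ico m n, (ω s(γ i, γ (i + 1)) : ℝ) =
      passageTime ω (γ m) (γ n)) ∧ StarSeq F θ γ := by
    rw [ae_iff]; exact hA
  filter_upwards [hA', ae_pos (d := d) (F := F)] with ω hω hpos
  obtain ⟨γ, ⟨h0, hadj, hsum⟩, hstar⟩ := hω
  refine ⟨γ, ⟨h0, ?_, hadj, hsum⟩, hstar⟩
  have key : ∀ m n, m < n → γ m ≠ γ n := by
    intro m n hmn heq
    have h1 := hsum m n hmn.le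
    rw [heq, T_self] at h1
    have h2 : 0 < ∑ i ∈ Finset.Ico m n, (ω s(γ i, γ (i + 1)) : ℝ) := by
      apply Finset.sum_pos
      · intro i _
        exact NNReal.coe_pos.mpr (hpos _)
      · exact ⟨m, Finset.mem_Ico.mpr ⟨le_rfl, hmn⟩⟩
    linarith
  intro m n heq
  rcases lt_trichotomy m n with h | h | h
  · exact absurd heq (key m n h)
  · exact h
  · exact absurd heq.symm (key n m h)

lemma IsInfiniteGeodesic.translate {ω : Env d} {u : Fin d → ℤ} {γ : ℕ → Fin d → ℤ}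
    (h : IsInfiniteGeodesic (shift u ω) 0 γ) : IsInfiniteGeodesic ω u fun n => γ n + u := by
  obtain ⟨h0, hinj, hadj, hsum⟩ := h
  refine ⟨by simp [h0], ?_, ?_, ?_⟩
  · intro m n hmn
    exact hinj (add_right_cancel hmn)
  · intro n
    have := hadj n
    rw [adj_iff] at this ⊢
    simpa using this
  · intro m n hmn
    have := hsum m n hmn
    rw [T_shift] at this
    rw [← this]
    refine Finset.sum_congr rfl fun i _ => ?_
    unfold shift
    rw [trE_mk]

lemma continuous_nr : Continuous (nr : (Fin d → ℝ) → ℝ) := by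
  unfold nr
  exact continuous_finsetSum _ fun i _ => (continuous_apply i).abs

lemma continuous_G (h1 : Integrable (fun x : ℝ≥0 => (x : ℝ)) F) :
    Continuous (G F : (Fin d → ℝ) → ℝ) := by
  rw [continuous_iff_continuousAt]
  intro x
  unfold ContinuousAt
  rw [tendsto_iff_dist_tendsto_zero]
  have h2 : Tendsto (fun y : Fin d → ℝ => mu1 F * nr (y - x)) (𝓝 x) (𝓝 0) := by
    have hc : Continuous fun y : Fin d → ℝ => mu1 F * nr (y - x) :=
      continuous_const.mul (continuous_nr.comp (continuous_id.sub continuous_const))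
    have := hc.tendsto x
    simpa [nr] using this
  refine squeeze_zero (fun _ => dist_nonneg) (fun y => ?_) h2
  rw [Real.dist_eq, abs_le]
  have a := G_lip h1 x y
  have b := G_lip h1 y x
  have e : nr (x - y) = nr (y - x) := by rw [← nr_neg, neg_sub]
  rw [e] at a
  constructor <;> linarith

lemma tendsto_n1 {γ : ℕ → Fin d → ℤ} (hinj : Function.Injective γ) :
    Tendsto (fun n => n1 (γ n)) atTop atTop := by
  rw [tendsto_atTop]
  intro K
  have h := hinj.tendsto_cofinite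
  rw [Nat.cofinite_eq_atTop] at h
  have h2 := h.eventually (finite_n1_lt (d := d) K).eventually_cofinite_notMem
  filter_upwards [h2] with n hn
  simpa using hn

lemma star_final (h1 : Integrable (fun x : ℝ≥0 => (x : ℝ)) F) {θ v : Fin d → ℝ} (hv : v ≠ 0)
    (h : G F v + nr v * G F θ ≤ G F (v + nr v • θ)) : G F (v + θ) = G F v + G F θ := by
  refine le_antisymm (G_add_le h1 v θ) ?_
  set s := nr v with hs
  have hs0 : 0 < s := nr_pos hv
  rcases le_total 1 s with h2 | h2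
  · have e : v + s • θ = (v + θ) + (s - 1) • θ := by
      rw [sub_smul, one_smul]; abel
    have h3 := G_add_le h1 (v + θ) ((s - 1) • θ)
    rw [G_smul h1 (by linarith), ← e] at h3
    linarith
  · have e : v + s • θ = s • (v + θ) + (1 - s) • v := by
      rw [sub_smul, one_smul, smul_add]; abel
    have h3 := G_add_le h1 (s • (v + θ)) ((1 - s) • v)
    rw [G_smul h1 hs0.le, G_smul h1 (by linarith), ← e] at h3
    have h4 : s * (G F v + G F θ) ≤ s * G F (v + θ) := by linarith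
    exact le_of_mul_le_mul_left h4 hs0

lemma limit_dir (h1 : Integrable (fun x : ℝ≥0 => (x : ℝ)) F) {θ : Fin d → ℝ}
    {γ : ℕ → Fin d → ℤ} (hinj : Function.Injective γ) (hstar : StarSeq F θ γ) (u : Fin d → ℤ)
    {v : Fin d → ℝ} (hv : IsLimitDirection (fun n => γ n + u) v) :
    G F (v + θ) = G F v + G F θ := by
  obtain ⟨hv0, φ, t, hφ, ht, hlim⟩ := hv
  obtain ⟨Ks, hKs⟩ := hstar
  refine star_final h1 hv0 ?_
  have hn : Tendsto (fun k => n1 (γ (φ k))) atTop atTop := (tendsto_n1 hinj).comp hφ.tendsto_atTop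
  -- `t k → 0`
  have hnr : Tendsto (fun k => nr (t k • toReal (γ (φ k) + u))) atTop (𝓝 (nr v)) :=
    (continuous_nr.tendsto v).comp hlim
  have ht0 : Tendsto t atTop (𝓝 0) := by
    have hbd : ∀ᶠ k in atTop, nr (t k • toReal (γ (φ k) + u)) ≤ nr v + 1 :=
      hnr.eventually_le_const (lt_add_one _)
    rw [Metric.tendsto_atTop']
    intro ε hε
    have hbig : ∀ᶠ k in atTop, n1 u + ⌈(nr v + 2) / ε⌉₊ ≤ n1 (γ (φ k)) :=
      hn.eventually_ge_atTop _
    obtain ⟨N, hN⟩ := (hbd.and hbig).exists_forall_of_atTop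
    refine ⟨N, fun k hk => ?_⟩
    obtain ⟨ha, hb⟩ := hN k hk.le
    rw [Real.dist_eq, sub_zero, abs_of_pos (ht k)]
    rw [nr_smul, abs_of_pos (ht k), nr_toReal] at ha
    have h3 : n1 (γ (φ k)) ≤ n1 (γ (φ k) + u) + n1 u := by
      have := n1_add_le (γ (φ k) + u) (-u)
      rwa [add_neg_cancel_right, n1_neg] at this
    have h4 : ⌈(nr v + 2) / ε⌉₊ ≤ n1 (γ (φ k) + u) := by omega
    have h5 : (nr v + 2) / ε ≤ n1 (γ (φ k) + u) := (Nat.le_ceil _).trans (Nat.cast_le.mpr h4)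
    rw [div_le_iff₀ hε] at h5
    by_contra hcon
    push Not at hcon
    have h6 : (n1 (γ (φ k) + u) : ℝ) * ε ≤ t k * n1 (γ (φ k) + u) := by
      rw [mul_comm]; gcongr
    have := nr_nonneg v
    linarith
  have hlim2 : Tendsto (fun k => t k • toReal (γ (φ k))) atTop (𝓝 v) := by
    have h3 : Tendsto (fun k => t k • toReal u) atTop (𝓝 ((0 : ℝ) • toReal u)) :=
      ht0.smul_const _
    rw [zero_smul] at h3
    have h4 := hlim.sub h3
    rw [sub_zero] at h4
    refine h4.congr fun k => ?_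
    rw [toReal_add, smul_add, add_sub_cancel_right]
  -- pass to the limit in the star inequality
  have hcG := continuous_G (d := d) h1
  refine le_of_forall_pos_le_add fun ε hε => ?_
  obtain ⟨l, hl⟩ := exists_nat_gt (nr v / ε)
  rw [div_lt_iff₀ hε] at hl
  have hev : ∀ᶠ k in atTop, G F (t k • toReal (γ (φ k))) + nr (t k • toReal (γ (φ k))) * G F θ ≤
      G F (t k • toReal (γ (φ k)) + nr (t k • toReal (γ (φ k))) • θ) +
        1 / ((l : ℝ) + 1) * nr (t k • toReal (γ (φ k))) := by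
    filter_upwards [hn.eventually_ge_atTop (Ks l)] with k hk
    have h3 := hKs l (φ k) hk
    unfold Star at h3
    have htk := ht k
    rw [nr_smul, abs_of_pos htk, nr_toReal, G_smul h1 htk.le]
    have e : t k • toReal (γ (φ k)) + (t k * (n1 (γ (φ k)) : ℝ)) • θ =
        t k • (toReal (γ (φ k)) + (n1 (γ (φ k)) : ℝ) • θ) := by
      rw [smul_add, smul_smul]
    rw [e, G_smul h1 htk.le]
    have h4 := mul_le_mul_of_nonneg_left h3 htk.le
    calc _ = t k * (G F (toReal (γ (φ k))) + (n1 (γ (φ k)) : ℝ) * G F θ) := by ring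
      _ ≤ _ := h4
      _ = _ := by ring
  have hL : Tendsto (fun k => G F (t k • toReal (γ (φ k))) +
      nr (t k • toReal (γ (φ k))) * G F θ) atTop (𝓝 (G F v + nr v * G F θ)) :=
    ((hcG.tendsto v).comp hlim2).add (((continuous_nr.tendsto v).comp hlim2).mul_const _)
  have hR : Tendsto (fun k => G F (t k • toReal (γ (φ k)) +
      nr (t k • toReal (γ (φ k))) • θ) + 1 / ((l : ℝ) + 1) * nr (t k • toReal (γ (φ k)))) atTop
      (𝓝 (G F (v + nr v • θ) + 1 / ((l : ℝ) + 1) * nr v)) := by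
    refine Tendsto.add ?_ (((continuous_nr.tendsto v).comp hlim2).const_mul _)
    have hc : Continuous fun w : Fin d → ℝ => G F (w + nr w • θ) :=
      hcG.comp (continuous_id.add (continuous_nr.smul continuous_const))
    exact (hc.tendsto v).comp hlim2
  have hfin := le_of_tendsto_of_tendsto hL hR hev
  have hlpos : (0 : ℝ) < (l : ℝ) + 1 := by positivity
  have h5 : 1 / ((l : ℝ) + 1) * nr v ≤ ε := by
    rw [one_div, inv_mul_le_iff₀ hlpos]
    nlinarith
  linarith

lemma G_ge {c : ℝ} (h1 : Integrable (fun x : ℝ≥0 => (x : ℝ)) F) (hc : 0 < c)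
    (hgz : ∀ x : Fin d → ℤ, c * n1 x ≤ gz F x) (θ : Fin d → ℝ) : c * nr θ ≤ G F θ := by
  refine le_of_nat_mul (C := c * d + mu1 F * d) fun n => ?_
  have h2 := (abs_le.mp (G_approx h1 θ n)).2
  have h3 := hgz (fl n θ)
  have h4 : n * nr θ - d ≤ n1 (fl n θ) := by
    rw [← nr_toReal]
    have h := nr_add_le (-(toReal (fl n θ) - (n : ℝ) • θ)) (toReal (fl n θ))
    have e : -(toReal (fl n θ) - (n : ℝ) • θ) + toReal (fl n θ) = (n : ℝ) • θ := by abel
    rw [e, nr_neg, nr_smul, Nat.abs_cast] at h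
    have := nr_fl_sub n θ
    linarith
  nlinarith

lemma shape {β : ℝ} (hβ : 0 < β)
    (hint : Integrable (fun x : ℝ≥0 => Real.exp (β * x)) F) [NullSingletonClass F] :
    ∀ᵐ ω ∂(law d F), Tendsto (fun v : Fin d → ℤ => passageTime ω 0 v / G F (toReal v))
      cofinite (𝓝 1) := by
  have h1 := integrable_coe hβ hint
  obtain ⟨c, hc, hgz⟩ := gz_pos (d := d) hβ hint
  have hup : ∀ᵐ ω ∂(law d F), ∀ l : ℕ, ∃ K : ℕ, ∀ v : Fin d → ℤ, K ≤ n1 v →
      passageTime ω 0 v ≤ gz F v + (1 / ((l : ℝ) + 1)) * n1 v := by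
    rw [ae_all_iff]
    intro l
    exact shape_upper hβ hint (by positivity)
  have hlo : ∀ᵐ ω ∂(law d F), ∀ l : ℕ, ∃ K : ℕ, ∀ v : Fin d → ℤ, K ≤ n1 v →
      gz F v - (1 / ((l : ℝ) + 1)) * n1 v ≤ passageTime ω 0 v := by
    rw [ae_all_iff]
    intro l
    exact shape_lower hβ hint (by positivity)
  filter_upwards [hup, hlo] with ω hω1 hω2
  rw [Metric.tendsto_nhds]
  intro ε hε
  obtain ⟨l, hl⟩ := exists_nat_gt (1 / (ε * c))
  obtain ⟨K₁, hK₁⟩ := hω1 l
  obtain ⟨K₂, hK₂⟩ := hω2 l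
  have hfin := (finite_n1_lt (d := d) (K₁ + K₂ + 1)).eventually_cofinite_notMem
  filter_upwards [hfin] with v hv
  simp only [Set.mem_ofPred_eq, not_lt] at hv
  have a := hK₁ v (by omega)
  have b := hK₂ v (by omega)
  have hn : (0 : ℝ) < n1 v := by
    have : 0 < n1 v := by omega
    exact_mod_cast this
  have hg := hgz v
  have hg0 : 0 < gz F v := lt_of_lt_of_le (by positivity) hg
  rw [G_toReal h1, Real.dist_eq]
  have e : passageTime ω 0 v / gz F v - 1 = (passageTime ω 0 v - gz F v) / gz F v := by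
    field_simp
  rw [e, abs_div, abs_of_pos hg0, div_lt_iff₀ hg0]
  have h2 : |passageTime ω 0 v - gz F v| ≤ 1 / ((l : ℝ) + 1) * n1 v := by
    rw [abs_le]; constructor <;> linarith
  have hlpos : (0 : ℝ) < (l : ℝ) + 1 := by positivity
  have h3 : 1 / ((l : ℝ) + 1) < ε * c := by
    rw [div_lt_iff₀ (by positivity)] at hl
    rw [div_lt_iff₀ hlpos]
    nlinarith [mul_pos hε hc]
  calc |passageTime ω 0 v - gz F v| ≤ 1 / ((l : ℝ) + 1) * n1 v := h2
    _ < ε * c * n1 v := by gcongr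
    _ = ε * (c * n1 v) := by ring
    _ ≤ ε * gz F v := by gcongr

/-- Euclidean norm -/
noncomputable def e2 (x : Fin d → ℝ) : ℝ := Real.sqrt (∑ i, x i ^ 2)

lemma e2_smul {c : ℝ} (hc : 0 ≤ c) (x : Fin d → ℝ) : e2 (c • x) = c * e2 x := by
  unfold e2
  have : ∑ i, (c • x) i ^ 2 = c ^ 2 * ∑ i, x i ^ 2 := by
    rw [Finset.mul_sum]
    refine Finset.sum_congr rfl fun i _ => ?_
    simp [mul_pow]
  rw [this, Real.sqrt_mul (sq_nonneg c), Real.sqrt_sq hc]

lemma e2_pos {x : Fin d → ℝ} (hx : x ≠ 0) : 0 < e2 x := by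
  obtain ⟨i, hi⟩ := Function.ne_iff.mp hx
  unfold e2
  apply Real.sqrt_pos.mpr
  have : 0 < x i ^ 2 := by
    have : x i ≠ 0 := hi
    positivity
  exact lt_of_lt_of_le this
    (Finset.single_le_sum (f := fun i => x i ^ 2) (fun i _ => sq_nonneg _) (Finset.mem_univ i))

lemma continuous_e2 : Continuous (e2 : (Fin d → ℝ) → ℝ) := by
  unfold e2
  exact (continuous_finsetSum _ fun i _ => (continuous_apply i).pow 2).sqrt

lemma abs_le_e2 (x : Fin d → ℝ) (i : Fin d) : |x i| ≤ e2 x := by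
  unfold e2
  rw [← Real.sqrt_sq_eq_abs]
  exact Real.sqrt_le_sqrt
    (Finset.single_le_sum (f := fun i => x i ^ 2) (fun i _ => sq_nonneg _) (Finset.mem_univ i))

lemma toReal_ne_zero {x : Fin d → ℤ} (hx : x ≠ 0) : toReal x ≠ 0 := by
  intro h
  apply hx
  funext i
  have := congrFun h i
  simp only [toReal, Pi.zero_apply] at this
  exact_mod_cast this

/-- If all limit directions are positive multiples of `θ`, the sequence has the asymptotic
direction `θ`. -/
lemma tendsto_direction {γ : ℕ → Fin d → ℤ} (hinj : Function.Injective γ) {θ : Fin d → ℝ}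
    (h : ∀ v, IsLimitDirection γ v → ∃ c : ℝ, 0 < c ∧ v = c • θ) :
    Tendsto (fun n => (e2 (toReal (γ n)))⁻¹ • toReal (γ n)) atTop (𝓝 ((e2 θ)⁻¹ • θ)) := by
  set x : ℕ → Fin d → ℝ := fun n => (e2 (toReal (γ n)))⁻¹ • toReal (γ n) with hx
  -- eventually nonzero
  obtain ⟨N, hN⟩ : ∃ N, ∀ n ≥ N, γ n ≠ 0 := by
    have := (tendsto_n1 hinj).eventually_ge_atTop 1
    obtain ⟨N, hN⟩ := this.exists_forall_of_atTop
    refine ⟨N, fun n hn h0 => ?_⟩
    have := hN n hn
    rw [h0, n1_zero] at this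
    omega
  have hpos : ∀ n ≥ N, 0 < e2 (toReal (γ n)) := fun n hn => e2_pos (toReal_ne_zero (hN n hn))
  have he2 : ∀ n ≥ N, e2 (x n) = 1 := by
    intro n hn
    rw [hx]
    simp only
    rw [e2_smul (inv_nonneg.mpr (hpos n hn).le), inv_mul_cancel₀ (hpos n hn).ne']
  have hcomp : IsCompact (Set.pi Set.univ fun _ : Fin d => Set.Icc (-1 : ℝ) 1) :=
    isCompact_univ_pi fun _ => isCompact_Icc
  apply tendsto_of_subseq_tendsto
  intro ns hns
  have hns' : ∀ᶠ k in atTop, N ≤ ns k := hns.eventually_ge_atTop N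
  have hmem : ∃ᶠ k in atTop, x (ns k) ∈ Set.pi Set.univ fun _ : Fin d => Set.Icc (-1 : ℝ) 1 := by
    refine (hns'.mono fun k hk => ?_).frequently
    intro i _
    have h1 := abs_le_e2 (x (ns k)) i
    rw [he2 _ hk] at h1
    exact abs_le.mp h1
  obtain ⟨a, -, φ, hφ, hlim⟩ := hcomp.tendsto_subseq' hmem
  refine ⟨φ, ?_⟩
  have htt : Tendsto (fun k => ns (φ k)) atTop atTop := hns.comp hφ.tendsto_atTop
  obtain ⟨ψ, hψ, hmono⟩ := strictMono_subseq_of_tendsto_atTop htt
  have hev : ∀ᶠ k in atTop, N ≤ ns (φ (ψ k)) := (htt.comp hψ.tendsto_atTop).eventually_ge_atTop N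
  obtain ⟨K, hK⟩ := hev.exists_forall_of_atTop
  have hlim' : Tendsto (fun k => x (ns (φ (ψ (k + K))))) atTop (𝓝 a) :=
    hlim.comp (hψ.tendsto_atTop.comp (tendsto_add_atTop_nat K))
  have hea : e2 a = 1 := by
    have h1 := (continuous_e2.tendsto a).comp hlim'
    refine tendsto_nhds_unique h1 (tendsto_const_nhds.congr fun k => ?_)
    exact (he2 _ (hK _ (Nat.le_add_left _ _))).symm
  have ha0 : a ≠ 0 := by
    rintro rfl
    simp [e2] at hea
  obtain ⟨c, hc, hac⟩ := h a ⟨ha0, fun k => ns (φ (ψ (k + K))),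
    fun k => (e2 (toReal (γ (ns (φ (ψ (k + K)))))))⁻¹,
    fun i j hij => hmono (by omega), fun k => inv_pos.mpr (hpos _ (hK _ (Nat.le_add_left _ _))),
    hlim'⟩
  have : a = (e2 θ)⁻¹ • θ := by
    rw [hac, e2_smul hc.le] at hea
    have hθ : e2 θ ≠ 0 := by
      intro h0; rw [h0, mul_zero] at hea; exact zero_ne_one hea
    have : c = (e2 θ)⁻¹ := by
      field_simp
      linarith
    rw [hac, this]
  rw [← this]
  exact hlim

/-- The main theorem. -/
theorem main {β : ℝ} (hβ : 0 < β)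
    (hint : Integrable (fun x : ℝ≥0 => Real.exp (β * x)) F) [NullSingletonClass F] :
    ∃ g : Seminorm ℝ (Fin d → ℝ), (∀ x, g x = 0 → x = 0) ∧
      (∀ᵐ ω ∂(law d F), Tendsto (fun v : Fin d → ℤ => passageTime ω 0 v / g (toReal v))
        cofinite (𝓝 1)) ∧
      ∀ θ : Fin d → ℝ, θ ≠ 0 → ∀ᵐ ω ∂(law d F), ∀ u : Fin d → ℤ,
        ∃ γ : ℕ → Fin d → ℤ, IsInfiniteGeodesic ω u γ ∧
          (∀ v, IsLimitDirection γ v → g (v + θ) = g v + g θ) ∧
          ((∀ v, v ≠ 0 → g (v + θ) = g v + g θ → ∃ c : ℝ, 0 < c ∧ v = c • θ) →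
            Tendsto (fun n => (e2 (toReal (γ n)))⁻¹ • toReal (γ n)) atTop
              (𝓝 ((e2 θ)⁻¹ • θ))) := by
  have h1 := integrable_coe hβ hint
  obtain ⟨c, hc, hgz⟩ := gz_pos (d := d) hβ hint
  refine ⟨Gs F h1 d, ?_, ?_, ?_⟩
  · intro x hx
    rw [Gs_apply] at hx
    by_contra hne
    have h2 := G_ge h1 hc hgz x
    have h3 := nr_pos hne
    have : 0 < c * nr x := by positivity
    linarith
  · exact shape hβ hint
  · intro θ hθ
    rw [ae_all_iff]
    intro u
    have h2 := (measurePreserving_shift (F := F) u).quasiMeasurePreserving.ae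
      (ae_exists_zero (d := d) hβ hint hθ)
    filter_upwards [h2] with ω hω
    obtain ⟨γ, hγ, hstar⟩ := hω
    have hgeo := IsInfiniteGeodesic.translate hγ
    have hdir : ∀ v, IsLimitDirection (fun n => γ n + u) v →
        Gs F h1 d (v + θ) = Gs F h1 d v + Gs F h1 d θ :=
      fun v hv => limit_dir h1 hγ.2.1 hstar u hv
    refine ⟨_, hgeo, hdir, fun hθ' => ?_⟩
    exact tendsto_direction hgeo.2.1 fun v hv => hθ' v hv.1 (hdir v hv)

end Pool.Agent.H55.FPP
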