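import Pool.Agent.H55.FPP.Slow

/-!
# First-passage percolation: mean passage times and the time constant on the lattice
-/

open MeasureTheory Filter ProbabilityTheory
open scoped NNReal Topology

namespace Pool.Agent.H55.FPP

variable {d : ℕ} {F : Measure ℝ≥0} [IsProbabilityMeasure F]

lemma integrable_coe {β : ℝ} (hβ : 0 < β)
    (hint : Integrable (fun x : ℝ≥0 => Real.exp (β * x)) F) :
    Integrable (fun x : ℝ≥0 => (x : ℝ)) F := by
  refine (hint.div_const β).mono' measurable_coe_nnreal_real.aestronglyMeasurable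
    (ae_of_all _ fun x => ?_)
  have hx : (0 : ℝ) ≤ (x : ℝ) := x.2
  rw [Real.norm_eq_abs, abs_of_nonneg hx, le_div_iff₀ hβ]
  have := Real.add_one_le_exp (β * x)
  have h2 : (x : ℝ) * β = β * x := mul_comm _ _
  linarith

/-- the mean of one weight -/
noncomputable def mu1 (F : Measure ℝ≥0) : ℝ := ∫ x : ℝ≥0, (x : ℝ) ∂F

lemma mu1_nonneg : 0 ≤ mu1 F := integral_nonneg fun x => x.2

lemma integrable_weight_eval (h1 : Integrable (fun x : ℝ≥0 => (x : ℝ)) F)
    (e : Sym2 (Fin d → ℤ)) : Integrable (fun ω : Env d => (ω e : ℝ)) (law d F) :=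
  (measurePreserving_eval (F := F) e).integrable_comp_of_integrable h1

lemma integral_eval (e : Sym2 (Fin d → ℤ)) :
    ∫ ω : Env d, (ω e : ℝ) ∂(law d F) = mu1 F := by
  have h := (measurePreserving_eval (F := F) e)
  have h2 := integral_map (μ := law d F) h.measurable.aemeasurable (f := fun x : ℝ≥0 => (x : ℝ))
    measurable_coe_nnreal_real.aestronglyMeasurable
  rw [h.map_eq] at h2
  exact h2.symm

lemma integrable_weight (h1 : Integrable (fun x : ℝ≥0 => (x : ℝ)) F) {u v : Fin d → ℤ}
    (p : (lattice d).Walk u v) : Integrable (fun ω : Env d => weight ω p) (law d F) := by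
  induction p with
  | nil => simp only [weight_nil]; exact integrable_const _
  | cons h p ih =>
    simp only [weight_cons]
    exact (integrable_weight_eval h1 _).add ih

lemma integral_weight (h1 : Integrable (fun x : ℝ≥0 => (x : ℝ)) F) {u v : Fin d → ℤ}
    (p : (lattice d).Walk u v) : ∫ ω : Env d, weight ω p ∂(law d F) = p.length * mu1 F := by
  induction p with
  | nil => simp [weight_nil]
  | cons h p ih =>
    simp only [weight_cons]
    rw [integral_add (integrable_weight_eval h1 _) (integrable_weight h1 p), ih, integral_eval,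
      SimpleGraph.Walk.length_cons]
    push_cast; ring

lemma integrable_T (h1 : Integrable (fun x : ℝ≥0 => (x : ℝ)) F) (x y : Fin d → ℤ) :
    Integrable (fun ω : Env d => passageTime ω x y) (law d F) := by
  obtain ⟨p, -⟩ := exists_short_path x y
  refine (integrable_weight h1 p).mono' (measurable_T x y).aestronglyMeasurable
    (ae_of_all _ fun ω => ?_)
  rw [Real.norm_eq_abs, abs_of_nonneg (T_nonneg ω x y)]
  exact T_le_weight ω p

lemma integral_T_le (h1 : Integrable (fun x : ℝ≥0 => (x : ℝ)) F) (x y : Fin d → ℤ) :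
    ∫ ω : Env d, passageTime ω x y ∂(law d F) ≤ n1 (x - y) * mu1 F := by
  obtain ⟨p, -, hl, -⟩ := exists_short_path x y
  calc _ ≤ ∫ ω : Env d, weight ω p ∂(law d F) :=
        integral_mono (integrable_T h1 x y) (integrable_weight h1 p) fun ω => T_le_weight ω p
    _ = _ := by rw [integral_weight h1, hl]

/-- the mean passage time from `0` to `x` -/
noncomputable def mean (F : Measure ℝ≥0) (x : Fin d → ℤ) : ℝ :=
  ∫ ω : Env d, passageTime ω 0 x ∂(law d F)

lemma integral_shift (z : Fin d → ℤ) {f : Env d → ℝ} (hf : Measurable f) :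
    ∫ ω, f (shift z ω) ∂(law d F) = ∫ ω, f ω ∂(law d F) := by
  have h := (measurePreserving_shift (F := F) z)
  have h2 := integral_map (μ := law d F) h.measurable.aemeasurable (f := f)
    hf.aestronglyMeasurable
  rw [h.map_eq] at h2
  exact h2.symm

lemma integral_T (x y : Fin d → ℤ) :
    ∫ ω : Env d, passageTime ω x y ∂(law d F) = mean F (y - x) := by
  unfold mean
  rw [← integral_shift x (measurable_T 0 (y - x))]
  refine integral_congr_ae (ae_of_all _ fun ω => ?_)
  simp only [T_shift, zero_add, sub_add_cancel]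

lemma mean_nonneg (x : Fin d → ℤ) : 0 ≤ mean F x := integral_nonneg fun ω => T_nonneg ω _ _

lemma mean_le (h1 : Integrable (fun x : ℝ≥0 => (x : ℝ)) F) (x : Fin d → ℤ) :
    mean F x ≤ n1 x * mu1 F := by
  have := integral_T_le h1 0 x
  rwa [zero_sub, n1_neg] at this

lemma mean_add_le (h1 : Integrable (fun x : ℝ≥0 => (x : ℝ)) F) (x y : Fin d → ℤ) :
    mean F (x + y) ≤ mean F x + mean F y := by
  have h : mean F y = ∫ ω : Env d, passageTime ω x (x + y) ∂(law d F) := by
    rw [integral_T]; congr 1; abel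
  rw [h]
  unfold mean
  rw [← integral_add (integrable_T h1 _ _) (integrable_T h1 _ _)]
  exact integral_mono (integrable_T h1 _ _)
    ((integrable_T h1 _ _).add (integrable_T h1 _ _)) fun ω => T_triangle ω _ _ _

lemma mean_neg (x : Fin d → ℤ) : mean F (-x) = mean F x := by
  have h : mean F (-x) = ∫ ω : Env d, passageTime ω x 0 ∂(law d F) := by
    rw [integral_T]; congr 1; abel
  rw [h]
  unfold mean
  exact integral_congr_ae (ae_of_all _ fun ω => T_symm ω x 0)

lemma mean_zero : mean F (0 : Fin d → ℤ) = 0 := by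
  unfold mean
  simp [T_self]

/-- `n ↦ mean (n x)` is subadditive -/
lemma subadd (h1 : Integrable (fun x : ℝ≥0 => (x : ℝ)) F) (x : Fin d → ℤ) :
    Subadditive fun n : ℕ => mean F (n • x) := by
  intro m n
  change mean F ((m + n) • x) ≤ _
  rw [add_smul]
  exact mean_add_le h1 _ _

/-- the time constant on the lattice -/
noncomputable def gz (F : Measure ℝ≥0) (x : Fin d → ℤ) : ℝ :=
  limUnder atTop (fun n : ℕ => mean F (n • x) / n)

lemma gz_bdd (x : Fin d → ℤ) :
    BddBelow (Set.range fun n : ℕ => mean F (n • x) / (n : ℝ)) := by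
  refine ⟨0, ?_⟩
  rintro _ ⟨n, rfl⟩
  have := mean_nonneg (F := F) (n • x)
  positivity

lemma tendsto_gz (h1 : Integrable (fun x : ℝ≥0 => (x : ℝ)) F) (x : Fin d → ℤ) :
    Tendsto (fun n : ℕ => mean F (n • x) / n) atTop (𝓝 (gz F x)) :=
  tendsto_nhds_limUnder ⟨_, (subadd h1 x).tendsto_lim (gz_bdd x)⟩

lemma gz_le_div (h1 : Integrable (fun x : ℝ≥0 => (x : ℝ)) F) (x : Fin d → ℤ) {n : ℕ}
    (hn : n ≠ 0) : gz F x ≤ mean F (n • x) / n := by
  rw [tendsto_nhds_unique (tendsto_gz h1 x) ((subadd h1 x).tendsto_lim (gz_bdd x))]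
  exact (subadd h1 x).lim_le_div (gz_bdd x) hn

lemma gz_le_mean (h1 : Integrable (fun x : ℝ≥0 => (x : ℝ)) F) (x : Fin d → ℤ) :
    gz F x ≤ mean F x := by
  have := gz_le_div h1 x one_ne_zero
  simpa using this

lemma gz_nonneg (h1 : Integrable (fun x : ℝ≥0 => (x : ℝ)) F) (x : Fin d → ℤ) : 0 ≤ gz F x :=
  ge_of_tendsto' (tendsto_gz h1 x) fun n => by
    have := mean_nonneg (F := F) (n • x)
    positivity

lemma gz_nsmul (h1 : Integrable (fun x : ℝ≥0 => (x : ℝ)) F) (x : Fin d → ℤ) (k : ℕ) :
    gz F (k • x) = k * gz F x := by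
  rcases Nat.eq_zero_or_pos k with rfl | hk
  · rw [zero_smul]
    have h := tendsto_gz h1 (0 : Fin d → ℤ)
    simp only [smul_zero, mean_zero, zero_div] at h
    rw [tendsto_nhds_unique h tendsto_const_nhds]
    simp
  · have h2 := tendsto_gz h1 (k • x)
    have h3 : Tendsto (fun n : ℕ => n * k) atTop atTop :=
      tendsto_id.atTop_mul_const' hk
    have h4 := ((tendsto_gz h1 x).comp h3).const_mul (k : ℝ)
    refine tendsto_nhds_unique h2 (h4.congr fun n => ?_)
    simp only [Function.comp]
    rw [mul_smul]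
    push_cast
    have hk' : (k : ℝ) ≠ 0 := by positivity
    rcases Nat.eq_zero_or_pos n with rfl | hn
    · simp
    have hn' : (n : ℝ) ≠ 0 := by positivity
    field_simp

lemma gz_neg (x : Fin d → ℤ) : gz F (-x) = gz F x := by
  unfold gz
  congr 1
  funext n
  rw [smul_neg, mean_neg]

lemma gz_add_le (h1 : Integrable (fun x : ℝ≥0 => (x : ℝ)) F) (x y : Fin d → ℤ) :
    gz F (x + y) ≤ gz F x + gz F y := by
  refine le_of_tendsto_of_tendsto' (tendsto_gz h1 (x + y))
    ((tendsto_gz h1 x).add (tendsto_gz h1 y)) fun n => ?_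
  rw [smul_add, ← add_div]
  gcongr
  exact mean_add_le h1 _ _

lemma gz_le (h1 : Integrable (fun x : ℝ≥0 => (x : ℝ)) F) (x : Fin d → ℤ) :
    gz F x ≤ mu1 F * n1 x :=
  (gz_le_mean h1 x).trans ((mean_le h1 x).trans_eq (mul_comm _ _))

lemma gz_lip (h1 : Integrable (fun x : ℝ≥0 => (x : ℝ)) F) (x y : Fin d → ℤ) :
    |gz F x - gz F y| ≤ mu1 F * n1 (x - y) := by
  rw [abs_le]
  constructor
  · have := gz_add_le h1 x (y - x)
    rw [add_sub_cancel] at this
    have h2 := gz_le h1 (y - x)
    rw [n1_sub_comm] at h2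
    linarith
  · have := gz_add_le h1 y (x - y)
    rw [add_sub_cancel] at this
    have h2 := gz_le h1 (x - y)
    linarith

end Pool.Agent.H55.FPP
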