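import Pool.Agent.H55.FPP.Mean

/-!
# First-passage percolation: the time constant as a seminorm on `ℝ^d`
-/

open MeasureTheory Filter ProbabilityTheory
open scoped NNReal Topology

namespace Pool.Agent.H55.FPP

variable {d : ℕ} {F : Measure ℝ≥0} [IsProbabilityMeasure F]

/-- real `ℓ¹` norm -/
def nr (θ : Fin d → ℝ) : ℝ := ∑ i, |θ i|

lemma nr_nonneg (θ : Fin d → ℝ) : 0 ≤ nr θ := Finset.sum_nonneg fun _ _ => abs_nonneg _

lemma nr_toReal (x : Fin d → ℤ) : nr (toReal x) = n1 x := by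
  unfold nr toReal n1
  push_cast
  refine Finset.sum_congr rfl fun i _ => ?_
  rw [Nat.cast_natAbs, Int.cast_abs]

lemma toReal_sub (x y : Fin d → ℤ) : toReal (x - y) = toReal x - toReal y := by
  funext i; simp [toReal]

lemma toReal_add (x y : Fin d → ℤ) : toReal (x + y) = toReal x + toReal y := by
  funext i; simp [toReal]

lemma toReal_neg (x : Fin d → ℤ) : toReal (-x) = -toReal x := by
  funext i; simp [toReal]

lemma toReal_nsmul (n : ℕ) (x : Fin d → ℤ) : toReal (n • x) = (n : ℝ) • toReal x := by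
  funext i; simp [toReal]

lemma nr_add_le (x y : Fin d → ℝ) : nr (x + y) ≤ nr x + nr y := by
  unfold nr
  rw [← Finset.sum_add_distrib]
  exact Finset.sum_le_sum fun i _ => abs_add_le _ _

lemma nr_neg (x : Fin d → ℝ) : nr (-x) = nr x := by simp [nr]

lemma nr_smul (c : ℝ) (x : Fin d → ℝ) : nr (c • x) = |c| * nr x := by
  unfold nr
  rw [Finset.mul_sum]
  simp [abs_mul]

/-- integer part of `n θ` -/
noncomputable def fl (n : ℕ) (θ : Fin d → ℝ) : Fin d → ℤ := fun i => ⌊(n : ℝ) * θ i⌋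

lemma abs_fl_sub (n : ℕ) (θ : Fin d → ℝ) (i : Fin d) : |((fl n θ i : ℤ) : ℝ) - n * θ i| ≤ 1 := by
  unfold fl
  have h1 := Int.floor_le ((n : ℝ) * θ i)
  have h2 := Int.lt_floor_add_one ((n : ℝ) * θ i)
  rw [abs_le]; constructor <;> linarith

lemma nr_fl_sub (n : ℕ) (θ : Fin d → ℝ) : nr (toReal (fl n θ) - (n : ℝ) • θ) ≤ d := by
  unfold nr
  calc _ ≤ ∑ _i : Fin d, (1 : ℝ) := Finset.sum_le_sum fun i _ => by
        simpa [toReal] using abs_fl_sub n θ i
    _ = d := by simp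

lemma fl_zero (θ : Fin d → ℝ) : fl 0 θ = 0 := by
  funext i; simp [fl]

lemma gz_zero (h1 : Integrable (fun x : ℝ≥0 => (x : ℝ)) F) : gz F (0 : Fin d → ℤ) = 0 := by
  have := gz_nsmul h1 (0 : Fin d → ℤ) 0
  simpa using this

lemma fl_cross (h1 : Integrable (fun x : ℝ≥0 => (x : ℝ)) F) (θ : Fin d → ℝ) (m n : ℕ) :
    |m * gz F (fl n θ) - n * gz F (fl m θ)| ≤ mu1 F * (d * (m + n)) := by
  rw [← gz_nsmul h1, ← gz_nsmul h1]
  refine (gz_lip h1 _ _).trans ?_
  have hmu := mu1_nonneg (F := F)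
  gcongr
  rw [← nr_toReal, toReal_sub, toReal_nsmul, toReal_nsmul]
  have e : (m : ℝ) • toReal (fl n θ) - (n : ℝ) • toReal (fl m θ) =
      (m : ℝ) • (toReal (fl n θ) - (n : ℝ) • θ) + -((n : ℝ) • (toReal (fl m θ) - (m : ℝ) • θ)) := by
    funext i
    simp only [Pi.sub_apply, Pi.smul_apply, Pi.add_apply, Pi.neg_apply, smul_eq_mul]
    ring
  rw [e]
  refine (nr_add_le _ _).trans ?_
  rw [nr_neg, nr_smul, nr_smul, Nat.abs_cast, Nat.abs_cast]
  have a := nr_fl_sub n θ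
  have b := nr_fl_sub m θ
  have a' : (m : ℝ) * nr (toReal (fl n θ) - (n : ℝ) • θ) ≤ m * d := by gcongr
  have b' : (n : ℝ) * nr (toReal (fl m θ) - (m : ℝ) • θ) ≤ n * d := by gcongr
  linarith

lemma cauchy_fl (h1 : Integrable (fun x : ℝ≥0 => (x : ℝ)) F) (θ : Fin d → ℝ) :
    CauchySeq fun n : ℕ => gz F (fl (n + 1) θ) / ((n + 1 : ℕ) : ℝ) := by
  refine cauchySeq_of_le_tendsto_0' (fun n : ℕ => 2 * (mu1 F * d) / ((n + 1 : ℕ) : ℝ)) ?_ ?_
  · intro n m hnm
    have hn : (0 : ℝ) < ((n + 1 : ℕ) : ℝ) := by positivity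
    have hm : (0 : ℝ) < ((m + 1 : ℕ) : ℝ) := by positivity
    have h := fl_cross h1 θ (m + 1) (n + 1)
    rw [Real.dist_eq]
    have e : gz F (fl (n + 1) θ) / ((n + 1 : ℕ) : ℝ) - gz F (fl (m + 1) θ) / ((m + 1 : ℕ) : ℝ) =
        (((m + 1 : ℕ) : ℝ) * gz F (fl (n + 1) θ) - ((n + 1 : ℕ) : ℝ) * gz F (fl (m + 1) θ)) /
          (((n + 1 : ℕ) : ℝ) * ((m + 1 : ℕ) : ℝ)) := by
      field_simp
    rw [e, abs_div, abs_of_pos (mul_pos hn hm), div_le_div_iff₀ (mul_pos hn hm) hn]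
    have hmu := mu1_nonneg (F := F)
    have hle : ((n + 1 : ℕ) : ℝ) ≤ ((m + 1 : ℕ) : ℝ) := by exact_mod_cast Nat.succ_le_succ hnm
    calc _ ≤ mu1 F * (d * (((m + 1 : ℕ) : ℝ) + ((n + 1 : ℕ) : ℝ))) * ((n + 1 : ℕ) : ℝ) := by gcongr
      _ ≤ mu1 F * (d * (((m + 1 : ℕ) : ℝ) + ((m + 1 : ℕ) : ℝ))) * ((n + 1 : ℕ) : ℝ) := by gcongr
      _ = _ := by ring
  · have := (tendsto_const_div_atTop_nhds_zero_nat (2 * (mu1 F * d))).comp (tendsto_add_atTop_nat 1)
    exact this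

/-- the time constant on `ℝ^d` -/
noncomputable def G (F : Measure ℝ≥0) (θ : Fin d → ℝ) : ℝ :=
  limUnder atTop fun n : ℕ => gz F (fl (n + 1) θ) / ((n + 1 : ℕ) : ℝ)

lemma tendsto_G (h1 : Integrable (fun x : ℝ≥0 => (x : ℝ)) F) (θ : Fin d → ℝ) :
    Tendsto (fun n : ℕ => gz F (fl (n + 1) θ) / ((n + 1 : ℕ) : ℝ)) atTop (𝓝 (G F θ)) :=
  CauchySeq.tendsto_limUnder (cauchy_fl h1 θ)

lemma G_approx (h1 : Integrable (fun x : ℝ≥0 => (x : ℝ)) F) (θ : Fin d → ℝ) (n : ℕ) :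
    |gz F (fl n θ) - n * G F θ| ≤ mu1 F * d := by
  have hmu := mu1_nonneg (F := F)
  have h2 : Tendsto (fun m : ℕ => |gz F (fl n θ) -
      n * (gz F (fl (m + 1) θ) / ((m + 1 : ℕ) : ℝ))|) atTop (𝓝 |gz F (fl n θ) - n * G F θ|) :=
    (tendsto_const_nhds.sub ((tendsto_G h1 θ).const_mul _)).abs
  have h3 : Tendsto (fun m : ℕ => mu1 F * d + mu1 F * d * n / ((m + 1 : ℕ) : ℝ)) atTop
      (𝓝 (mu1 F * d + 0)) :=
    tendsto_const_nhds.add
      ((tendsto_const_div_atTop_nhds_zero_nat (mu1 F * d * n)).comp (tendsto_add_atTop_nat 1))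
  rw [add_zero] at h3
  refine le_of_tendsto_of_tendsto' h2 h3 fun m => ?_
  have hm : (0 : ℝ) < ((m + 1 : ℕ) : ℝ) := by positivity
  have h := fl_cross h1 θ (m + 1) n
  have e : gz F (fl n θ) - n * (gz F (fl (m + 1) θ) / ((m + 1 : ℕ) : ℝ)) =
      (((m + 1 : ℕ) : ℝ) * gz F (fl n θ) - n * gz F (fl (m + 1) θ)) / ((m + 1 : ℕ) : ℝ) := by
    field_simp
  rw [e, abs_div, abs_of_pos hm, div_le_iff₀ hm]
  refine h.trans (le_of_eq ?_)
  field_simp

lemma le_of_nat_mul {a b C : ℝ} (h : ∀ n : ℕ, n * a ≤ n * b + C) : a ≤ b := by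
  by_contra hcon
  push Not at hcon
  obtain ⟨n, hn⟩ := exists_nat_gt (C / (a - b))
  rw [div_lt_iff₀ (sub_pos.mpr hcon)] at hn
  have := h n
  nlinarith

lemma gz_sub_le (h1 : Integrable (fun x : ℝ≥0 => (x : ℝ)) F) (x y : Fin d → ℤ) :
    gz F x ≤ gz F y + mu1 F * nr (toReal x - toReal y) := by
  have := (abs_le.mp (gz_lip h1 x y)).2
  rw [← toReal_sub, nr_toReal]
  linarith

lemma G_toReal (h1 : Integrable (fun x : ℝ≥0 => (x : ℝ)) F) (x : Fin d → ℤ) :
    G F (toReal x) = gz F x := by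
  have hfl : ∀ n : ℕ, fl n (toReal x) = n • x := by
    intro n
    funext i
    simp only [fl, toReal, Pi.smul_apply, nsmul_eq_mul]
    have : (n : ℝ) * (x i : ℝ) = (((n : ℤ) * x i : ℤ) : ℝ) := by push_cast; ring
    rw [this, Int.floor_intCast]
  have h : ∀ n : ℕ, |(n : ℝ) * gz F x - n * G F (toReal x)| ≤ mu1 F * d := by
    intro n
    have := G_approx h1 (toReal x) n
    rwa [hfl, gz_nsmul h1] at this
  apply le_antisymm
  · refine le_of_nat_mul (C := mu1 F * d) fun n => ?_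
    have := (abs_le.mp (h n)).1
    linarith
  · refine le_of_nat_mul (C := mu1 F * d) fun n => ?_
    have := (abs_le.mp (h n)).2
    linarith

lemma G_lip (h1 : Integrable (fun x : ℝ≥0 => (x : ℝ)) F) (θ η : Fin d → ℝ) :
    G F θ ≤ G F η + mu1 F * nr (θ - η) := by
  have hmu := mu1_nonneg (F := F)
  refine le_of_nat_mul (C := 4 * (mu1 F * d)) fun n => ?_
  have h2 := (abs_le.mp (G_approx h1 θ n)).1
  have h3 := (abs_le.mp (G_approx h1 η n)).2
  have h4 := gz_sub_le h1 (fl n θ) (fl n η)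
  have h5 : nr (toReal (fl n θ) - toReal (fl n η)) ≤ n * nr (θ - η) + 2 * d := by
    have e : toReal (fl n θ) - toReal (fl n η) = (toReal (fl n θ) - (n : ℝ) • θ) +
        -(toReal (fl n η) - (n : ℝ) • η) + (n : ℝ) • (θ - η) := by
      funext i
      simp only [Pi.sub_apply, Pi.smul_apply, Pi.add_apply, Pi.neg_apply, smul_eq_mul]
      ring
    rw [e]
    refine (nr_add_le _ _).trans ?_
    have h6 := nr_add_le (toReal (fl n θ) - (n : ℝ) • θ) (-(toReal (fl n η) - (n : ℝ) • η))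
    rw [nr_neg] at h6
    rw [nr_smul, Nat.abs_cast]
    have := nr_fl_sub n θ
    have := nr_fl_sub n η
    linarith
  have h7 : mu1 F * nr (toReal (fl n θ) - toReal (fl n η)) ≤
      mu1 F * (n * nr (θ - η) + 2 * d) := by gcongr
  nlinarith

lemma G_add_le (h1 : Integrable (fun x : ℝ≥0 => (x : ℝ)) F) (θ η : Fin d → ℝ) :
    G F (θ + η) ≤ G F θ + G F η := by
  have hmu := mu1_nonneg (F := F)
  refine le_of_nat_mul (C := 6 * (mu1 F * d)) fun n => ?_
  have h2 := (abs_le.mp (G_approx h1 (θ + η) n)).1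
  have h3 := (abs_le.mp (G_approx h1 η n)).2
  have h3' := (abs_le.mp (G_approx h1 θ n)).2
  have h4 := gz_sub_le h1 (fl n (θ + η)) (fl n θ + fl n η)
  have h4' := gz_add_le h1 (fl n θ) (fl n η)
  have h5 : nr (toReal (fl n (θ + η)) - toReal (fl n θ + fl n η)) ≤ 3 * d := by
    have e : toReal (fl n (θ + η)) - toReal (fl n θ + fl n η) =
        (toReal (fl n (θ + η)) - (n : ℝ) • (θ + η)) + -(toReal (fl n θ) - (n : ℝ) • θ) +
        -(toReal (fl n η) - (n : ℝ) • η) := by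
      funext i
      simp only [toReal_add, Pi.sub_apply, Pi.smul_apply, Pi.add_apply, Pi.neg_apply, smul_eq_mul]
      ring
    rw [e]
    refine (nr_add_le _ _).trans ?_
    have h6 := nr_add_le (toReal (fl n (θ + η)) - (n : ℝ) • (θ + η))
      (-(toReal (fl n θ) - (n : ℝ) • θ))
    rw [nr_neg] at h6 ⊢
    have := nr_fl_sub n θ
    have := nr_fl_sub n η
    have := nr_fl_sub n (θ + η)
    linarith
  have h7 : mu1 F * nr (toReal (fl n (θ + η)) - toReal (fl n θ + fl n η)) ≤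
      mu1 F * (3 * d) := by gcongr
  nlinarith

lemma G_neg (h1 : Integrable (fun x : ℝ≥0 => (x : ℝ)) F) (θ : Fin d → ℝ) :
    G F (-θ) = G F θ := by
  have hle : ∀ η : Fin d → ℝ, G F (-η) ≤ G F η := by
    intro η
    have hmu := mu1_nonneg (F := F)
    refine le_of_nat_mul (C := 4 * (mu1 F * d)) fun n => ?_
    have h2 := (abs_le.mp (G_approx h1 (-η) n)).1
    have h3 := (abs_le.mp (G_approx h1 η n)).2
    have h4 := gz_sub_le h1 (fl n (-η)) (-fl n η)
    rw [gz_neg] at h4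
    have h5 : nr (toReal (fl n (-η)) - toReal (-fl n η)) ≤ 2 * d := by
      have e : toReal (fl n (-η)) - toReal (-fl n η) =
          (toReal (fl n (-η)) - (n : ℝ) • (-η)) + (toReal (fl n η) - (n : ℝ) • η) := by
        funext i
        simp only [toReal_neg, Pi.sub_apply, Pi.smul_apply, Pi.add_apply, Pi.neg_apply,
          smul_eq_mul]
        ring
      rw [e]
      refine (nr_add_le _ _).trans ?_
      have := nr_fl_sub n η
      have := nr_fl_sub n (-η)
      linarith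
    have h7 : mu1 F * nr (toReal (fl n (-η)) - toReal (-fl n η)) ≤
        mu1 F * (2 * d) := by gcongr
    nlinarith
  refine le_antisymm (hle θ) ?_
  have := hle (-θ)
  rwa [neg_neg] at this

lemma G_zero (h1 : Integrable (fun x : ℝ≥0 => (x : ℝ)) F) : G F (0 : Fin d → ℝ) = 0 := by
  have h : toReal (0 : Fin d → ℤ) = 0 := by funext i; simp [toReal]
  rw [← h, G_toReal h1, gz_zero h1]

lemma G_nonneg (h1 : Integrable (fun x : ℝ≥0 => (x : ℝ)) F) (θ : Fin d → ℝ) : 0 ≤ G F θ :=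
  ge_of_tendsto' (tendsto_G h1 θ) fun n => by
    have := gz_nonneg (F := F) h1 (fl (n + 1) θ)
    positivity

lemma G_smul (h1 : Integrable (fun x : ℝ≥0 => (x : ℝ)) F) {c : ℝ} (hc : 0 ≤ c)
    (θ : Fin d → ℝ) : G F (c • θ) = c * G F θ := by
  have hmu := mu1_nonneg (F := F)
  have hG := G_nonneg h1 θ
  have hnr := nr_nonneg θ
  -- compare `n c θ` with `m θ`, `m = ⌊n c⌋`
  have key : ∀ n : ℕ, |gz F (fl n (c • θ)) - n * (c * G F θ)| ≤
      mu1 F * (2 * d + nr θ) + (mu1 F * d + G F θ) := by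
    intro n
    set m := ⌊(n : ℝ) * c⌋₊ with hm
    have hnc : 0 ≤ (n : ℝ) * c := by positivity
    have hm1 : (m : ℝ) ≤ n * c := Nat.floor_le hnc
    have hm2 : (n : ℝ) * c < m + 1 := Nat.lt_floor_add_one _
    have h2 := abs_le.mp (G_approx h1 θ m)
    have h5 : nr (toReal (fl n (c • θ)) - toReal (fl m θ)) ≤ 2 * d + nr θ := by
      have e : toReal (fl n (c • θ)) - toReal (fl m θ) =
          (toReal (fl n (c • θ)) - (n : ℝ) • (c • θ)) + -(toReal (fl m θ) - (m : ℝ) • θ) +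
            ((n : ℝ) * c - m) • θ := by
        funext i
        simp only [Pi.sub_apply, Pi.smul_apply, Pi.add_apply, Pi.neg_apply, smul_eq_mul]
        ring
      rw [e]
      refine (nr_add_le _ _).trans ?_
      have h6 := nr_add_le (toReal (fl n (c • θ)) - (n : ℝ) • (c • θ))
        (-(toReal (fl m θ) - (m : ℝ) • θ))
      rw [nr_neg] at h6
      have := nr_fl_sub n (c • θ)
      have := nr_fl_sub m θ
      rw [nr_smul ((n : ℝ) * c - m)]
      have h7 : |(n : ℝ) * c - m| ≤ 1 := by rw [abs_le]; constructor <;> linarith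
      have h8 : |(n : ℝ) * c - m| * nr θ ≤ 1 * nr θ := by gcongr
      linarith
    have h7 : mu1 F * nr (toReal (fl n (c • θ)) - toReal (fl m θ)) ≤
        mu1 F * (2 * d + nr θ) := by gcongr
    have h8 := gz_sub_le h1 (fl n (c • θ)) (fl m θ)
    have h9 := gz_sub_le h1 (fl m θ) (fl n (c • θ))
    have h10 : nr (toReal (fl m θ) - toReal (fl n (c • θ))) =
        nr (toReal (fl n (c • θ)) - toReal (fl m θ)) := by
      rw [← nr_neg, neg_sub]
    rw [h10] at h9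
    have h11 : (m : ℝ) * G F θ ≤ n * c * G F θ := by gcongr
    have h12 : (n : ℝ) * c * G F θ ≤ (m + 1) * G F θ := by gcongr
    rw [abs_le]
    constructor <;> nlinarith
  apply le_antisymm
  · refine le_of_nat_mul (C := mu1 F * d + (mu1 F * (2 * d + nr θ) + (mu1 F * d + G F θ)))
      fun n => ?_
    have h2 := (abs_le.mp (G_approx h1 (c • θ) n)).1
    have h3 := (abs_le.mp (key n)).2
    linarith
  · refine le_of_nat_mul (C := mu1 F * d + (mu1 F * (2 * d + nr θ) + (mu1 F * d + G F θ)))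
      fun n => ?_
    have h2 := (abs_le.mp (G_approx h1 (c • θ) n)).2
    have h3 := (abs_le.mp (key n)).1
    linarith

/-- the time constant as a seminorm -/
noncomputable def Gs (F : Measure ℝ≥0) [IsProbabilityMeasure F]
    (h1 : Integrable (fun x : ℝ≥0 => (x : ℝ)) F) (d : ℕ) : Seminorm ℝ (Fin d → ℝ) :=
  Seminorm.of (G F) (G_add_le h1) (by
    intro a x
    rcases le_total 0 a with h | h
    · rw [G_smul h1 h, Real.norm_eq_abs, abs_of_nonneg h]
    · have e : a • x = (-a) • (-x) := by simp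
      rw [e, G_smul h1 (neg_nonneg.mpr h), G_neg h1, Real.norm_eq_abs, abs_of_nonpos h])

lemma Gs_apply (h1 : Integrable (fun x : ℝ≥0 => (x : ℝ)) F) (θ : Fin d → ℝ) :
    Gs F h1 d θ = G F θ := rfl

end Pool.Agent.H55.FPP
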