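import Pool.Agent.H55.FPP.Star

/-!
# First-passage percolation: geodesics as sequences, the good paths
-/

open MeasureTheory Filter ProbabilityTheory
open scoped NNReal Topology

namespace Pool.Agent.H55.FPP

variable {d : ℕ} {F : Measure ℝ≥0} [IsProbabilityMeasure F]

lemma T_adj_le (ω : Env d) {u v : Fin d → ℤ} (h : (lattice d).Adj u v) :
    passageTime ω u v ≤ ω s(u, v) := by
  have := T_le_weight ω (SimpleGraph.Walk.cons h SimpleGraph.Walk.nil)
  rwa [weight_cons, weight_nil, add_zero] at this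

lemma seq_T_le (ω : Env d) {γ : ℕ → Fin d → ℤ} {M : ℕ}
    (hadj : ∀ i < M, (lattice d).Adj (γ i) (γ (i + 1))) {a b : ℕ} (hab : a ≤ b) (hb : b ≤ M) :
    passageTime ω (γ a) (γ b) ≤ ∑ i ∈ Finset.Ico a b, (ω s(γ i, γ (i + 1)) : ℝ) := by
  induction b, hab using Nat.le_induction with
  | base => simp [T_self]
  | succ b hab ih =>
    rw [Finset.sum_Ico_succ_top hab]
    have h1 := T_triangle ω (γ a) (γ b) (γ (b + 1))
    have h2 := T_adj_le ω (hadj b (by omega))
    have h3 := ih (by omega)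
    linarith

lemma seq_T_eq (ω : Env d) {γ : ℕ → Fin d → ℤ} {M : ℕ}
    (hadj : ∀ i < M, (lattice d).Adj (γ i) (γ (i + 1)))
    (hsum : ∑ i ∈ Finset.range M, (ω s(γ i, γ (i + 1)) : ℝ) = passageTime ω (γ 0) (γ M))
    {a b : ℕ} (hab : a ≤ b) (hb : b ≤ M) :
    ∑ i ∈ Finset.Ico a b, (ω s(γ i, γ (i + 1)) : ℝ) = passageTime ω (γ a) (γ b) := by
  refine le_antisymm ?_ (seq_T_le ω hadj hab hb)
  have h1 := seq_T_le ω hadj (Nat.zero_le a) (hab.trans hb)
  have h2 := seq_T_le ω hadj hb le_rfl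
  have h3 := T_triangle ω (γ 0) (γ a) (γ M)
  have h4 := T_triangle ω (γ a) (γ b) (γ M)
  have h5 := Finset.sum_Ico_consecutive (fun i => (ω s(γ i, γ (i + 1)) : ℝ))
    (Nat.zero_le a) (hab.trans hb)
  have h6 := Finset.sum_Ico_consecutive (fun i => (ω s(γ i, γ (i + 1)) : ℝ)) hab hb
  rw [Finset.range_eq_Ico] at hsum
  linarith

lemma seq_n1 {γ : ℕ → Fin d → ℤ} {M : ℕ}
    (hadj : ∀ i < M, (lattice d).Adj (γ i) (γ (i + 1))) {t : ℕ} (ht : t ≤ M) :
    n1 (γ t - γ 0) ≤ t := by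
  induction t with
  | zero => simp [n1_zero]
  | succ t ih =>
    have h1 := ih (by omega)
    have h2 := adj_iff.mp (hadj t (by omega))
    have h3 := n1_sub_le (γ (t + 1)) (γ t) (γ 0)
    rw [n1_sub_comm (γ (t + 1)) (γ t)] at h3
    omega

lemma weight_eq_getVert (ω : Env d) {u v : Fin d → ℤ} (p : (lattice d).Walk u v) :
    weight ω p = ∑ t ∈ Finset.range p.length, (ω s(p.getVert t, p.getVert (t + 1)) : ℝ) := by
  induction p with
  | nil => simp [weight_nil]
  | cons h p ih =>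
    rw [weight_cons, SimpleGraph.Walk.length_cons, Finset.sum_range_succ', ih]
    simp only [SimpleGraph.Walk.getVert_cons_succ, SimpleGraph.Walk.getVert_zero]
    ring

/-- `γ` is a geodesic from `0` with `M` steps which satisfies the first `M` star conditions. -/
def GoodPath (F : Measure ℝ≥0) (θ : Fin d → ℝ) (Ks : ℕ → ℕ) (M : ℕ) (ω : Env d)
    (γ : ℕ → Fin d → ℤ) : Prop :=
  γ 0 = 0 ∧ (∀ i < M, (lattice d).Adj (γ i) (γ (i + 1))) ∧
    (∑ i ∈ Finset.range M, (ω s(γ i, γ (i + 1)) : ℝ) = passageTime ω 0 (γ M)) ∧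
    ∀ t ≤ M, ∀ l < M, Ks l ≤ n1 (γ t) → Star F θ (1 / ((l : ℝ) + 1)) (γ t)

omit [IsProbabilityMeasure F] in
lemma GoodPath.mono {θ : Fin d → ℝ} {Ks : ℕ → ℕ} {M M' : ℕ} {ω : Env d}
    {γ : ℕ → Fin d → ℤ} (h : GoodPath F θ Ks M ω γ) (hM : M' ≤ M) : GoodPath F θ Ks M' ω γ := by
  obtain ⟨h0, h1, h2, h3⟩ := h
  refine ⟨h0, fun i hi => h1 i (by omega), ?_, fun t ht l hl => h3 t (by omega) l (by omega)⟩
  have := seq_T_eq ω h1 (by rw [h2, h0]) (Nat.zero_le M') hM
  rw [← Finset.range_eq_Ico, h0] at this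
  exact this

/-- extend a finite sequence by `0` -/
def ext (M : ℕ) (γ : Fin (M + 1) → Fin d → ℤ) : ℕ → Fin d → ℤ :=
  fun i => if h : i < M + 1 then γ ⟨i, h⟩ else 0

lemma ext_apply {M : ℕ} (γ : ℕ → Fin d → ℤ) {i : ℕ} (hi : i ≤ M) :
    ext M (fun j : Fin (M + 1) => γ j) i = γ i := by
  unfold ext
  rw [dif_pos (by omega)]

omit [IsProbabilityMeasure F] in
lemma GoodPath.ext {θ : Fin d → ℝ} {Ks : ℕ → ℕ} {M : ℕ} {ω : Env d}
    {γ : ℕ → Fin d → ℤ} (h : GoodPath F θ Ks M ω γ) :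
    GoodPath F θ Ks M ω (ext M (fun j : Fin (M + 1) => γ j)) := by
  obtain ⟨h0, h1, h2, h3⟩ := h
  refine ⟨?_, ?_, ?_, ?_⟩
  · rw [ext_apply γ (Nat.zero_le _)]; exact h0
  · intro i hi
    rw [ext_apply γ hi.le, ext_apply γ hi]
    exact h1 i hi
  · rw [ext_apply γ le_rfl, ← h2]
    refine Finset.sum_congr rfl fun i hi => ?_
    rw [Finset.mem_range] at hi
    rw [ext_apply γ hi.le, ext_apply γ hi]
  · intro t ht l hl hK
    rw [ext_apply γ ht] at hK ⊢
    exact h3 t ht l hl hK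

/-- the event that there is a good path with `M` steps -/
def GoodEv (F : Measure ℝ≥0) (θ : Fin d → ℝ) (Ks : ℕ → ℕ) (M : ℕ) : Set (Env d) :=
  {ω | ∃ γ, GoodPath F θ Ks M ω γ}

omit [IsProbabilityMeasure F] in
lemma measurableSet_GoodEv (θ : Fin d → ℝ) (Ks : ℕ → ℕ) (M : ℕ) :
    MeasurableSet (GoodEv F θ Ks M) := by
  have : GoodEv F θ Ks M = ⋃ γ : Fin (M + 1) → Fin d → ℤ, {ω | GoodPath F θ Ks M ω (ext M γ)} := by
    ext ω
    simp only [GoodEv, Set.mem_ofPred_eq, Set.mem_iUnion]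
    constructor
    · rintro ⟨γ, hγ⟩
      exact ⟨_, hγ.ext⟩
    · rintro ⟨γ, hγ⟩
      exact ⟨_, hγ⟩
  rw [this]
  refine MeasurableSet.iUnion fun γ => ?_
  unfold GoodPath
  have hm : MeasurableSet {ω : Env d | ∑ i ∈ Finset.range M,
      (ω s(ext M γ i, ext M γ (i + 1)) : ℝ) = passageTime ω 0 (ext M γ M)} := by
    refine measurableSet_eq_fun (Finset.measurable_sum _ fun i _ => ?_) (measurable_T _ _)
    exact measurable_coe_nnreal_real.comp
      (measurable_pi_apply (X := fun _ => ℝ≥0) s(ext M γ i, ext M γ (i + 1)))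
  exact (MeasurableSet.const _).inter ((MeasurableSet.const _).inter
    (hm.inter (MeasurableSet.const _)))

omit [IsProbabilityMeasure F] in
/-- A geodesic from `b` to `0` whose first steps satisfy the star conditions gives a good path of
the environment seen from `b`. -/
lemma goodEv_of_geodesic {θ : Fin d → ℝ} {Ks : ℕ → ℕ} {M : ℕ} {ω : Env d} {b : Fin d → ℤ}
    (hMb : M ≤ n1 b) (p : (lattice d).Walk b 0) (hp : weight ω p = passageTime ω b 0)
    (hstar : ∀ y : Fin d → ℤ, passageTime ω b y + passageTime ω y 0 = passageTime ω b 0 →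
      n1 (y - b) ≤ M → ∀ l < M, Ks l ≤ n1 (y - b) → Star F θ (1 / ((l : ℝ) + 1)) (y - b)) :
    shift b ω ∈ GoodEv F θ Ks M := by
  have hlen : M ≤ p.length := by
    have := n1_sub_le_length p
    rw [sub_zero] at this
    omega
  have hadj : ∀ i < p.length, (lattice d).Adj (p.getVert i) (p.getVert (i + 1)) :=
    fun i hi => p.adj_getVert_succ hi
  have hsum : ∑ i ∈ Finset.range p.length, (ω s(p.getVert i, p.getVert (i + 1)) : ℝ) =
      passageTime ω (p.getVert 0) (p.getVert p.length) := by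
    rw [← weight_eq_getVert, hp, SimpleGraph.Walk.getVert_zero, SimpleGraph.Walk.getVert_length]
  refine ⟨fun t => p.getVert t - b, by simp, ?_, ?_, ?_⟩
  · intro i hi
    have := hadj i (by omega)
    rw [adj_iff] at this ⊢
    simpa using this
  · have h1 := seq_T_eq ω hadj hsum (Nat.zero_le M) hlen
    rw [← Finset.range_eq_Ico, SimpleGraph.Walk.getVert_zero] at h1
    rw [T_shift, zero_add, sub_add_cancel, ← h1]
    refine Finset.sum_congr rfl fun i _ => ?_
    unfold shift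
    rw [trE_mk, sub_add_cancel, sub_add_cancel]
  · intro t ht l hl hK
    have h1 := seq_T_eq ω hadj hsum (Nat.zero_le t) (ht.trans hlen)
    have h2 := seq_T_eq ω hadj hsum (ht.trans hlen) le_rfl
    have h3 := Finset.sum_Ico_consecutive (fun i => (ω s(p.getVert i, p.getVert (i + 1)) : ℝ))
      (Nat.zero_le t) (ht.trans hlen)
    rw [Finset.range_eq_Ico] at hsum
    rw [SimpleGraph.Walk.getVert_zero] at h1 hsum
    rw [SimpleGraph.Walk.getVert_length] at h2 hsum
    refine hstar (p.getVert t) (by linarith) ?_ l hl hK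
    have h4 := seq_n1 hadj (ht.trans hlen)
    rw [SimpleGraph.Walk.getVert_zero] at h4
    exact h4.trans ht

end Pool.Agent.H55.FPP
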