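import Pool.Agent.H55.FPP.Path

/-!
# First-passage percolation: selection of the base point, compactness
-/

open MeasureTheory Filter ProbabilityTheory
open scoped NNReal Topology

namespace Pool.Agent.H55.FPP

variable {d : ℕ} {F : Measure ℝ≥0} [IsProbabilityMeasure F]

lemma n1_pt_ge (θ : Fin d → ℝ) (i : ℕ) : i * nr θ - d ≤ (n1 (pt θ i) : ℝ) := by
  rw [← nr_toReal]
  have h := nr_add_le (toReal (pt θ i) + (i : ℝ) • θ) (-(toReal (pt θ i)))
  have e : toReal (pt θ i) + (i : ℝ) • θ + -(toReal (pt θ i)) = (i : ℝ) • θ := by abel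
  rw [e, nr_neg, nr_smul, Nat.abs_cast] at h
  have := nr_pt θ i
  linarith

lemma nr_pos {θ : Fin d → ℝ} (hθ : θ ≠ 0) : 0 < nr θ := by
  obtain ⟨i, hi⟩ := Function.ne_iff.mp hθ
  unfold nr
  exact lt_of_lt_of_le (abs_pos.mpr hi)
    (Finset.single_le_sum (f := fun i => |θ i|) (fun i _ => abs_nonneg _) (Finset.mem_univ i))

lemma exists_Ks {β : ℝ} (hβ : 0 < β)
    (hint : Integrable (fun x : ℝ≥0 => Real.exp (β * x)) F) [NullSingletonClass F]
    {θ : Fin d → ℝ} (hθ : θ ≠ 0) {δ : ℝ} (hδ : 0 < δ) :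
    ∃ Ks : ℕ → ℕ, ∀ M, (law d F).real (GoodEv F θ Ks M)ᶜ ≤ δ := by
  have hδl : ∀ l : ℕ, 0 < δ / 2 * (1 / 2) ^ (l + 1) := fun l => by positivity
  choose L Ks C B hL hBm hBs hBstar using fun l : ℕ =>
    level (F := F) hβ hint θ (ε := 1 / ((l : ℝ) + 1)) (δ := δ / 2 * (1 / 2) ^ (l + 1))
      (by positivity) (hδl l)
  refine ⟨Ks, fun M => ?_⟩
  set N := 2 * (M + 1) with hN
  set P0 := ∏ l ∈ Finset.range M, L l with hP0
  have hP0pos : 0 < P0 := Finset.prod_pos fun l _ => hL l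
  set D : ℝ := ∑ l ∈ Finset.range M, (δ / 2 * (1 / 2) ^ (l + 1) * (N * L l) + C l) with hD
  set i₀ := ⌈((M : ℝ) + d) / nr θ⌉₊ with hi₀
  set S : ℕ → ℝ := fun i => ∑ l ∈ Finset.range M, (law d F).real (B l N i) with hS
  have hSnn : ∀ i, 0 ≤ S i := fun i => Finset.sum_nonneg fun l _ => measureReal_nonneg
  have hgeo : ∑ l ∈ Finset.range M, δ / 2 * (1 / 2 : ℝ) ^ (l + 1) ≤ δ / 2 := by
    rw [← Finset.mul_sum]
    have : ∑ l ∈ Finset.range M, (1 / 2 : ℝ) ^ (l + 1) ≤ 1 := by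
      have h1 : ∑ l ∈ Finset.range M, (1 / 2 : ℝ) ^ (l + 1) = 1 - (1 / 2) ^ M := by
        clear_value P0 D S
        clear hD hS hP0 hSnn hP0pos P0 D S hN N hi₀ i₀
        induction M with
        | zero => simp
        | succ M ih => rw [Finset.sum_range_succ, ih]; ring
      rw [h1]
      have : (0 : ℝ) ≤ (1 / 2) ^ M := by positivity
      linarith
    nlinarith
  have hsum : ∀ R : ℕ, ∑ i ∈ Finset.range (R * P0), S i ≤ δ / 2 * ((R * P0 : ℕ) : ℝ) + D := by
    intro R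
    rw [hS, Finset.sum_comm]
    calc ∑ l ∈ Finset.range M, ∑ i ∈ Finset.range (R * P0), (law d F).real (B l N i)
        ≤ ∑ l ∈ Finset.range M, (δ / 2 * (1 / 2) ^ (l + 1) * ((R * P0 : ℕ) : ℝ) +
            (δ / 2 * (1 / 2) ^ (l + 1) * (N * L l) + C l)) := by
          refine Finset.sum_le_sum fun l hl => ?_
          obtain ⟨q, hq⟩ := Finset.dvd_prod_of_mem L hl
          have e : R * P0 = (R * q) * L l := by rw [hP0, hq]; ring
          rw [e]
          refine (hBs l N (R * q)).trans (le_of_eq ?_)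
          push_cast
          ring
      _ = (∑ l ∈ Finset.range M, δ / 2 * (1 / 2 : ℝ) ^ (l + 1)) * ((R * P0 : ℕ) : ℝ) + D := by
          rw [Finset.sum_add_distrib, ← Finset.sum_mul]
      _ ≤ _ := by gcongr
  obtain ⟨i, hi, hSi⟩ : ∃ i, i₀ ≤ i ∧ S i ≤ δ := by
    by_contra hcon
    push Not at hcon
    obtain ⟨R, hR⟩ := exists_nat_gt (2 * (i₀ * δ + |D|) / δ + i₀)
    have hU : (R : ℝ) ≤ ((R * P0 : ℕ) : ℝ) := by
      exact_mod_cast Nat.le_mul_of_pos_right _ hP0pos
    set U := R * P0 with hUdef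
    have h0 : 0 ≤ 2 * (i₀ * δ + |D|) / δ := by positivity
    have hi₀U : i₀ ≤ U := by
      have : (i₀ : ℝ) ≤ U := by linarith
      exact_mod_cast this
    have h1 : ((U : ℝ) - i₀) * δ ≤ ∑ i ∈ Finset.Ico i₀ U, S i := by
      calc ((U : ℝ) - i₀) * δ = ∑ _i ∈ Finset.Ico i₀ U, δ := by
            rw [Finset.sum_const, Nat.card_Ico, nsmul_eq_mul, Nat.cast_sub hi₀U]
        _ ≤ _ := Finset.sum_le_sum fun i hi => (hcon i (Finset.mem_Ico.mp hi).1).le
    have h2 : ∑ i ∈ Finset.Ico i₀ U, S i ≤ ∑ i ∈ Finset.range U, S i := by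
      refine Finset.sum_le_sum_of_subset_of_nonneg ?_ fun i _ _ => hSnn i
      intro i hi
      exact Finset.mem_range.mpr (Finset.mem_Ico.mp hi).2
    have h3 := hsum R
    rw [← hUdef] at h3
    have h4 : δ / 2 * U ≤ i₀ * δ + |D| := by
      have := le_abs_self D
      nlinarith
    have h5 : 2 * (i₀ * δ + |D|) / δ < U := by
      have : (0 : ℝ) ≤ i₀ := Nat.cast_nonneg _
      linarith
    rw [div_lt_iff₀ hδ] at h5
    linarith
  -- the base point
  set b := pt θ i with hb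
  have hMb : M ≤ n1 b := by
    have h1 := n1_pt_ge θ i
    have hi' : ((i₀ : ℕ) : ℝ) ≤ i := Nat.cast_le.mpr hi
    have h2 : ((M : ℝ) + d) / nr θ ≤ i := (Nat.le_ceil _).trans hi'
    rw [div_le_iff₀ (nr_pos hθ)] at h2
    have : (M : ℝ) ≤ n1 b := by linarith
    exact_mod_cast this
  obtain ⟨c, hc, hslow⟩ := ae_slowFrom (d := d) (F := F)
  have hslow' : law d F {ω | ¬ ∀ u, SlowFrom c ω u} = 0 := by
    rwa [ae_iff] at hslow
  have hsub : shift b ⁻¹' (GoodEv F θ Ks M)ᶜ ⊆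
      (⋃ l ∈ Finset.range M, B l N i) ∪ {ω | ¬ ∀ u, SlowFrom c ω u} := by
    intro ω hω
    by_contra hcon
    rw [Set.mem_union, not_or] at hcon
    obtain ⟨hB, hs⟩ := hcon
    simp only [Set.mem_ofPred_eq, not_not] at hs
    simp only [Set.mem_iUnion, not_exists, Finset.mem_range] at hB
    apply hω
    obtain ⟨p, -, hp⟩ := exists_geodesic hc (hs b) 0
    refine goodEv_of_geodesic hMb p hp ?_
    intro y hy hyM l hl hKy
    refine hBstar l N i ω (hB l hl) y hy hKy ?_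
    rw [← hb]
    omega
  calc (law d F).real (GoodEv F θ Ks M)ᶜ
      = (law d F).real (shift b ⁻¹' (GoodEv F θ Ks M)ᶜ) := by
        unfold Measure.real
        rw [(measurePreserving_shift (F := F) b).measure_preimage
          (measurableSet_GoodEv θ Ks M).compl.nullMeasurableSet]
    _ ≤ (law d F).real ((⋃ l ∈ Finset.range M, B l N i) ∪ {ω | ¬ ∀ u, SlowFrom c ω u}) :=
        measureReal_mono hsub
    _ ≤ (law d F).real (⋃ l ∈ Finset.range M, B l N i) +
        (law d F).real {ω | ¬ ∀ u, SlowFrom c ω u} := measureReal_union_le _ _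
    _ ≤ S i + 0 := by
        gcongr
        · exact measureReal_biUnion_finset_le _ _
        · unfold Measure.real
          rw [hslow']; simp
    _ ≤ δ := by linarith

omit [IsProbabilityMeasure F] in
/-- Compactness: if there are good paths with `M` steps for all `M`, there is an infinite one. -/
lemma exists_infinite {θ : Fin d → ℝ} {Ks : ℕ → ℕ} {ω : Env d}
    (h : ∀ M, ω ∈ GoodEv F θ Ks M) : ∃ γ, ∀ M, GoodPath F θ Ks M ω γ := by
  set A : ℕ → Set (ℕ → Fin d → ℤ) := fun M =>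
    {γ | GoodPath F θ Ks M ω γ} ∩ Set.pi Set.univ fun i => (box d i : Set (Fin d → ℤ)) with hA
  have hcomp : IsCompact (Set.pi Set.univ fun i : ℕ => (box d i : Set (Fin d → ℤ))) :=
    isCompact_univ_pi fun i => (box d i).finite_toSet.isCompact
  have hclosed : ∀ M, IsClosed {γ | GoodPath F θ Ks M ω γ} := by
    intro M
    have hc : ∀ i : ℕ, Continuous fun γ : ℕ → Fin d → ℤ => γ i := fun i => continuous_apply i
    have h0 : IsClosed {γ : ℕ → Fin d → ℤ | γ 0 = 0} := isClosed_eq (hc 0) continuous_const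
    have h1 : IsClosed {γ : ℕ → Fin d → ℤ | ∀ i < M, (lattice d).Adj (γ i) (γ (i + 1))} := by
      have : {γ : ℕ → Fin d → ℤ | ∀ i < M, (lattice d).Adj (γ i) (γ (i + 1))} =
          ⋂ i ∈ {i | i < M}, (fun γ : ℕ → Fin d → ℤ => (γ i, γ (i + 1))) ⁻¹'
            {q | (lattice d).Adj q.1 q.2} := by
        ext γ; simp
      rw [this]
      exact isClosed_biInter fun i _ =>
        (isClosed_discrete _).preimage ((hc i).prodMk (hc (i + 1)))
    have h2 : IsClosed {γ : ℕ → Fin d → ℤ | ∑ i ∈ Finset.range M, (ω s(γ i, γ (i + 1)) : ℝ) =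
        passageTime ω 0 (γ M)} := by
      refine isClosed_eq (continuous_finsetSum _ fun i _ => ?_) ?_
      · exact (continuous_of_discreteTopology (f := fun q : (Fin d → ℤ) × (Fin d → ℤ) =>
          (ω s(q.1, q.2) : ℝ))).comp ((hc i).prodMk (hc (i + 1)))
      · exact (continuous_of_discreteTopology (f := fun q : Fin d → ℤ =>
          passageTime ω 0 q)).comp (hc M)
    have h3 : IsClosed {γ : ℕ → Fin d → ℤ | ∀ t ≤ M, ∀ l < M, Ks l ≤ n1 (γ t) →
        Star F θ (1 / ((l : ℝ) + 1)) (γ t)} := by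
      have : {γ : ℕ → Fin d → ℤ | ∀ t ≤ M, ∀ l < M, Ks l ≤ n1 (γ t) →
          Star F θ (1 / ((l : ℝ) + 1)) (γ t)} =
          ⋂ t ∈ {t | t ≤ M}, (fun γ : ℕ → Fin d → ℤ => γ t) ⁻¹'
            {q | ∀ l < M, Ks l ≤ n1 q → Star F θ (1 / ((l : ℝ) + 1)) q} := by
        ext γ; simp
      rw [this]
      exact isClosed_biInter fun t _ => (isClosed_discrete _).preimage (hc t)
    exact h0.inter (h1.inter (h2.inter h3))
  have hne : ∀ M, (A M).Nonempty := by
    intro M
    obtain ⟨γ, hγ⟩ := h M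
    refine ⟨_, hγ.ext, ?_⟩
    intro i _
    by_cases hi : i ≤ M
    · rw [ext_apply γ hi]
      apply mem_box
      have := seq_n1 hγ.2.1 hi
      rwa [hγ.1, sub_zero] at this
    · unfold ext
      rw [dif_neg (by omega)]
      apply mem_box
      rw [n1_zero]
      exact Nat.zero_le _
  have hmono : ∀ M, A (M + 1) ⊆ A M := by
    rintro M γ ⟨h1, h2⟩
    exact ⟨GoodPath.mono h1 (Nat.le_succ M), h2⟩
  obtain ⟨γ, hγ⟩ := IsCompact.nonempty_iInter_of_sequence_nonempty_isCompact_isClosed A hmono hne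
    (hcomp.inter_left (hclosed 0)) (fun M => (hclosed M).inter hcomp.isClosed)
  rw [Set.mem_iInter] at hγ
  exact ⟨γ, fun M => (hγ M).1⟩

end Pool.Agent.H55.FPP
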