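import Pool.Agent.H55.FPP.Norm
import Pool.Agent.H55.FPP.Dir

/-!
# First-passage percolation: the shape theorem
-/

open MeasureTheory Filter ProbabilityTheory
open scoped NNReal Topology

namespace Pool.Agent.H55.FPP

variable {d : ℕ} {F : Measure ℝ≥0} [IsProbabilityMeasure F]

lemma exists_grid (N K : ℕ) (hN : 0 < N) (v : Fin d → ℤ) (hv : n1 v ≤ N * K) :
    ∃ z ∈ box d (K + 1), n1 (v - N • z) ≤ d * N := by
  refine ⟨fun i => v i / (N : ℤ), ?_, ?_⟩
  · unfold box
    rw [Fintype.mem_piFinset]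
    intro i
    rw [Finset.mem_Icc]
    have h0 : (v i).natAbs ≤ N * K := (Finset.single_le_sum (f := fun i => (v i).natAbs)
      (fun i _ => Nat.zero_le _) (Finset.mem_univ i)).trans hv
    have h0' : |v i| ≤ (N : ℤ) * K := by
      rw [Int.abs_eq_natAbs]; exact_mod_cast h0
    rw [abs_le] at h0'
    have h1 := Int.mul_ediv_add_emod (v i) (N : ℤ)
    have hN' : (0 : ℤ) < N := by exact_mod_cast hN
    have h2 := Int.emod_nonneg (v i) hN'.ne'
    have h3 := Int.emod_lt_of_pos (v i) hN'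
    push_cast
    constructor
    · by_contra hcon
      push Not at hcon
      have : v i / (N : ℤ) ≤ -(K : ℤ) - 2 := by omega
      have : (N : ℤ) * (v i / N) ≤ N * (-(K : ℤ) - 2) := by gcongr
      nlinarith
    · by_contra hcon
      push Not at hcon
      have : (K : ℤ) + 2 ≤ v i / (N : ℤ) := by omega
      have : (N : ℤ) * ((K : ℤ) + 2) ≤ N * (v i / N) := by gcongr
      nlinarith
  · unfold n1
    calc _ ≤ ∑ _i : Fin d, N := by
          refine Finset.sum_le_sum fun i _ => ?_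
          have h1 := Int.mul_ediv_add_emod (v i) (N : ℤ)
          have hN' : (0 : ℤ) < N := by exact_mod_cast hN
          have h2 := Int.emod_nonneg (v i) hN'.ne'
          have h3 := Int.emod_lt_of_pos (v i) hN'
          have e : (v - N • (fun i => v i / (N : ℤ)) : Fin d → ℤ) i = v i % N := by
            rw [Pi.sub_apply, Pi.smul_apply, nsmul_eq_mul]
            linarith
          rw [e]
          omega
      _ = d * N := by simp

lemma gz_near (h1 : Integrable (fun x : ℝ≥0 => (x : ℝ)) F) {x y : Fin d → ℤ} {m : ℕ}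
    (h : n1 (x - y) ≤ m) : gz F x ≤ gz F y + mu1 F * m := by
  have h2 := (abs_le.mp (gz_lip h1 x y)).2
  have hmu := mu1_nonneg (F := F)
  have : mu1 F * (n1 (x - y)) ≤ mu1 F * m := by gcongr
  linarith

/-- Upper half of the shape theorem. -/
lemma shape_upper {β : ℝ} (hβ : 0 < β)
    (hint : Integrable (fun x : ℝ≥0 => Real.exp (β * x)) F) {ε : ℝ} (hε : 0 < ε) :
    ∀ᵐ ω ∂(law d F), ∃ K : ℕ, ∀ v : Fin d → ℤ, K ≤ n1 v →
      passageTime ω 0 v ≤ gz F v + ε * n1 v := by
  have h1 := integrable_coe hβ hint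
  have hC0 := C0_pos hβ hint
  have hmu := mu1_nonneg (F := F)
  set S : ℝ := mu1 F * d + 2 + C0 F β * (d + 1) with hS
  have hS0 : 0 < S := by positivity
  obtain ⟨Kg, hKg⟩ := exists_nat_gt (2 * S / ε)
  have hKg0 : 0 < Kg := by
    have : (0 : ℝ) < Kg := lt_trans (by positivity) hKg
    exact_mod_cast this
  -- choose `M`
  have hM : ∀ᶠ M : ℕ in atTop, ∀ z ∈ box d (Kg + 1), mean F (M • z) ≤ M * (gz F z + 1) := by
    rw [Filter.eventually_all_finset]
    intro z _
    have := tendsto_gz h1 z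
    filter_upwards [this.eventually_lt_const (lt_add_one (gz F z)), eventually_gt_atTop 0]
      with M hM hM0
    have : (0 : ℝ) < M := by exact_mod_cast hM0
    rw [div_lt_iff₀ this] at hM
    linarith
  obtain ⟨M, hM, hM0⟩ := (hM.and (eventually_gt_atTop 0)).exists
  have hup : ∀ᵐ ω ∂(law d F), ∀ z ∈ box d (Kg + 1), ∀ᶠ k : ℕ in atTop,
      passageTime ω 0 (k • (M • z)) ≤ k * (mean F (M • z) + 1) := by
    rw [ae_all_iff]
    intro z
    by_cases hz : z ∈ box d (Kg + 1)
    · filter_upwards [ae_upper h1 (M • z) (lt_add_one _)] with ω hω _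
      exact hω
    · exact ae_of_all _ fun ω h => absurd h hz
  filter_upwards [hup, ae_lip hβ hint (Kg + 1)] with ω hω1 hω2
  rw [← Filter.eventually_all_finset] at hω1
  rw [eventually_atTop] at hω1 hω2
  obtain ⟨k₀, hk₀⟩ := hω1
  obtain ⟨m₀, hm₀⟩ := hω2
  refine ⟨(k₀ + m₀ + 1) * (Kg * M), fun v hv => ?_⟩
  set r := n1 v with hr
  set k := r / (Kg * M) + 1 with hk
  have hKM : 0 < Kg * M := Nat.mul_pos hKg0 hM0
  have hk1 : k₀ + m₀ + 1 ≤ r / (Kg * M) := by
    rw [Nat.le_div_iff_mul_le hKM]; exact hv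
  have hkr : r ≤ (k * M) * Kg := by
    have := Nat.lt_mul_div_succ r hKM
    calc r ≤ Kg * M * (r / (Kg * M) + 1) := this.le
      _ = (k * M) * Kg := by rw [hk]; ring
  have hkr2 : (k * M) * Kg ≤ 2 * r := by
    have h3 : Kg * M * (r / (Kg * M)) ≤ r := Nat.mul_div_le r _
    have h4 : Kg * M ≤ r := by
      refine le_trans ?_ hv
      exact Nat.le_mul_of_pos_left _ (by omega)
    calc (k * M) * Kg = Kg * M * (r / (Kg * M)) + Kg * M := by rw [hk]; ring
      _ ≤ 2 * r := by omega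
  have hkM0 : 0 < k * M := Nat.mul_pos (by omega) hM0
  obtain ⟨z, hz, hzv⟩ := exists_grid (k * M) Kg hkM0 v hkr
  set m := (d + 1) * (k * M) with hm
  have hm0 : m₀ ≤ m := by
    have : k ≤ k * M := Nat.le_mul_of_pos_right _ hM0
    have : k * M ≤ m := Nat.le_mul_of_pos_left _ (by omega)
    omega
  have hdist : n1 (v - (k * M) • z) ≤ m := hzv.trans (by
    rw [hm]; exact Nat.mul_le_mul_right _ (by omega))
  have hvA : n1 v ≤ (Kg + 1) * m := by
    calc n1 v ≤ (k * M) * Kg := hkr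
      _ ≤ m * (Kg + 1) := Nat.mul_le_mul (Nat.le_mul_of_pos_left _ (by omega)) (by omega)
      _ = _ := by ring
  have hzA : n1 ((k * M) • z) ≤ (Kg + 1) * m := by
    have h3 : n1 ((k * M) • z) ≤ n1 v + n1 (v - (k * M) • z) := by
      have := n1_add_le v ((k * M) • z - v)
      rw [add_sub_cancel] at this
      rwa [n1_sub_comm ((k * M) • z) v] at this
    calc n1 ((k * M) • z) ≤ n1 v + n1 (v - (k * M) • z) := h3
      _ ≤ (k * M) * Kg + m := by gcongr
      _ ≤ m * Kg + m := by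
          gcongr
          exact Nat.le_mul_of_pos_left _ (by omega)
      _ = _ := by ring
  have hT1 : passageTime ω ((k * M) • z) v ≤ C0 F β * m := by
    refine hm₀ m hm0 _ _ hzA hvA ?_
    rwa [n1_sub_comm]
  have hT2 : passageTime ω 0 ((k * M) • z) ≤ k * (mean F (M • z) + 1) := by
    rw [mul_smul]
    exact hk₀ k (by omega) z hz
  have hMz := hM z hz
  have hgz : (k * M : ℝ) * gz F z = gz F ((k * M) • z) := by
    rw [gz_nsmul h1]; push_cast; ring
  have hgn := gz_near h1 (x := (k * M) • z) (y := v) (m := d * (k * M))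
    (by rw [n1_sub_comm]; exact hzv)
  have hT := T_triangle ω 0 ((k * M) • z) v
  have hk0' : (0 : ℝ) ≤ k := Nat.cast_nonneg _
  have hM1 : (1 : ℝ) ≤ M := by exact_mod_cast hM0
  have h5 : (k : ℝ) * (mean F (M • z) + 1) ≤ k * (M * (gz F z + 1) + 1) := by gcongr
  have h6 : (k : ℝ) ≤ k * M := by nlinarith
  have h7 : ((k * M : ℕ) : ℝ) * Kg ≤ 2 * r := by exact_mod_cast hkr2
  have hKgpos : (0 : ℝ) < Kg := by exact_mod_cast hKg0
  have h8 : ((k * M : ℕ) : ℝ) * S ≤ ε * r := by
    rw [div_lt_iff₀ hε] at hKg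
    have h9 : ((k * M : ℕ) : ℝ) * (2 * S) ≤ ((k * M : ℕ) : ℝ) * (Kg * ε) := by gcongr
    nlinarith
  rw [hS] at h8
  push_cast at h8 hgn hT1
  have hmcast : (m : ℝ) = (d + 1) * (k * M) := by rw [hm]; push_cast; ring
  rw [hmcast] at hT1
  nlinarith

/-- Lower half of the shape theorem. -/
lemma shape_lower {β : ℝ} (hβ : 0 < β)
    (hint : Integrable (fun x : ℝ≥0 => Real.exp (β * x)) F) {ε : ℝ} (hε : 0 < ε) :
    ∀ᵐ ω ∂(law d F), ∃ K : ℕ, ∀ v : Fin d → ℤ, K ≤ n1 v →
      gz F v - ε * n1 v ≤ passageTime ω 0 v := by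
  have h1 := integrable_coe hβ hint
  have hC0 := C0_pos hβ hint
  have hmu := mu1_nonneg (F := F)
  set S : ℝ := mu1 F * d + 1 + C0 F β * (d + 1) with hS
  have hS0 : 0 < S := by positivity
  obtain ⟨Kg, hKg⟩ := exists_nat_gt (2 * S / ε)
  have hKg0 : 0 < Kg := by
    have : (0 : ℝ) < Kg := lt_trans (by positivity) hKg
    exact_mod_cast this
  have hup : ∀ᵐ ω ∂(law d F), ∀ z ∈ box d (Kg + 1), ∀ᶠ k : ℕ in atTop,
      k * (gz F z - 1) ≤ passageTime ω 0 (k • z) := by
    rw [ae_all_iff]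
    intro z
    by_cases hz : z ∈ box d (Kg + 1)
    · filter_upwards [ae_lower h1 z (sub_one_lt _)] with ω hω _
      exact hω
    · exact ae_of_all _ fun ω h => absurd h hz
  filter_upwards [hup, ae_lip hβ hint (Kg + 1)] with ω hω1 hω2
  rw [← Filter.eventually_all_finset] at hω1
  rw [eventually_atTop] at hω1 hω2
  obtain ⟨k₀, hk₀⟩ := hω1
  obtain ⟨m₀, hm₀⟩ := hω2
  refine ⟨(k₀ + m₀ + 1) * Kg, fun v hv => ?_⟩
  set r := n1 v with hr
  set k := r / Kg + 1 with hk
  have hk1 : k₀ + m₀ + 1 ≤ r / Kg := by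
    rw [Nat.le_div_iff_mul_le hKg0]; exact hv
  have hkr : r ≤ k * Kg := by
    have := Nat.lt_mul_div_succ r hKg0
    calc r ≤ Kg * (r / Kg + 1) := this.le
      _ = k * Kg := by rw [hk]; ring
  have hkr2 : k * Kg ≤ 2 * r := by
    have h3 : Kg * (r / Kg) ≤ r := Nat.mul_div_le r _
    have h4 : Kg ≤ r := by
      refine le_trans ?_ hv
      exact Nat.le_mul_of_pos_left _ (by omega)
    calc k * Kg = Kg * (r / Kg) + Kg := by rw [hk]; ring
      _ ≤ 2 * r := by omega
  obtain ⟨z, hz, hzv⟩ := exists_grid k Kg (by omega) v hkr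
  set m := (d + 1) * k with hm
  have hm0 : m₀ ≤ m := by
    have : k ≤ m := Nat.le_mul_of_pos_left _ (by omega)
    omega
  have hdist : n1 (v - k • z) ≤ m := hzv.trans (by
    rw [hm]; exact Nat.mul_le_mul_right _ (by omega))
  have hvA : n1 v ≤ (Kg + 1) * m := by
    calc n1 v ≤ k * Kg := hkr
      _ ≤ m * (Kg + 1) := Nat.mul_le_mul (Nat.le_mul_of_pos_left _ (by omega)) (by omega)
      _ = _ := by ring
  have hzA : n1 (k • z) ≤ (Kg + 1) * m := by
    have h3 : n1 (k • z) ≤ n1 v + n1 (v - k • z) := by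
      have := n1_add_le v (k • z - v)
      rw [add_sub_cancel] at this
      rwa [n1_sub_comm (k • z) v] at this
    calc n1 (k • z) ≤ n1 v + n1 (v - k • z) := h3
      _ ≤ k * Kg + m := by gcongr
      _ ≤ m * Kg + m := by
          gcongr
          exact Nat.le_mul_of_pos_left _ (by omega)
      _ = _ := by ring
  have hT1 : passageTime ω v (k • z) ≤ C0 F β * m := hm₀ m hm0 _ _ hvA hzA hdist
  have hT2 : k * (gz F z - 1) ≤ passageTime ω 0 (k • z) := hk₀ k (by omega) z hz
  have hgz : (k : ℝ) * gz F z = gz F (k • z) := by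
    rw [gz_nsmul h1]
  have hgn := gz_near h1 (x := v) (y := k • z) (m := d * k) hzv
  have hT := T_triangle ω 0 v (k • z)
  have hk0' : (0 : ℝ) ≤ k := Nat.cast_nonneg _
  have h7 : (k : ℝ) * Kg ≤ 2 * r := by exact_mod_cast hkr2
  have hKgpos : (0 : ℝ) < Kg := by exact_mod_cast hKg0
  have h8 : (k : ℝ) * S ≤ ε * r := by
    rw [div_lt_iff₀ hε] at hKg
    have h9 : (k : ℝ) * (2 * S) ≤ (k : ℝ) * (Kg * ε) := by gcongr
    nlinarith
  rw [hS] at h8
  push_cast at h8 hgn hT1
  have hmcast : (m : ℝ) = (d + 1) * k := by rw [hm]; push_cast; ring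
  rw [hmcast] at hT1
  nlinarith

end Pool.Agent.H55.FPP
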