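import Pool.Agent.H55.FPP.Tail

/-!
# First-passage percolation: long paths have large weight, geodesics exist
-/

open MeasureTheory Filter ProbabilityTheory
open scoped NNReal Topology

namespace Pool.Agent.H55.FPP

variable {d : ℕ} {F : Measure ℝ≥0} [IsProbabilityMeasure F]

lemma exists_lam [NullSingletonClass F] {η : ℝ} (hη : 0 < η) :
    ∃ n : ℕ, 0 < n ∧ mgf (fun x : ℝ≥0 => (x : ℝ)) F (-(n : ℝ)) ≤ η := by
  have h : Tendsto (fun n : ℕ => ∫ x : ℝ≥0, Real.exp (-(n : ℝ) * x) ∂F) atTop
      (𝓝 (∫ _ : ℝ≥0, (0 : ℝ) ∂F)) := by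
    refine tendsto_integral_of_dominated_convergence (fun _ => 1) ?_ (integrable_const _) ?_ ?_
    · intro n
      exact (by fun_prop : Measurable fun x : ℝ≥0 => Real.exp (-(n : ℝ) * x)).aestronglyMeasurable
    · intro n
      refine ae_of_all _ fun x => ?_
      rw [Real.norm_eq_abs, abs_of_pos (Real.exp_pos _)]
      apply Real.exp_le_one_iff.mpr
      have : 0 ≤ (n : ℝ) * x := by positivity
      linarith
    · have h0 : ∀ᵐ x ∂F, x ≠ (0 : ℝ≥0) := by
        rw [ae_iff]
        simp
      filter_upwards [h0] with x hx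
      have hx' : 0 < (x : ℝ) := by
        rw [NNReal.coe_pos]; exact pos_iff_ne_zero.mpr hx
      have h1 : Tendsto (fun n : ℕ => -(n : ℝ) * x) atTop atBot := by
        have := (tendsto_natCast_atTop_atTop (R := ℝ)).atTop_mul_const hx'
        have h2 := tendsto_neg_atTop_atBot.comp this
        refine h2.congr fun n => ?_
        simp
      exact Real.tendsto_exp_atBot.comp h1
  rw [integral_zero] at h
  obtain ⟨n, hn, hn0⟩ := ((h.eventually (ge_mem_nhds hη)).and (eventually_gt_atTop 0)).exists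
  exact ⟨n, hn0, hn⟩

/-- The sum of the weights of a list of edges. -/
noncomputable def lw (ω : Env d) (L : List (Sym2 (Fin d → ℤ))) : ℝ :=
  (L.map fun e => (ω e : ℝ)).sum

lemma lw_fun (L : List (Sym2 (Fin d → ℤ))) (hp : L.Nodup) [DecidableEq (Sym2 (Fin d → ℤ))] :
    (fun ω : Env d => lw ω L) = ∑ e ∈ L.toFinset, fun ω : Env d => (ω e : ℝ) := by
  funext ω
  rw [Finset.sum_apply]
  unfold lw
  rw [List.sum_toFinset _ hp]

lemma mgf_lw (t : ℝ) (L : List (Sym2 (Fin d → ℤ))) (hp : L.Nodup) :
    mgf (fun ω : Env d => lw ω L) (law d F) t =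
      (mgf (fun x : ℝ≥0 => (x : ℝ)) F t) ^ L.length := by
  classical
  rw [lw_fun L hp, iIndepFun.mgf_sum (iIndepFun_weights (d := d) (F := F))
    (fun e => measurable_coe_nnreal_real.comp (measurable_pi_apply e))]
  rw [Finset.prod_congr rfl fun e _ => mgf_eval e t, Finset.prod_const,
    List.toFinset_card_of_nodup hp]

lemma lw_nonneg (ω : Env d) (L : List (Sym2 (Fin d → ℤ))) : 0 ≤ lw ω L := by
  apply List.sum_nonneg
  intro x hx
  rw [List.mem_map] at hx
  obtain ⟨e, -, rfl⟩ := hx
  exact NNReal.coe_nonneg _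

lemma measurable_lw (L : List (Sym2 (Fin d → ℤ))) : Measurable fun ω : Env d => lw ω L := by
  unfold lw
  induction L with
  | nil => simp
  | cons e L ih =>
    simp only [List.map_cons, List.sum_cons]
    exact Measurable.add (measurable_coe_nnreal_real.comp
      (measurable_pi_apply (X := fun _ => ℝ≥0) e)) ih

lemma lw_tail {lam : ℝ} (hlam : 0 ≤ lam) (L : List (Sym2 (Fin d → ℤ))) (hp : L.Nodup) (a : ℝ) :
    (law d F).real {ω | lw ω L ≤ a} ≤
      Real.exp (lam * a) * (mgf (fun x : ℝ≥0 => (x : ℝ)) F (-lam)) ^ L.length := by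
  have hint : Integrable (fun ω : Env d => Real.exp (-lam * lw ω L)) (law d F) := by
    refine Integrable.mono' (integrable_const (1 : ℝ)) ?_ (ae_of_all _ fun ω => ?_)
    · exact ((measurable_lw L).const_mul _).exp.aestronglyMeasurable
    · rw [Real.norm_eq_abs, abs_of_pos (Real.exp_pos _)]
      apply Real.exp_le_one_iff.mpr
      have := mul_nonneg hlam (lw_nonneg ω L)
      linarith
  have h := measure_le_le_exp_mul_mgf (μ := law d F) (X := fun ω : Env d => lw ω L) a
    (neg_nonpos.mpr hlam) hint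
  rw [mgf_lw _ L hp, neg_neg] at h
  exact h

/-- The edges of the walk from `u` with the given steps. -/
def stepEdges : (Fin d → ℤ) → List (Fin d → ℤ) → List (Sym2 (Fin d → ℤ))
  | _, [] => []
  | u, a :: l => s(u, u + a) :: stepEdges (u + a) l

lemma length_stepEdges (u : Fin d → ℤ) (l : List (Fin d → ℤ)) :
    (stepEdges u l).length = l.length := by
  induction l generalizing u with
  | nil => rfl
  | cons a l ih => simp [stepEdges, ih]

/-- the lists of `n` steps -/
noncomputable def stepLists (d : ℕ) : ℕ → Finset (List (Fin d → ℤ))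
  | 0 => {[]}
  | n + 1 => (box d 1 ×ˢ stepLists d n).image fun q => q.1 :: q.2

lemma card_stepLists (n : ℕ) : (stepLists d n).card ≤ (3 ^ d) ^ n := by
  induction n with
  | zero => simp [stepLists]
  | succ n ih =>
    unfold stepLists
    refine Finset.card_image_le.trans ?_
    rw [Finset.card_product, card_box, pow_succ, mul_comm]
    norm_num
    gcongr

lemma length_of_mem_stepLists {n : ℕ} {l : List (Fin d → ℤ)} (h : l ∈ stepLists d n) :
    l.length = n := by
  induction n generalizing l with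
  | zero => simp only [stepLists, Finset.mem_singleton] at h; subst h; rfl
  | succ n ih =>
    unfold stepLists at h
    rw [Finset.mem_image] at h
    obtain ⟨q, hq, rfl⟩ := h
    rw [Finset.mem_product] at hq
    simp [ih hq.2]

lemma exists_stepLists {u v : Fin d → ℤ} (p : (lattice d).Walk u v) :
    ∃ l ∈ stepLists d p.length, p.edges = stepEdges u l := by
  induction p with
  | nil => exact ⟨[], by simp [stepLists], by simp [stepEdges]⟩
  | @cons u u' w h p ih =>
    obtain ⟨l, hl, he⟩ := ih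
    refine ⟨(u' - u) :: l, ?_, ?_⟩
    · rw [SimpleGraph.Walk.length_cons]
      unfold stepLists
      rw [Finset.mem_image]
      refine ⟨(u' - u, l), ?_, rfl⟩
      rw [Finset.mem_product]
      refine ⟨mem_box ?_, hl⟩
      rw [n1_sub_comm]
      exact (adj_iff.mp h).le
    · rw [SimpleGraph.Walk.edges_cons, stepEdges, he]
      simp

/-- Long self-avoiding paths from `0` have weight at least `c` times their length. -/
lemma ae_slow [NullSingletonClass F] : ∃ c : ℝ, 0 < c ∧ ∀ᵐ ω ∂(law d F), ∀ᶠ n : ℕ in atTop,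
    ∀ (v : Fin d → ℤ) (p : (lattice d).Walk 0 v), p.IsPath → p.length = n →
      c * n ≤ weight ω p := by
  obtain ⟨N, hN, hη⟩ := exists_lam (F := F) (η := 1 / (6 * 3 ^ d)) (by positivity)
  refine ⟨1 / N, by positivity, ?_⟩
  set B : ℕ → Set (Env d) := fun n => ⋃ l ∈ (stepLists d n).filter
    (fun l => (stepEdges 0 l).Nodup), {ω | lw ω (stepEdges 0 l) ≤ 1 / N * n} with hB
  have hm0 : 0 ≤ mgf (fun x : ℝ≥0 => (x : ℝ)) F (-(N : ℝ)) := mgf_nonneg
  have hbound : ∀ n, law d F (B n) ≤ ENNReal.ofReal ((1 / 2 : ℝ) ^ n) := by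
    intro n
    calc law d F (B n) ≤ ∑ l ∈ (stepLists d n).filter (fun l => (stepEdges 0 l).Nodup),
          ENNReal.ofReal (Real.exp 1 ^ n * (1 / (6 * 3 ^ d) : ℝ) ^ n) := by
          refine (measure_biUnion_finset_le _ _).trans (Finset.sum_le_sum fun l hl => ?_)
          rw [Finset.mem_filter] at hl
          have h1 := lw_tail (F := F) (Nat.cast_nonneg N) (stepEdges 0 l) hl.2 (1 / N * n)
          rw [length_stepEdges, length_of_mem_stepLists hl.1] at h1
          rw [← ofReal_measureReal]
          refine ENNReal.ofReal_le_ofReal (h1.trans ?_)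
          have e : Real.exp ((N : ℝ) * (1 / N * n)) = Real.exp 1 ^ n := by
            rw [← Real.exp_nat_mul]
            congr 1
            have : (N : ℝ) ≠ 0 := by positivity
            field_simp
          rw [e]
          gcongr
      _ ≤ ∑ l ∈ stepLists d n, ENNReal.ofReal (Real.exp 1 ^ n * (1 / (6 * 3 ^ d) : ℝ) ^ n) := by
          gcongr
          exact Finset.filter_subset _ _
      _ ≤ ENNReal.ofReal ((1 / 2 : ℝ) ^ n) := by
          rw [Finset.sum_const, nsmul_eq_mul, ← ENNReal.ofReal_natCast,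
            ← ENNReal.ofReal_mul (by positivity)]
          refine ENNReal.ofReal_le_ofReal ?_
          have h3 : ((stepLists d n).card : ℝ) ≤ ((3 : ℝ) ^ d) ^ n := by
            exact_mod_cast card_stepLists (d := d) n
          have h4 : Real.exp 1 ≤ 3 := Real.exp_one_lt_d9.le.trans (by norm_num)
          calc ((stepLists d n).card : ℝ) * (Real.exp 1 ^ n * (1 / (6 * 3 ^ d) : ℝ) ^ n)
              ≤ ((3 : ℝ) ^ d) ^ n * (3 ^ n * (1 / (6 * 3 ^ d) : ℝ) ^ n) := by gcongr
            _ = ((3 : ℝ) ^ d * (3 * (1 / (6 * 3 ^ d)))) ^ n := by rw [mul_pow, mul_pow]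
            _ = (1 / 2) ^ n := by congr 1; field_simp; norm_num
  have hs : ∑' n, law d F (B n) ≠ ⊤ :=
    ne_top_of_le_ne_top (summable_geometric_two).tsum_ofReal_ne_top
      (ENNReal.tsum_le_tsum hbound)
  filter_upwards [ae_eventually_notMem hs] with ω hω
  filter_upwards [hω] with n hn v p hp hlen
  by_contra hcon
  push Not at hcon
  apply hn
  obtain ⟨l, hl, he⟩ := exists_stepLists p
  rw [hB]
  simp only [Set.mem_iUnion]
  refine ⟨l, Finset.mem_filter.mpr ⟨hlen ▸ hl, ?_⟩, ?_⟩
  · rw [← he]; exact hp.isTrail.edges_nodup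
  · rw [Set.mem_ofPred_eq]
    have : lw ω (stepEdges 0 l) = weight ω p := by
      unfold lw weight; rw [he]
    rw [this]
    exact hcon.le

/-- The environment `ω` is slow from `u` at rate `c`. -/
def SlowFrom (c : ℝ) (ω : Env d) (u : Fin d → ℤ) : Prop :=
  ∃ n₀ : ℕ, ∀ (v : Fin d → ℤ) (p : (lattice d).Walk u v), p.IsPath → n₀ ≤ p.length →
    c * p.length ≤ weight ω p

lemma ae_slowFrom [NullSingletonClass F] : ∃ c : ℝ, 0 < c ∧ ∀ᵐ ω ∂(law d F), ∀ u, SlowFrom c ω u := by
  obtain ⟨c, hc, h⟩ := ae_slow (d := d) (F := F)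
  refine ⟨c, hc, ?_⟩
  rw [ae_all_iff]
  intro u
  have h' := (measurePreserving_shift (F := F) u).quasiMeasurePreserving.ae h
  filter_upwards [h'] with ω hω
  rw [eventually_atTop] at hω
  obtain ⟨n₀, hn₀⟩ := hω
  refine ⟨n₀, fun v p hp hlen => ?_⟩
  -- translate the path
  obtain ⟨q, hq, hql, hqw⟩ : ∃ q : (lattice d).Walk 0 (v + -u), q.IsPath ∧
      q.length = p.length ∧ weight (shift u ω) q = weight ω p := by
    have hz : (trHom (-u)) u = 0 := by
      change u + -u = 0
      abel
    refine ⟨(p.map (trHom (-u))).copy hz rfl, ?_, ?_, ?_⟩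
    · rw [SimpleGraph.Walk.isPath_copy]
      exact SimpleGraph.Walk.IsPath.map (fun a b hab => by simpa [trHom] using hab) hp
    · rw [SimpleGraph.Walk.length_copy, SimpleGraph.Walk.length_map]
    · have : weight (shift u ω) ((p.map (trHom (-u))).copy hz rfl) =
          weight (shift u ω) (p.map (trHom (-u))) := by
        unfold weight; rw [SimpleGraph.Walk.edges_copy]
      refine this.trans ?_
      rw [weight_map_trHom, shift_shift, neg_add_cancel, shift_zero]
  rw [← hql, ← hqw]
  exact hn₀ q.length (hql ▸ hlen) _ q hq rfl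

lemma finite_neighbors (u : Fin d → ℤ) : {u' | (lattice d).Adj u u'}.Finite := by
  refine ((box d 1).finite_toSet.image (fun a => u + a)).subset fun u' hu' => ?_
  refine ⟨u' - u, ?_, by simp⟩
  apply mem_box
  rw [n1_sub_comm]
  exact (adj_iff.mp hu').le

lemma finite_weights (ω : Env d) (n : ℕ) (u v : Fin d → ℤ) :
    {x | ∃ p : (lattice d).Walk u v, p.length = n ∧ weight ω p = x}.Finite := by
  induction n generalizing u with
  | zero =>
    refine (Set.finite_singleton (0 : ℝ)).subset ?_
    rintro x ⟨p, hp, rfl⟩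
    cases p with
    | nil => simp [weight_nil]
    | cons h p => simp at hp
  | succ n ih =>
    have : {x | ∃ p : (lattice d).Walk u v, p.length = n + 1 ∧ weight ω p = x} ⊆
        ⋃ u' ∈ {u' | (lattice d).Adj u u'}, (fun y => (ω s(u, u') : ℝ) + y) ''
          {x | ∃ p : (lattice d).Walk u' v, p.length = n ∧ weight ω p = x} := by
      rintro x ⟨p, hp, rfl⟩
      cases p with
      | nil => simp at hp
      | @cons _ u' _ h p =>
        simp only [Set.mem_iUnion]
        refine ⟨u', h, weight ω p, ⟨p, by simpa using hp, rfl⟩, ?_⟩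
        rw [weight_cons]
    exact ((finite_neighbors u).biUnion fun u' _ => (ih u').image _).subset this

/-- If the environment is slow from `u`, every point can be reached from `u` by a geodesic. -/
lemma exists_geodesic {c : ℝ} (hc : 0 < c) {ω : Env d} {u : Fin d → ℤ} (h : SlowFrom c ω u)
    (v : Fin d → ℤ) :
    ∃ p : (lattice d).Walk u v, p.IsPath ∧ weight ω p = passageTime ω u v := by
  obtain ⟨n₀, hn₀⟩ := h
  obtain ⟨N, hN⟩ := exists_nat_gt ((passageTime ω u v + 1) / c)
  set M := max n₀ N with hM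
  have hlong : ∀ p : (lattice d).Walk u v, p.IsPath → M ≤ p.length →
      passageTime ω u v + 1 < weight ω p := by
    intro p hp hl
    have h1 := hn₀ v p hp (le_trans (le_max_left _ _) hl)
    have h2 : (N : ℝ) ≤ p.length := by exact_mod_cast le_trans (le_max_right _ _) hl
    rw [div_lt_iff₀ hc] at hN
    nlinarith
  set S : Set ℝ := {x | ∃ p : (lattice d).Walk u v, p.IsPath ∧ p.length < M ∧ weight ω p = x}
    with hS
  have hfin : S.Finite := by
    have : S ⊆ ⋃ n ∈ Set.Iio M, {x | ∃ p : (lattice d).Walk u v, p.length = n ∧ weight ω p = x} := by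
      rintro x ⟨p, -, hl, rfl⟩
      simp only [Set.mem_iUnion]
      exact ⟨p.length, hl, p, rfl, rfl⟩
    exact ((Set.finite_Iio M).biUnion fun n _ => finite_weights ω n u v).subset this
  have hne : S.Nonempty := by
    obtain ⟨p, hp, hw⟩ := exists_walk_lt ω u v one_pos
    refine ⟨weight ω p, p, hp, ?_, rfl⟩
    by_contra hcon
    push Not at hcon
    exact absurd (hlong p hp hcon) (not_lt.mpr hw.le)
  obtain ⟨x, ⟨p, hp, hl, hw⟩, hmin⟩ := hfin.exists_minimal hne |>.imp fun x hx => hx
  refine ⟨p, hp, le_antisymm ?_ (T_le_weight ω p)⟩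
  refine le_of_forall_pos_lt_add fun ε hε => ?_
  obtain ⟨q, hq, hqw⟩ := exists_walk_lt ω u v (lt_min hε one_pos)
  have hql : q.length < M := by
    by_contra hcon
    push Not at hcon
    have := hlong q hq hcon
    have := min_le_right ε 1
    linarith
  have h1 : weight ω p ≤ weight ω q := by
    rcases le_total (weight ω p) (weight ω q) with h | h
    · exact h
    · rw [hw] at h ⊢
      exact hmin ⟨q, hq, hql, rfl⟩ h
  have := min_le_left ε 1
  linarith

lemma T_ge_of_slow {c : ℝ} {ω : Env d} {u : Fin d → ℤ} (h : SlowFrom c ω u) (hc : 0 ≤ c) :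
    ∃ n₀ : ℕ, ∀ v, n₀ ≤ n1 (u - v) → c * n1 (u - v) ≤ passageTime ω u v := by
  obtain ⟨n₀, hn₀⟩ := h
  refine ⟨n₀, fun v hv => ?_⟩
  refine le_of_forall_pos_lt_add fun ε hε => ?_
  obtain ⟨p, hp, hw⟩ := exists_walk_lt ω u v hε
  have h1 := n1_sub_le_length p
  have h2 := hn₀ v p hp (hv.trans h1)
  have h3 : (n1 (u - v) : ℝ) ≤ p.length := by exact_mod_cast h1
  nlinarith

end Pool.Agent.H55.FPP
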