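import Pool.Agent.H55.FPP.Line

/-!
# First-passage percolation: the star condition along geodesics
-/

open MeasureTheory Filter ProbabilityTheory
open scoped NNReal Topology

namespace Pool.Agent.H55.FPP

variable {d : ℕ} {F : Measure ℝ≥0} [IsProbabilityMeasure F]

/-- the approximate star condition for a lattice vector -/
def Star (F : Measure ℝ≥0) (θ : Fin d → ℝ) (ε : ℝ) (y : Fin d → ℤ) : Prop :=
  G F (toReal y) + n1 y * G F θ ≤ G F (toReal y + (n1 y : ℝ) • θ) + ε * n1 y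

omit [IsProbabilityMeasure F] in
lemma not_bad (θ : Fin d → ℝ) {L : ℕ} (hL0 : 0 < L) {ε : ℝ} (hε : 0 < ε) {K N i : ℕ} {ω : Env d}
    (hω : ω ∉ Bad F θ L ε K N i) {m : ℕ} (hm : 1 ≤ m) (hmN : 2 * m ≤ N) :
    ∃ n, m ≤ n ∧ n ≤ 2 * m ∧ shift (pt θ (i + n * L)) ω ∈ UG F d ε K ∧
      passageTime ω (pt θ (i + n * L)) (pt θ i) + passageTime ω (pt θ i) 0 -
        passageTime ω (pt θ (i + n * L)) 0 ≤ ε * L * n := by
  have hεL : 0 < ε * L := by
    have : (0 : ℝ) < L := by exact_mod_cast hL0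
    positivity
  have hnb : ∀ n : ℕ, 1 ≤ n → n ≤ N →
      ∑ j ∈ Finset.range n, Yd F θ L ε K (i + j * L) ω < n := by
    intro n h1 h2
    by_contra hcon
    push Not at hcon
    apply hω
    left
    simp only [Set.mem_iUnion]
    exact ⟨n, ⟨h1, h2⟩, hcon⟩
  obtain ⟨j, hj1, hj2, hj3⟩ : ∃ j, m - 1 ≤ j ∧ j < 2 * m ∧
      shift (pt θ (i + j * L + L)) ω ∈ UG F d ε K := by
    by_contra hcon
    push Not at hcon
    have h1 := hnb (2 * m) (by omega) hmN
    have h2 : ∑ j ∈ Finset.Ico (m - 1) (2 * m), (2 : ℝ) ≤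
        ∑ j ∈ Finset.range (2 * m), Yd F θ L ε K (i + j * L) ω := by
      refine le_trans (Finset.sum_le_sum (g := fun j => Yd F θ L ε K (i + j * L) ω) ?_)
        (Finset.sum_le_sum_of_subset_of_nonneg ?_ fun j _ _ => Yd_nonneg θ L hε.le K _ ω)
      · intro j hj
        rw [Finset.mem_Ico] at hj
        have h3 := hcon j hj.1 hj.2
        unfold Yd
        have h4 := Xd_nonneg θ L (i + j * L) ω
        rw [Set.indicator_of_mem (by exact h3)]
        have : 0 ≤ Xd θ L (i + j * L) ω / (ε * L) := by positivity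
        linarith
      · intro j hj
        rw [Finset.mem_Ico] at hj
        rw [Finset.mem_range]
        exact hj.2
    rw [Finset.sum_const, Nat.card_Ico, nsmul_eq_mul] at h2
    have h5 : ((2 * m - (m - 1) : ℕ) : ℝ) = m + 1 := by
      have : 2 * m - (m - 1) = m + 1 := by omega
      rw [this]; push_cast; ring
    rw [h5] at h2
    push_cast at h1
    linarith
  refine ⟨j + 1, by omega, by omega, ?_, ?_⟩
  · have e : i + (j + 1) * L = i + j * L + L := by ring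
    rw [e]; exact hj3
  · refine (sum_Xd θ L i ω (j + 1)).trans ?_
    have h1 := hnb (j + 1) (by omega) (by omega)
    have h2 : ∑ k ∈ Finset.range (j + 1), Xd θ L (i + k * L) ω / (ε * L) ≤
        ∑ k ∈ Finset.range (j + 1), Yd F θ L ε K (i + k * L) ω := by
      refine Finset.sum_le_sum fun k _ => ?_
      unfold Yd
      have : 0 ≤ (shift (pt θ (i + k * L + L)) ⁻¹' (UG F d ε K)ᶜ).indicator
        (fun _ => (1 : ℝ)) ω := Set.indicator_nonneg (fun _ _ => zero_le_one) _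
      linarith
    rw [← Finset.sum_div] at h2
    have h3 := h2.trans h1.le
    rw [div_le_iff₀ hεL] at h3
    linarith

lemma nr_pt_sub (θ : Fin d → ℝ) (i n : ℕ) :
    nr (toReal (pt θ (i + n) - pt θ i) + (n : ℝ) • θ) ≤ 2 * d := by
  have e : toReal (pt θ (i + n) - pt θ i) + (n : ℝ) • θ =
      (toReal (pt θ (i + n)) + ((i + n : ℕ) : ℝ) • θ) + -(toReal (pt θ i) + (i : ℝ) • θ) := by
    funext j
    simp only [toReal_sub, Pi.sub_apply, Pi.smul_apply, Pi.add_apply, Pi.neg_apply, smul_eq_mul]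
    push_cast
    ring
  rw [e]
  refine (nr_add_le _ _).trans ?_
  rw [nr_neg]
  have := nr_pt θ i
  have := nr_pt θ (i + n)
  linarith

lemma star_ineq (h1 : Integrable (fun x : ℝ≥0 => (x : ℝ)) F) (θ : Fin d → ℝ) {L : ℕ}
    (hL0 : 0 < L) {ε : ℝ} (hε : 0 < ε) {K N i : ℕ} {ω : Env d}
    (hω : ω ∉ Bad F θ L ε K N i) {y : Fin d → ℤ}
    (hy : passageTime ω (pt θ i) y + passageTime ω y 0 = passageTime ω (pt θ i) 0)
    (hN : 2 * (n1 (y - pt θ i) + 1) ≤ N) :
    G F (toReal (y - pt θ i)) + n1 (y - pt θ i) * G F θ ≤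
      G F (toReal (y - pt θ i) + (n1 (y - pt θ i) : ℝ) • θ) +
        ε * (4 + 4 * nr θ) * n1 (y - pt θ i) +
        (2 * ε * L * (1 + 2 * nr θ) + 4 * ε * d + 3 * K + 4 * (mu1 F * d)) := by
  have hmu := mu1_nonneg (F := F)
  have hnr := nr_nonneg θ
  have hGθ := G_nonneg h1 θ
  set b := pt θ i with hb
  set k := n1 (y - b) with hk
  set m := k / L + 1 with hm
  have hkL : k / L ≤ k := Nat.div_le_self _ _
  have hm1 : 1 ≤ m := Nat.succ_le_succ (Nat.zero_le _)
  have hmk : m ≤ k + 1 := Nat.succ_le_succ hkL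
  obtain ⟨n, hn1, hn2, hUG, hD⟩ := not_bad θ hL0 hε hω (m := m) hm1 (by omega)
  set x := pt θ (i + n * L) with hx
  -- sizes
  have hnLk : k ≤ n * L := by
    have h2 : k < L * (k / L + 1) := Nat.lt_mul_div_succ k hL0
    calc k ≤ L * m := h2.le
      _ = m * L := mul_comm _ _
      _ ≤ n * L := Nat.mul_le_mul_right _ hn1
  have hnL2 : n * L ≤ 2 * (k + L) := by
    have h2 : L * (k / L) ≤ k := Nat.mul_div_le k L
    calc n * L ≤ 2 * m * L := Nat.mul_le_mul_right _ hn2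
      _ = 2 * (L * (k / L) + L) := by rw [hm]; ring
      _ ≤ 2 * (k + L) := by omega
  have hnLk' : (k : ℝ) ≤ ((n * L : ℕ) : ℝ) := by exact_mod_cast hnLk
  have hnL2' : ((n * L : ℕ) : ℝ) ≤ 2 * (k + L) := by exact_mod_cast hnL2
  set s : ℝ := ((n * L : ℕ) : ℝ) with hs
  have hs0 : 0 ≤ s := Nat.cast_nonneg _
  -- environment facts
  have hLG : shift b ω ∈ LG F d ε K := by
    by_contra hcon
    exact hω (Or.inr hcon)
  have a1 := hLG (y - b)
  rw [T_shift, zero_add, sub_add_cancel] at a1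
  have a2 := hLG (x - b)
  rw [T_shift, zero_add, sub_add_cancel] at a2
  have a3 := hUG (y - x)
  rw [T_shift, zero_add, sub_add_cancel] at a3
  have a4 := T_triangle ω x y 0
  have a5 := T_symm ω b x
  -- geometry
  have g0 := nr_pt_sub θ i (n * L)
  rw [← hs, ← hb, ← hx] at g0
  have g1 : s * G F θ ≤ gz F (x - b) + mu1 F * (2 * d) := by
    have h2 := G_lip h1 (-(s • θ)) (toReal (x - b))
    rw [G_neg h1, G_smul h1 hs0, G_toReal h1] at h2
    have e : -(s • θ) - toReal (x - b) = -(toReal (x - b) + s • θ) := by abel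
    rw [e, nr_neg] at h2
    have h3 : mu1 F * nr (toReal (x - b) + s • θ) ≤ mu1 F * (2 * d) := by gcongr
    linarith
  have g2 : gz F (y - x) ≤ G F (toReal (y - b) + s • θ) + mu1 F * (2 * d) := by
    have h2 := G_lip h1 (toReal (y - x)) (toReal (y - b) + s • θ)
    rw [G_toReal h1] at h2
    have e : toReal (y - x) - (toReal (y - b) + s • θ) = -(toReal (x - b) + s • θ) := by
      simp only [toReal_sub]; abel
    rw [e, nr_neg] at h2
    have h3 : mu1 F * nr (toReal (x - b) + s • θ) ≤ mu1 F * (2 * d) := by gcongr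
    linarith
  have g3 : G F (toReal (y - b) + s • θ) ≤
      G F (toReal (y - b) + (k : ℝ) • θ) + (s - k) * G F θ := by
    have h2 := G_add_le h1 (toReal (y - b) + (k : ℝ) • θ) ((s - k) • θ)
    rw [G_smul h1 (sub_nonneg.mpr hnLk')] at h2
    have e : toReal (y - b) + (k : ℝ) • θ + (s - k) • θ = toReal (y - b) + s • θ := by
      rw [add_assoc, ← add_smul]; congr 2; ring
    rwa [e] at h2
  have g4 : (n1 (x - b) : ℝ) ≤ s * nr θ + 2 * d := by
    rw [← nr_toReal]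
    have h2 := nr_add_le (toReal (x - b) + s • θ) (-(s • θ))
    rw [nr_neg, nr_smul, abs_of_nonneg hs0, add_neg_cancel_right] at h2
    linarith
  have g5 : (n1 (y - x) : ℝ) ≤ k + (s * nr θ + 2 * d) := by
    have h2 : n1 (y - x) ≤ n1 (y - b) + n1 (b - x) := n1_sub_le y b x
    rw [n1_sub_comm b x] at h2
    have h3 : (n1 (y - x) : ℝ) ≤ n1 (y - b) + n1 (x - b) := by exact_mod_cast h2
    linarith
  have g4' : ε * (n1 (x - b) : ℝ) ≤ ε * (s * nr θ + 2 * d) := by gcongr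
  have g5' : ε * (n1 (y - x) : ℝ) ≤ ε * (k + (s * nr θ + 2 * d)) := by gcongr
  have hD' : passageTime ω x b + passageTime ω b 0 - passageTime ω x 0 ≤ ε * s := by
    refine hD.trans (le_of_eq ?_)
    rw [hs]; push_cast; ring
  rw [G_toReal h1] at *
  have g6 : ε * s * (1 + 2 * nr θ) ≤ ε * (2 * (k + L)) * (1 + 2 * nr θ) := by gcongr
  nlinarith

/-- The level lemma. -/
lemma level {β : ℝ} (hβ : 0 < β)
    (hint : Integrable (fun x : ℝ≥0 => Real.exp (β * x)) F) (θ : Fin d → ℝ) {ε δ : ℝ}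
    (hε : 0 < ε) (hδ : 0 < δ) :
    ∃ (L Ks : ℕ) (C : ℝ) (B : ℕ → ℕ → Set (Env d)), 0 < L ∧
      (∀ N i, MeasurableSet (B N i)) ∧
      (∀ N J : ℕ, ∑ i ∈ Finset.range (J * L), (law d F).real (B N i) ≤ δ * ((J + N) * L) + C) ∧
      ∀ (N i : ℕ) (ω : Env d), ω ∉ B N i → ∀ y : Fin d → ℤ,
        passageTime ω (pt θ i) y + passageTime ω y 0 = passageTime ω (pt θ i) 0 →
        Ks ≤ n1 (y - pt θ i) → 2 * (n1 (y - pt θ i) + 1) ≤ N → Star F θ ε (y - pt θ i) := by
  have h1 := integrable_coe hβ hint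
  have hmu := mu1_nonneg (F := F)
  have hnr := nr_nonneg θ
  set ε₀ : ℝ := ε / (5 + 4 * nr θ) with hε₀
  have hε₀pos : 0 < ε₀ := by positivity
  obtain ⟨L₀, hL₀⟩ := exists_nat_ge (3 * (mu1 F * d) / (ε₀ * δ / 8))
  obtain ⟨L, hL1, hL2, hL3⟩ := exists_L h1 θ (ε := ε₀ * δ / 8) (by positivity) L₀
  obtain ⟨K₁, hK₁⟩ := exists_UG (d := d) hβ hint hε₀pos (δ := δ / 8) (by positivity)
  obtain ⟨K₂, hK₂⟩ := exists_LG (d := d) hβ hint hε₀pos (δ := δ / 2) (by positivity)
  set K := max K₁ K₂ with hK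
  have hU : (law d F).real (UG F d ε₀ K)ᶜ ≤ δ / 8 := by
    refine (measureReal_mono (Set.compl_subset_compl.mpr ?_)).trans hK₁
    intro ω hω y
    have : (K₁ : ℝ) ≤ K := by exact_mod_cast le_max_left _ _
    have := hω y
    linarith
  have hLo : (law d F).real (LG F d ε₀ K)ᶜ ≤ δ / 2 := by
    refine (measureReal_mono (Set.compl_subset_compl.mpr ?_)).trans hK₂
    intro ω hω y
    have : (K₂ : ℝ) ≤ K := by exact_mod_cast le_max_right _ _
    have := hω y
    linarith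
  have hL4 : 3 * (mu1 F * d) ≤ ε₀ * δ / 8 * L := by
    rw [div_le_iff₀ (by positivity)] at hL₀
    have : (L₀ : ℝ) ≤ L := by exact_mod_cast hL1
    have : (L₀ : ℝ) * (ε₀ * δ / 8) ≤ L * (ε₀ * δ / 8) := by gcongr
    linarith
  set R : ℝ := 2 * ε₀ * L * (1 + 2 * nr θ) + 4 * ε₀ * d + 3 * K + 4 * (mu1 F * d) with hR
  obtain ⟨Ks, hKs⟩ := exists_nat_ge (R / ε₀)
  rw [div_le_iff₀ hε₀pos] at hKs
  refine ⟨L, Ks, ((L * nr θ + d) * mu1 F + mu1 F * d) / ε₀, Bad F θ L ε₀ K, hL2,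
    fun N i => measurableSet_Bad θ L ε₀ K N i, fun N J => ?_, ?_⟩
  · exact sum_Bad_le h1 θ hL2 hε₀pos hδ hL3 hL4 hU hLo N J
  · intro N i ω hω y hy hKy hNy
    have h2 := star_ineq h1 θ hL2 hε₀pos hω hy hNy
    unfold Star
    refine h2.trans ?_
    rw [← hR]
    have h3 : (Ks : ℝ) ≤ n1 (y - pt θ i) := by exact_mod_cast hKy
    have h4 : (Ks : ℝ) * ε₀ ≤ n1 (y - pt θ i) * ε₀ := by gcongr
    have h5 : ε * n1 (y - pt θ i) = ε₀ * (5 + 4 * nr θ) * n1 (y - pt θ i) := by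
      rw [hε₀]; field_simp
    rw [h5]
    nlinarith

end Pool.Agent.H55.FPP
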