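import Pool.Agent.H55.FPP.Law

/-!
# First-passage percolation: exponential bounds
-/

open MeasureTheory Filter ProbabilityTheory
open scoped NNReal Topology

namespace Pool.Agent.H55.FPP

variable {d : ℕ} {F : Measure ℝ≥0} [IsProbabilityMeasure F]

lemma weight_eq_sum (ω : Env d) {u v : Fin d → ℤ} (p : (lattice d).Walk u v)
    (hp : p.edges.Nodup) [DecidableEq (Sym2 (Fin d → ℤ))] :
    weight ω p = ∑ e ∈ p.edges.toFinset, (ω e : ℝ) := by
  unfold weight
  rw [List.sum_toFinset _ hp]

lemma mgf_eval (e : Sym2 (Fin d → ℤ)) (t : ℝ) :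
    mgf (fun ω : Env d => (ω e : ℝ)) (law d F) t = mgf (fun x : ℝ≥0 => (x : ℝ)) F t := by
  unfold mgf
  have h := (measurePreserving_eval (F := F) e)
  have h2 := integral_map (μ := law d F) h.measurable.aemeasurable (f := fun x : ℝ≥0 => Real.exp (t * x))
    (by fun_prop : Measurable fun x : ℝ≥0 => Real.exp (t * x)).aestronglyMeasurable
  rw [h.map_eq] at h2
  exact h2.symm

lemma integrable_eval (e : Sym2 (Fin d → ℤ)) {t : ℝ}
    (ht : Integrable (fun x : ℝ≥0 => Real.exp (t * x)) F) :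
    Integrable (fun ω : Env d => Real.exp (t * (ω e : ℝ))) (law d F) :=
  (measurePreserving_eval (F := F) e).integrable_comp_of_integrable ht

lemma sum_edges_fun {u v : Fin d → ℤ} (p : (lattice d).Walk u v)
    (hp : p.edges.Nodup) [DecidableEq (Sym2 (Fin d → ℤ))] :
    (fun ω : Env d => weight ω p) = ∑ e ∈ p.edges.toFinset, fun ω : Env d => (ω e : ℝ) := by
  funext ω
  rw [weight_eq_sum ω p hp, Finset.sum_apply]

lemma integrable_exp_weight {t : ℝ} (ht : Integrable (fun x : ℝ≥0 => Real.exp (t * x)) F)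
    {u v : Fin d → ℤ} (p : (lattice d).Walk u v) (hp : p.edges.Nodup) :
    Integrable (fun ω : Env d => Real.exp (t * weight ω p)) (law d F) := by
  classical
  have h := iIndepFun.integrable_exp_mul_sum (iIndepFun_weights (d := d) (F := F)) (t := t)
    (fun e => measurable_coe_nnreal_real.comp (measurable_pi_apply e))
    (s := p.edges.toFinset) (fun e _ => integrable_eval e ht)
  refine h.congr (ae_of_all _ fun ω => ?_)
  have := congrFun (sum_edges_fun p hp) ω
  simp only at this ⊢
  rw [this]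

lemma mgf_weight (t : ℝ) {u v : Fin d → ℤ} (p : (lattice d).Walk u v) (hp : p.edges.Nodup) :
    mgf (fun ω : Env d => weight ω p) (law d F) t =
      (mgf (fun x : ℝ≥0 => (x : ℝ)) F t) ^ p.length := by
  classical
  rw [sum_edges_fun p hp, iIndepFun.mgf_sum (iIndepFun_weights (d := d) (F := F))
    (fun e => measurable_coe_nnreal_real.comp (measurable_pi_apply e))]
  rw [Finset.prod_congr rfl fun e _ => mgf_eval e t, Finset.prod_const,
    List.toFinset_card_of_nodup hp, SimpleGraph.Walk.length_edges]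

/-- the exponential moment `E exp(β τ)` is at least `1` -/
lemma one_le_mgf {β : ℝ} (hβ : 0 ≤ β) (hint : Integrable (fun x : ℝ≥0 => Real.exp (β * x)) F) :
    1 ≤ mgf (fun x : ℝ≥0 => (x : ℝ)) F β := by
  unfold mgf
  calc (1 : ℝ) = ∫ _ : ℝ≥0, (1 : ℝ) ∂F := by simp
    _ ≤ _ := integral_mono (integrable_const _) hint fun x => by
        simpa using Real.one_le_exp (mul_nonneg hβ x.2)

/-- The constant `C₀`. -/
noncomputable def C0 (F : Measure ℝ≥0) (β : ℝ) : ℝ :=
  (1 + Real.log (mgf (fun x : ℝ≥0 => (x : ℝ)) F β)) / β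

lemma C0_pos {β : ℝ} (hβ : 0 < β) (hint : Integrable (fun x : ℝ≥0 => Real.exp (β * x)) F) :
    0 < C0 F β := by
  unfold C0
  have := Real.log_nonneg (one_le_mgf hβ.le hint)
  positivity

/-- Chernoff bound for a short path -/
lemma T_tail {β : ℝ} (hβ : 0 < β) (hint : Integrable (fun x : ℝ≥0 => Real.exp (β * x)) F)
    {x y : Fin d → ℤ} {K : ℕ} (hK : n1 (x - y) ≤ K) :
    (law d F).real {ω | C0 F β * K ≤ passageTime ω x y} ≤ Real.exp (-(K : ℝ)) := by
  obtain ⟨p, hp, hl, -⟩ := exists_short_path x y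
  have hnd : p.edges.Nodup := hp.isTrail.edges_nodup
  have h1 := measure_ge_le_exp_mul_mgf (μ := law d F) (X := fun ω : Env d => weight ω p)
    (C0 F β * K) hβ.le (integrable_exp_weight hint p hnd)
  rw [mgf_weight _ p hnd] at h1
  have hm := one_le_mgf hβ.le hint
  set m := mgf (fun x : ℝ≥0 => (x : ℝ)) F β with hmdef
  have hm0 : 0 < m := by linarith
  calc (law d F).real {ω | C0 F β * K ≤ passageTime ω x y}
      ≤ (law d F).real {ω | C0 F β * K ≤ weight ω p} :=
        measureReal_mono fun ω hω => le_trans hω (T_le_weight ω p)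
    _ ≤ Real.exp (-β * (C0 F β * K)) * m ^ p.length := h1
    _ ≤ Real.exp (-β * (C0 F β * K)) * m ^ K := by
        gcongr
        omega
    _ = Real.exp (-(K : ℝ)) := by
        rw [← Real.exp_log (pow_pos hm0 K), ← Real.exp_add, Real.log_pow]
        congr 1
        unfold C0
        rw [← hmdef]
        field_simp
        ring

lemma summable_poly_exp (A k : ℕ) :
    Summable fun m : ℕ => ((2 * (A * m : ℕ) + 1 : ℕ) : ℝ) ^ k * Real.exp (-(m : ℝ)) := by
  have h1 : Summable fun m : ℕ => ((m : ℝ)) ^ k * Real.exp (-(1 : ℝ) * m) :=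
    Real.summable_pow_mul_exp_neg_nat_mul k one_pos
  have h2 := ((summable_nat_add_iff 1).mpr h1).mul_left ((2 * A + 1 : ℝ) ^ k * Real.exp 1)
  refine Summable.of_nonneg_of_le (fun m => by positivity) (fun m => ?_) h2
  have e : Real.exp (-(m : ℝ)) = Real.exp 1 * Real.exp (-(1 : ℝ) * ((m + 1 : ℕ) : ℝ)) := by
    rw [← Real.exp_add]; congr 1; push_cast; ring
  rw [e]
  have h3 : ((2 * (A * m : ℕ) + 1 : ℕ) : ℝ) ^ k ≤ (2 * A + 1 : ℝ) ^ k * ((m + 1 : ℕ) : ℝ) ^ k := by
    rw [← mul_pow]
    gcongr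
    push_cast
    nlinarith [Nat.cast_nonneg (α := ℝ) A, Nat.cast_nonneg (α := ℝ) m]
  calc _ ≤ ((2 * A + 1 : ℝ) ^ k * ((m + 1 : ℕ) : ℝ) ^ k) *
        (Real.exp 1 * Real.exp (-(1 : ℝ) * ((m + 1 : ℕ) : ℝ))) := by gcongr
    _ = _ := by ring

/-- The box of sites with coordinates bounded by `R`. -/
noncomputable def box (d R : ℕ) : Finset (Fin d → ℤ) := Fintype.piFinset fun _ => Finset.Icc (-(R : ℤ)) R

lemma mem_box {R : ℕ} {x : Fin d → ℤ} (h : n1 x ≤ R) : x ∈ box d R := by
  unfold box
  rw [Fintype.mem_piFinset]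
  intro i
  rw [Finset.mem_Icc]
  have : (x i).natAbs ≤ R := (Finset.single_le_sum (f := fun i => (x i).natAbs)
    (fun i _ => Nat.zero_le _) (Finset.mem_univ i)).trans h
  omega

lemma card_box (R : ℕ) : (box d R).card = (2 * R + 1) ^ d := by
  unfold box
  rw [Fintype.card_piFinset]
  simp only [Int.card_Icc, Finset.prod_const, Finset.card_univ, Fintype.card_fin]
  congr 1
  omega

/-- Uniform bound for the passage times between near points of a large box. -/
lemma ae_lip {β : ℝ} (hβ : 0 < β) (hint : Integrable (fun x : ℝ≥0 => Real.exp (β * x)) F)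
    (A : ℕ) :
    ∀ᵐ ω ∂(law d F), ∀ᶠ m : ℕ in atTop, ∀ x y : Fin d → ℤ, n1 x ≤ A * m → n1 y ≤ A * m →
      n1 (x - y) ≤ m → passageTime ω x y ≤ C0 F β * m := by
  set B : ℕ → Set (Env d) := fun m => ⋃ x ∈ box d (A * m), ⋃ y ∈ (box d (A * m)).filter
    (fun y => n1 (x - y) ≤ m), {ω | C0 F β * m ≤ passageTime ω x y} with hB
  have hbound : ∀ m, law d F (B m) ≤
      ENNReal.ofReal (((2 * (A * m : ℕ) + 1 : ℕ) : ℝ) ^ (d + d) * Real.exp (-(m : ℝ))) := by
    intro m
    calc law d F (B m) ≤ ∑ x ∈ box d (A * m), ∑ y ∈ (box d (A * m)).filter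
          (fun y => n1 (x - y) ≤ m), ENNReal.ofReal (Real.exp (-(m : ℝ))) := by
          refine (measure_biUnion_finset_le _ _).trans (Finset.sum_le_sum fun x _ => ?_)
          refine (measure_biUnion_finset_le _ _).trans (Finset.sum_le_sum fun y hy => ?_)
          rw [Finset.mem_filter] at hy
          have := T_tail hβ hint hy.2
          rw [← ofReal_measureReal]
          exact ENNReal.ofReal_le_ofReal this
      _ ≤ ∑ x ∈ box d (A * m), ∑ y ∈ (box d (A * m)), ENNReal.ofReal (Real.exp (-(m : ℝ))) := by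
          gcongr
          exact Finset.filter_subset _ _
      _ = ENNReal.ofReal (((2 * (A * m : ℕ) + 1 : ℕ) : ℝ) ^ (d + d) * Real.exp (-(m : ℝ))) := by
          rw [Finset.sum_const, Finset.sum_const, card_box, ENNReal.ofReal_mul (by positivity),
            ENNReal.ofReal_pow (by positivity), ENNReal.ofReal_natCast]
          simp only [nsmul_eq_mul]
          push_cast
          ring
  have hs : ∑' m, law d F (B m) ≠ ⊤ :=
    ne_top_of_le_ne_top (summable_poly_exp A (d + d)).tsum_ofReal_ne_top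
      (ENNReal.tsum_le_tsum hbound)
  filter_upwards [ae_eventually_notMem hs] with ω hω
  filter_upwards [hω] with m hm x y hx hy hxy
  by_contra hcon
  push Not at hcon
  apply hm
  rw [hB]
  simp only [Set.mem_iUnion]
  exact ⟨x, mem_box hx, y, Finset.mem_filter.mpr ⟨mem_box hy, hxy⟩, hcon.le⟩

end Pool.Agent.H55.FPP
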