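import Pool.Agent.H55.FPP.Defs

/-!
# First-passage percolation: elementary properties of the passage time
-/

open MeasureTheory Filter
open scoped NNReal Topology

namespace Pool.Agent.H55.FPP

variable {d : ℕ}

/-- `ℓ¹` norm of an integer vector, as a natural number. -/
def n1 (x : Fin d → ℤ) : ℕ := ∑ i, (x i).natAbs

lemma n1_zero : n1 (0 : Fin d → ℤ) = 0 := by simp [n1]

lemma n1_neg (x : Fin d → ℤ) : n1 (-x) = n1 x := by simp [n1]

lemma n1_sub_comm (x y : Fin d → ℤ) : n1 (x - y) = n1 (y - x) := by
  rw [← n1_neg (x - y), neg_sub]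

lemma n1_add_le (x y : Fin d → ℤ) : n1 (x + y) ≤ n1 x + n1 y := by
  unfold n1
  rw [← Finset.sum_add_distrib]
  exact Finset.sum_le_sum fun i _ => Int.natAbs_add_le _ _

lemma n1_sub_le (x y z : Fin d → ℤ) : n1 (x - z) ≤ n1 (x - y) + n1 (y - z) := by
  have := n1_add_le (x - y) (y - z)
  simpa using this

lemma n1_eq_zero {x : Fin d → ℤ} : n1 x = 0 ↔ x = 0 := by
  unfold n1
  constructor
  · intro h
    rw [Finset.sum_eq_zero_iff] at h
    funext i
    simpa using h i (Finset.mem_univ i)
  · rintro rfl; simp

lemma n1_smul (k : ℕ) (x : Fin d → ℤ) : n1 ((k : ℤ) • x) = k * n1 x := by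
  unfold n1
  rw [Finset.mul_sum]
  refine Finset.sum_congr rfl fun i _ => ?_
  simp [Int.natAbs_mul]

lemma adj_iff {x y : Fin d → ℤ} : (lattice d).Adj x y ↔ n1 (x - y) = 1 := by
  change (∑ i, |x i - y i| = 1) ↔ _
  unfold n1
  have : (∑ i, |x i - y i|) = ((∑ i, ((x - y) i).natAbs : ℕ) : ℤ) := by
    push_cast
    simp
  rw [this]
  exact_mod_cast Iff.rfl

/-! ### Weights of walks -/

lemma weight_nil (ω : Env d) (u : Fin d → ℤ) :
    weight ω (SimpleGraph.Walk.nil : (lattice d).Walk u u) = 0 := by
  simp [weight]

lemma weight_cons (ω : Env d) {u v w : Fin d → ℤ} (h : (lattice d).Adj u v)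
    (p : (lattice d).Walk v w) :
    weight ω (SimpleGraph.Walk.cons h p) = ω s(u, v) + weight ω p := by
  simp [weight]

lemma weight_append (ω : Env d) {u v w : Fin d → ℤ} (p : (lattice d).Walk u v)
    (q : (lattice d).Walk v w) :
    weight ω (p.append q) = weight ω p + weight ω q := by
  simp [weight]

lemma weight_reverse (ω : Env d) {u v : Fin d → ℤ} (p : (lattice d).Walk u v) :
    weight ω p.reverse = weight ω p := by
  simp [weight, List.sum_reverse]

lemma weight_nonneg (ω : Env d) {u v : Fin d → ℤ} (p : (lattice d).Walk u v) :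
    0 ≤ weight ω p := by
  unfold weight
  apply List.sum_nonneg
  intro x hx
  rw [List.mem_map] at hx
  obtain ⟨e, -, rfl⟩ := hx
  exact NNReal.coe_nonneg _

lemma weight_bypass_le (ω : Env d) {u v : Fin d → ℤ} (p : (lattice d).Walk u v) :
    weight ω p.bypass ≤ weight ω p := by
  unfold weight
  apply List.Sublist.sum_le_sum
  · exact (p.edges_bypass_sublist_edges).map _
  · intro x hx
    rw [List.mem_map] at hx
    obtain ⟨e, -, rfl⟩ := hx
    exact NNReal.coe_nonneg _

/-! ### Canonical paths -/

lemma exists_step {x y : Fin d → ℤ} (h : x ≠ y) :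
    ∃ x', (lattice d).Adj x x' ∧ n1 (x' - y) + 1 = n1 (x - y) := by
  obtain ⟨i, hi⟩ := Function.ne_iff.mp h
  set s : ℤ := if x i < y i then 1 else -1 with hs
  refine ⟨Function.update x i (x i + s), ?_, ?_⟩
  · rw [adj_iff]
    unfold n1
    rw [Finset.sum_eq_single i]
    · simp only [Pi.sub_apply, Function.update_self]
      rw [hs]; split_ifs <;> simp
    · intro j _ hj
      simp [Function.update_of_ne hj]
    · simp
  · unfold n1
    rw [← Finset.add_sum_erase _ _ (Finset.mem_univ i),
      ← Finset.add_sum_erase (a := i) (s := Finset.univ) (f := fun j => ((x - y) j).natAbs)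
        (Finset.mem_univ i)]
    have h1 : ∑ j ∈ Finset.univ.erase i, ((Function.update x i (x i + s) - y) j).natAbs =
        ∑ j ∈ Finset.univ.erase i, ((x - y) j).natAbs := by
      refine Finset.sum_congr rfl fun j hj => ?_
      have : j ≠ i := Finset.ne_of_mem_erase hj
      simp [Function.update_of_ne this]
    rw [h1]
    have h2 : ((Function.update x i (x i + s) - y) i).natAbs + 1 = ((x - y) i).natAbs := by
      simp only [Pi.sub_apply, Function.update_self]
      rw [hs]
      split_ifs with hlt <;> omega
    omega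

lemma exists_short_path (x y : Fin d → ℤ) :
    ∃ p : (lattice d).Walk x y, p.IsPath ∧ p.length = n1 (x - y) ∧
      ∀ z ∈ p.support, n1 (z - y) ≤ n1 (x - y) := by
  induction hn : n1 (x - y) generalizing x with
  | zero =>
    have : x = y := by
      rw [n1_eq_zero, sub_eq_zero] at hn; exact hn
    subst this
    exact ⟨SimpleGraph.Walk.nil, by simp, by simp, by simp [n1_zero]⟩
  | succ n ih =>
    have hne : x ≠ y := by
      rintro rfl
      simp [n1_zero] at hn
    obtain ⟨x', hadj, hx'⟩ := exists_step hne
    have hx'n : n1 (x' - y) = n := by omega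
    obtain ⟨p, hp, hl, hs⟩ := ih x' hx'n
    refine ⟨SimpleGraph.Walk.cons hadj p, ?_, ?_, ?_⟩
    · rw [SimpleGraph.Walk.cons_isPath_iff]
      refine ⟨hp, fun hmem => ?_⟩
      have := hs x hmem
      omega
    · simp [hl]
    · intro z hz
      rw [SimpleGraph.Walk.support_cons, List.mem_cons] at hz
      rcases hz with rfl | hz
      · omega
      · have := hs z hz; omega

instance (x y : Fin d → ℤ) : Nonempty ((lattice d).Walk x y) :=
  ⟨(exists_short_path x y).choose⟩

instance (x y : Fin d → ℤ) : Nonempty ((lattice d).Path x y) :=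
  ⟨⟨(exists_short_path x y).choose, (exists_short_path x y).choose_spec.1⟩⟩

instance (x y : Fin d → ℤ) : Countable ((lattice d).Walk x y) := by
  have : Function.Injective (fun p : (lattice d).Walk x y => p.support) := by
    intro p q h
    exact SimpleGraph.Walk.ext_support h
  exact this.countable

lemma n1_sub_le_length {x y : Fin d → ℤ} (p : (lattice d).Walk x y) :
    n1 (x - y) ≤ p.length := by
  induction p with
  | nil => simp [n1_zero]
  | cons h p ih =>
    rw [SimpleGraph.Walk.length_cons]
    have h1 := n1_sub_le _ _ _ |>.trans (Nat.add_le_add (adj_iff.mp h).le ih)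
    omega

/-! ### Passage time -/

lemma bddBelow_weight (ω : Env d) (u v : Fin d → ℤ) :
    BddBelow (Set.range fun p : (lattice d).Path u v => weight ω (p : (lattice d).Walk u v)) := by
  refine ⟨0, ?_⟩
  rintro _ ⟨p, rfl⟩
  exact weight_nonneg ω _

lemma T_nonneg (ω : Env d) (u v : Fin d → ℤ) : 0 ≤ passageTime ω u v :=
  le_ciInf fun p => weight_nonneg ω _

lemma T_le_weight (ω : Env d) {u v : Fin d → ℤ} (p : (lattice d).Walk u v) :
    passageTime ω u v ≤ weight ω p :=
  (ciInf_le (bddBelow_weight ω u v) ⟨p.bypass, p.bypass_isPath⟩).trans (weight_bypass_le ω p)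

lemma exists_walk_lt (ω : Env d) (u v : Fin d → ℤ) {ε : ℝ} (hε : 0 < ε) :
    ∃ p : (lattice d).Walk u v, p.IsPath ∧ weight ω p < passageTime ω u v + ε := by
  obtain ⟨p, hp⟩ := exists_lt_of_ciInf_lt (lt_add_of_pos_right (passageTime ω u v) hε)
  exact ⟨p, p.2, hp⟩

lemma T_self (ω : Env d) (u : Fin d → ℤ) : passageTime ω u u = 0 :=
  le_antisymm ((T_le_weight ω SimpleGraph.Walk.nil).trans_eq (weight_nil ω u)) (T_nonneg ω u u)

lemma T_le_symm (ω : Env d) (u v : Fin d → ℤ) : passageTime ω u v ≤ passageTime ω v u := by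
  refine le_of_forall_pos_lt_add fun ε hε => ?_
  obtain ⟨p, -, hp⟩ := exists_walk_lt ω v u hε
  have := T_le_weight ω p.reverse
  rw [weight_reverse] at this
  linarith

lemma T_symm (ω : Env d) (u v : Fin d → ℤ) : passageTime ω u v = passageTime ω v u :=
  le_antisymm (T_le_symm ω u v) (T_le_symm ω v u)

lemma T_triangle (ω : Env d) (u v w : Fin d → ℤ) :
    passageTime ω u w ≤ passageTime ω u v + passageTime ω v w := by
  refine le_of_forall_pos_lt_add fun ε hε => ?_
  obtain ⟨p, -, hp⟩ := exists_walk_lt ω u v (half_pos hε)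
  obtain ⟨q, -, hq⟩ := exists_walk_lt ω v w (half_pos hε)
  have := T_le_weight ω (p.append q)
  rw [weight_append] at this
  linarith

lemma measurable_weight {u v : Fin d → ℤ} (p : (lattice d).Walk u v) :
    Measurable fun ω : Env d => weight ω p := by
  induction p with
  | nil => simp only [weight_nil]; exact measurable_const
  | cons h p ih =>
    simp only [weight_cons]
    refine Measurable.add ?_ ih
    exact measurable_coe_nnreal_real.comp (measurable_pi_apply _)

lemma measurable_T (u v : Fin d → ℤ) : Measurable fun ω : Env d => passageTime ω u v := by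
  unfold passageTime
  refine Measurable.iInf fun p => ?_
  exact measurable_weight _

/-! ### Translations -/

/-- The translation of the edges by `z`. -/
def trE (z : Fin d → ℤ) : Sym2 (Fin d → ℤ) → Sym2 (Fin d → ℤ) := Sym2.map (· + z)

lemma trE_mk (z x y : Fin d → ℤ) : trE z s(x, y) = s(x + z, y + z) := by
  simp [trE]

lemma trE_injective (z : Fin d → ℤ) : Function.Injective (trE z) :=
  Sym2.map.injective (add_left_injective z)

/-- The environment seen from `z`. -/
def shift (z : Fin d → ℤ) (ω : Env d) : Env d := fun e => ω (trE z e)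

/-- translation of the lattice -/
def trHom (z : Fin d → ℤ) : lattice d →g lattice d where
  toFun := (· + z)
  map_rel' := by
    intro a b h
    rw [adj_iff] at h ⊢
    simpa using h

lemma weight_map_trHom (ω : Env d) (z : Fin d → ℤ) {u v : Fin d → ℤ} (p : (lattice d).Walk u v) :
    weight ω (p.map (trHom z)) = weight (shift z ω) p := by
  unfold weight shift
  rw [SimpleGraph.Walk.edges_map, List.map_map]
  rfl

lemma T_shift_ge (ω : Env d) (z u v : Fin d → ℤ) :
    passageTime ω (u + z) (v + z) ≤ passageTime (shift z ω) u v := by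
  refine le_of_forall_pos_lt_add fun ε hε => ?_
  obtain ⟨p, -, hp⟩ := exists_walk_lt (shift z ω) u v hε
  have := T_le_weight ω (p.map (trHom z))
  rw [weight_map_trHom] at this
  exact this.trans_lt hp

lemma shift_shift (ω : Env d) (z z' : Fin d → ℤ) : shift z (shift z' ω) = shift (z + z') ω := by
  funext e
  unfold shift
  congr 1
  induction e using Sym2.ind with
  | _ x y => rw [trE_mk, trE_mk, trE_mk, add_assoc, add_assoc]

lemma shift_zero (ω : Env d) : shift 0 ω = ω := by
  funext e
  unfold shift
  congr 1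
  induction e using Sym2.ind with
  | _ x y => rw [trE_mk, add_zero, add_zero]

lemma T_shift (ω : Env d) (z u v : Fin d → ℤ) :
    passageTime (shift z ω) u v = passageTime ω (u + z) (v + z) := by
  refine le_antisymm ?_ (T_shift_ge ω z u v)
  have := T_shift_ge (shift z ω) (-z) (u + z) (v + z)
  rwa [shift_shift, neg_add_cancel, shift_zero, add_neg_cancel_right, add_neg_cancel_right] at this

lemma measurable_shift (z : Fin d → ℤ) : Measurable (shift z : Env d → Env d) :=
  measurable_pi_lambda _ fun _ => measurable_pi_apply _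

end Pool.Agent.H55.FPP
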